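import Pool.Agent.Lib.MP_688fd0_co.LP.Ball

/-!
Top lemma (section 6 of the Blueprint), group part (helper43): the global isoperimetric inequality,
the distance function to a set and the covering of a neighbourhood of a path.
-/

set_option autoImplicit false

namespace Pool.Agent.Lib.MP_688fd0_co.LP

open Classical Pointwise Finset

namespace TopGroup

variable {Γ : Type*} [Group Γ] [Fintype Γ]

/-- the global isoperimetric inequality -/
theorem hiso {T : Finset Γ} (hT : Symm T) {D : ℕ} (hD : T ^ D = Finset.univ) (W : Finset Γ) :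
    W.card * (Fintype.card Γ - W.card) ≤ Fintype.card Γ * D *
      (univ.filter (fun v => v ∉ W ∧ ∃ u ∈ W, (cay T).Adj u v)).card := by
  have hball : ∀ z : Γ, ∀ s, D ≤ s → ball T z s = univ := by
    intro z s hs
    ext y
    simp only [mem_univ, iff_true, mem_ball]
    exact pow_mono_T hT hs (by rw [hD]; exact mem_univ _)
  have h1 : ∀ g : Γ, (W.filter (fun u => u * g ∉ W)).card ≤
      D * (univ.filter (fun v => v ∉ W ∧ ∃ u ∈ W, (cay T).Adj u v)).card := by
    intro g
    have h2 := exit_count hT (W : Set Γ) 1 D D g (by rw [hD]; exact mem_univ _)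
    rw [hball 1 D le_rfl, hball 1 (D + D) (by omega)] at h2
    refine le_trans (le_of_eq ?_) (le_trans h2 (le_of_eq ?_))
    · congr 1
      ext u; simp
    · congr 2
      ext u; simp [nb]
  have h3 : W.card * (Fintype.card Γ - W.card) ≤
      ∑ g : Γ, (W.filter (fun u => u * g ∉ W)).card := by
    have e : Fintype.card Γ - W.card = Wᶜ.card := (Finset.card_compl W).symm
    rw [e, ← Finset.card_product, ← Finset.card_sigma]
    apply Finset.card_le_card_of_injOn (fun p => (⟨p.1⁻¹ * p.2, p.1⟩ : (_ : Γ) × Γ))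
    · rintro ⟨u, v⟩ h
      simp only [Finset.coe_product, Set.mem_prod, Finset.mem_coe, Finset.mem_compl] at h
      simp only [Finset.coe_sigma, Set.mem_sigma_iff, Finset.mem_coe, Finset.mem_filter]
      exact ⟨mem_univ _, h.1, by simpa using h.2⟩
    · rintro ⟨u, v⟩ _ ⟨u', v'⟩ _ h
      simp only [Sigma.mk.injEq, heq_eq_eq] at h
      obtain ⟨h1, rfl⟩ := h
      simp at h1
      rw [h1]
  calc _ ≤ _ := h3
    _ ≤ ∑ _g : Γ, D * (univ.filter (fun v => v ∉ W ∧ ∃ u ∈ W, (cay T).Adj u v)).card :=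
      Finset.sum_le_sum (fun g _ => h1 g)
    _ = _ := by rw [Finset.sum_const, smul_eq_mul, Finset.card_univ]; ring

/-- distance to a set -/
noncomputable def dst (T : Finset Γ) (Y : Set Γ) (v : Γ) : ℕ :=
  sInf {r | ∃ y ∈ Y, v ∈ ball T y r}

lemma dst_le_iff {T : Finset Γ} (hT : Symm T) {D : ℕ} (hD : T ^ D = Finset.univ) {Y : Set Γ}
    (hY : Y.Nonempty) {v : Γ} {r : ℕ} : dst T Y v ≤ r ↔ ∃ y ∈ Y, v ∈ ball T y r := by
  constructor
  · intro h
    obtain ⟨y0, hy0⟩ := hY
    have hne : ({r | ∃ y ∈ Y, v ∈ ball T y r} : Set ℕ).Nonempty :=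
      ⟨D, y0, hy0, by rw [mem_ball, hD]; exact mem_univ _⟩
    obtain ⟨y, hy, hv⟩ := Nat.sInf_mem hne
    exact ⟨y, hy, ball_mono hT y h hv⟩
  · intro h
    exact Nat.sInf_le h

lemma dst_adj {T : Finset Γ} (hT : Symm T) {D : ℕ} (hD : T ^ D = Finset.univ) {Y : Set Γ}
    (hY : Y.Nonempty) {u v : Γ} (h : (cay T).Adj u v) : dst T Y v ≤ dst T Y u + 1 := by
  rw [dst_le_iff hT hD hY]
  obtain ⟨y, hy, hu⟩ := (dst_le_iff hT hD hY).1 (le_refl (dst T Y u))
  exact ⟨y, hy, ball_adj hT hu h⟩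

lemma dst_mem {T : Finset Γ} (hT : Symm T) {Y : Set Γ} {y : Γ} (hy : y ∈ Y) : dst T Y y = 0 := by
  have : dst T Y y ≤ 0 := Nat.sInf_le ⟨y, hy, self_mem_ball hT y 0⟩
  omega

/-- vertices of a path at distance `s` on the path -/
lemma chain_ball {T : Finset Γ} (hT : Symm T) {l : List Γ} (hl : l.IsChain (cay T).Adj) (i s : ℕ)
    (h : i + s < l.length) : l[i + s] ∈ ball T (l[i]'(by omega)) s := by
  induction s with
  | zero => exact self_mem_ball hT _ 0
  | succ s ih =>
    have h1 := ih (by omega)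
    have h2 := List.isChain_iff_getElem.1 hl (i + s) (by omega)
    exact ball_adj hT h1 h2

/-- the `r0`-neighbourhood of a path with `L` vertices -/
lemma card_nhd {T : Finset Γ} (hT : Symm T) {l : List Γ} (hl : l.IsChain (cay T).Adj) (r0 : ℕ)
    (h0 : 1 ≤ r0) : (univ.filter (fun v => ∃ y ∈ l, v ∈ ball T y r0)).card ≤
      (l.length / r0 + 1) * (T ^ (2 * r0)).card := by
  have hsub : univ.filter (fun v => ∃ y ∈ l, v ∈ ball T y r0) ⊆
      (Finset.range (l.length / r0 + 1)).biUnion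
        (fun q => if h : r0 * q < l.length then ball T (l[r0 * q]) (2 * r0) else ∅) := by
    intro v hv
    simp only [mem_filter, mem_univ, true_and] at hv
    obtain ⟨y, hy, hv⟩ := hv
    obtain ⟨i, hi, rfl⟩ := List.getElem_of_mem hy
    rw [mem_biUnion]
    refine ⟨i / r0, ?_, ?_⟩
    · rw [mem_range]
      have := Nat.div_le_div_right (c := r0) hi.le
      omega
    · have h1 := Nat.div_add_mod i r0
      have h2 := Nat.mod_lt i (show r0 > 0 by omega)
      rw [dif_pos (by omega)]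
      have h3 := chain_ball hT hl (r0 * (i / r0)) (i % r0) (by omega)
      have h4 : l[r0 * (i / r0) + i % r0] = l[i] := by
        congr 1
      rw [h4] at h3
      exact ball_trans' hT h3 hv (by omega)
  refine (card_le_card hsub).trans (card_biUnion_le.trans ?_)
  calc _ ≤ ∑ _q ∈ Finset.range (l.length / r0 + 1), (T ^ (2 * r0)).card := by
        apply Finset.sum_le_sum
        intro q _
        split_ifs with h
        · rw [card_ball]
        · simp
    _ = _ := by rw [Finset.sum_const, smul_eq_mul, card_range]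

lemma card_nhd_zero (T : Finset Γ) (l : List Γ) :
    (univ.filter (fun v => ∃ y ∈ l, v ∈ ball T y 0)).card ≤ l.length := by
  have : univ.filter (fun v => ∃ y ∈ l, v ∈ ball T y 0) ⊆ l.toFinset := by
    intro v hv
    simp only [mem_filter, mem_univ, true_and] at hv
    obtain ⟨y, hy, hv⟩ := hv
    rw [mem_ball, pow_zero, Finset.mem_one] at hv
    have : y = v := by
      rw [inv_mul_eq_one] at hv; exact hv
    subst this
    simpa using hy
  exact (card_le_card this).trans (List.toFinset_card_le l)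

/-- hypothesis `hY` of `top_abs` -/
theorem hY {T : Finset Γ} (hT : Symm T) {D : ℕ} (hD : T ^ D = Finset.univ) (hD1 : 1 ≤ D) (r0 : ℕ)
    (hr0 : r0 ≤ D)
    (h1 : 1 ≤ r0 → ((8 * D + 8) / r0 + 2) * (T ^ (2 * r0)).card * (32 * D) <
      (r0 + 1) * Fintype.card Γ)
    (h0 : r0 = 0 → (8 * D + 8) * (32 * D) < Fintype.card Γ) (l : List Γ) (hl : IsP (cay T) l)
    (hlen : l.length ≤ 8 * D + 8) : ∃ φ : Γ → ℕ,
      (∀ u v, (cay T).Adj u v → φ v ≤ φ u + 1) ∧ (∀ y ∈ l, φ y = 0) ∧
      (univ.filter (fun v => φ v ≤ r0)).card * (32 * D) < (r0 + 1) * Fintype.card Γ ∧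
      8 * (univ.filter (fun v => φ v ≤ r0)).card ≤ Fintype.card Γ := by
  obtain ⟨hne, hch, -⟩ := hl
  have hne' : ({x | x ∈ l} : Set Γ).Nonempty := by
    obtain ⟨x, hx⟩ := List.exists_mem_of_ne_nil l hne
    exact ⟨x, hx⟩
  have hcard : (univ.filter (fun v => dst T {x | x ∈ l} v ≤ r0)).card * (32 * D) <
      (r0 + 1) * Fintype.card Γ := by
    have e : univ.filter (fun v => dst T {x | x ∈ l} v ≤ r0) =
        univ.filter (fun v => ∃ y ∈ l, v ∈ ball T y r0) := by
      ext v
      simp only [mem_filter, mem_univ, true_and]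
      rw [dst_le_iff hT hD hne']
      rfl
    rw [e]
    rcases Nat.eq_zero_or_pos r0 with hr | hr
    · subst hr
      have h2 := card_nhd_zero T l
      have h3 := h0 rfl
      have h4 : (univ.filter (fun v => ∃ y ∈ l, v ∈ ball T y 0)).card * (32 * D) ≤
          (8 * D + 8) * (32 * D) := Nat.mul_le_mul_right _ (h2.trans hlen)
      omega
    · have h2 := card_nhd hT hch r0 hr
      have h3 := h1 hr
      have h4 : l.length / r0 + 1 ≤ (8 * D + 8) / r0 + 2 := by
        have := Nat.div_le_div_right (c := r0) hlen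
        omega
      refine lt_of_le_of_lt (Nat.mul_le_mul_right _ (h2.trans (Nat.mul_le_mul_right _ h4))) h3
  refine ⟨dst T {x | x ∈ l}, fun u v h => dst_adj hT hD hne' h, fun y hy => dst_mem hT hy, hcard,
    ?_⟩
  set c := (univ.filter (fun v => dst T {x | x ∈ l} v ≤ r0)).card
  by_contra hcon
  push Not at hcon
  have h5 : (r0 + 1) * Fintype.card Γ ≤ (2 * D) * Fintype.card Γ :=
    Nat.mul_le_mul_right _ (by omega)
  have h6 : (2 * D) * Fintype.card Γ ≤ (2 * D) * (8 * c) := Nat.mul_le_mul_left _ hcon.le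
  have h7 : (2 * D) * (8 * c) ≤ c * (32 * D) := by
    have : c * (32 * D) = 2 * ((2 * D) * (8 * c)) := by ring
    omega
  omega

/-- Hypothesis 3 of `scales` from the conclusion of `top_abs` for the Cayley graph. -/
theorem top_group {T : Finset Γ} (hT : Symm T) {D : ℕ} (hD : T ^ D = Finset.univ) (hD1 : 1 ≤ D)
    (P : List Γ) (hP : P ≠ [])
    (habs : ∀ ψ : Γ → ℕ, (∀ u v, (cay T).Adj u v → ψ v ≤ ψ u + 1) → (∀ x ∈ P, ψ x = 0) →
      ∀ r, r ≤ D → ∀ r0 : ℕ,
      (∀ l : List Γ, IsP (cay T) l → l.length ≤ 8 * D + 8 → ∃ φ : Γ → ℕ,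
        (∀ u v, (cay T).Adj u v → φ v ≤ φ u + 1) ∧ (∀ y ∈ l, φ y = 0) ∧
        (univ.filter (fun v => φ v ≤ r0)).card * (32 * D) < (r0 + 1) * Fintype.card Γ ∧
        8 * (univ.filter (fun v => φ v ≤ r0)).card ≤ Fintype.card Γ) →
      Fintype.card Γ * (r + 1) ≤ 32 * D * (univ.filter (fun v => ψ v ≤ r)).card ∨
        Fintype.card Γ ≤ 16 * P.length)
    (r r0 : ℕ) (hr : r ≤ D) (hr0 : r0 ≤ D)
    (h1 : 1 ≤ r0 → ((8 * D + 8) / r0 + 2) * (T ^ (2 * r0)).card * (32 * D) <
      (r0 + 1) * Fintype.card Γ)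
    (h0 : r0 = 0 → (8 * D + 8) * (32 * D) < Fintype.card Γ) :
    Fintype.card Γ * (r + 1) ≤
      32 * D * (univ.filter (fun x => ∃ v ∈ P, v ∈ ball T x r)).card ∨
      Fintype.card Γ ≤ 16 * P.length := by
  have hne' : ({x | x ∈ P} : Set Γ).Nonempty := by
    obtain ⟨x, hx⟩ := List.exists_mem_of_ne_nil P hP
    exact ⟨x, hx⟩
  have h := habs (dst T {x | x ∈ P}) (fun u v h => dst_adj hT hD hne' h)
    (fun x hx => dst_mem hT hx) r hr r0 (fun l hl hlen => hY hT hD hD1 r0 hr0 h1 h0 l hl hlen)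
  have e : univ.filter (fun v => dst T {x | x ∈ P} v ≤ r) =
      univ.filter (fun x => ∃ v ∈ P, v ∈ ball T x r) := by
    ext x
    simp only [mem_filter, mem_univ, true_and]
    rw [dst_le_iff hT hD hne']
    constructor
    · rintro ⟨y, hy, h⟩
      exact ⟨y, hy, ball_symm hT h⟩
    · rintro ⟨y, hy, h⟩
      exact ⟨y, hy, ball_symm hT h⟩
  rw [e] at h
  exact h

end TopGroup

end Pool.Agent.Lib.MP_688fd0_co.LP
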