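import Mathlib

/-!
Explicit rate (helper20): from the inequalities F1, F2, top of the Blueprint one gets `n ≤ p * 2 ^ (K * q ^ 3)`
whenever `n ≤ 2 ^ (q ^ 4)`, that is `p ≥ n * exp (-K' (log n) ^ (3/4))`.
-/

set_option autoImplicit false

namespace Pool.Agent.Lib.MP_688fd0_co.LP

namespace Rate

lemma pigeon (g : ℕ → ℕ) (c t : ℕ) (ht : 1 ≤ t) (h : g t ≤ 2 ^ (c * t) * g 0) :
    ∃ i < t, g (i + 1) ≤ 2 ^ c * g i := by
  by_contra hcon
  push Not at hcon
  have key : ∀ i, i ≤ t → 2 ^ (c * i) * g 0 ≤ g i ∧ (1 ≤ i → 2 ^ (c * i) * g 0 < g i) := by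
    intro i
    induction i with
    | zero => intro _; simp
    | succ i ih =>
      intro hi
      have h1 := (ih (by omega)).1
      have h2 := hcon i (by omega)
      have h3 : 2 ^ (c * (i + 1)) * g 0 = 2 ^ c * (2 ^ (c * i) * g 0) := by ring
      have h4 : 2 ^ (c * (i + 1)) * g 0 < g (i + 1) := by
        rw [h3]; exact lt_of_le_of_lt (Nat.mul_le_mul_left _ h1) h2
      exact ⟨h4.le, fun _ => h4⟩
  exact absurd h (not_le.2 ((key t le_rfl).2 ht))

/-- The hypotheses of the recursion. -/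
structure Data (q n D p : ℕ) (b f : ℕ → ℕ) : Prop where
  q1 : 1 ≤ q
  n1 : 1 ≤ n
  nq : n ≤ 2 ^ (q ^ 4)
  D1 : 1 ≤ D
  bm : Monotone b
  b0 : b 0 = 1
  bn : ∀ r, b r ≤ n
  bD : b D = n
  fm : Monotone f
  f0 : f 0 = p
  fn : ∀ r, f r ≤ n
  fD : f D = n
  Dp : D + 1 ≤ p
  F1 : ∀ s R R2 k C : ℕ, 1 ≤ s → 1 ≤ C → b (4 * s) ≤ C * b s → 60 * C ^ 2 * s ≤ R → 2 * R ≤ D →
      n * (30 * s) ^ k < R ^ (k + 1) → R ≤ R2 → (f R2 - f R) * b s ≤ 20 * p * b (R2 + (4 * k + 4) * R)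
  F2 : ∀ s R r k C : ℕ, 1 ≤ s → 1 ≤ C → b (4 * s) ≤ C * b s → 60 * C ^ 2 * s ≤ R → 2 * R ≤ D →
      n * (30 * s) ^ k < R ^ (k + 1) → r ≤ s →
      f R * ((r + 1) * b s) ≤ 256 * C ^ 2 * s * f r * b ((4 * k + 4) * R)
  top : ∀ r r0 : ℕ, r ≤ D → r0 ≤ D →
      (1 ≤ r0 → ((8 * D + 8) / r0 + 2) * b (2 * r0) * (32 * D) < (r0 + 1) * n) →
      (r0 = 0 → (8 * D + 8) * (32 * D) < n) → n * (r + 1) ≤ 32 * D * f r ∨ n ≤ 64 * p

/-- left end of window `j` -/
def w (q j : ℕ) : ℕ := 2 ^ (40 * q ^ 2 * j)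

/-- slow growth in window `j` -/
def Slow (b : ℕ → ℕ) (q j : ℕ) : Prop := b (w q (j + 1)) ≤ 2 ^ (q ^ 3) * b (w q j)

/-- good pair in window `j` -/
structure GP (b : ℕ → ℕ) (q j s R : ℕ) : Prop where
  ws : w q j ≤ s
  R_eq : R = 60 * (2 ^ q) ^ 2 * s
  dbl : b (4 * s) ≤ 2 ^ q * b s
  top : (4 * q ^ 4 + 4) * R ≤ w q (j + 1)
  gr : b ((4 * q ^ 4 + 4) * R) ≤ 2 ^ (q ^ 2) * b s

lemma w_pos (q j : ℕ) : 1 ≤ w q j := Nat.one_le_two_pow

lemma w_mono {q i j : ℕ} (h : i ≤ j) : w q i ≤ w q j :=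
  Nat.pow_le_pow_right (by norm_num) (Nat.mul_le_mul_left _ h)

lemma bits (q : ℕ) (_hq : 1 ≤ q) : 4 * q ^ 4 + 4 ≤ 2 ^ (4 * q + 3) := by
  have h1 : q ≤ 2 ^ q := Nat.lt_two_pow_self.le
  have h2 : q ^ 4 ≤ 2 ^ (4 * q) := by
    calc q ^ 4 ≤ (2 ^ q) ^ 4 := Nat.pow_le_pow_left h1 4
      _ = 2 ^ (4 * q) := by rw [← pow_mul]; ring_nf
  have h3 : 1 ≤ 2 ^ (4 * q) := Nat.one_le_two_pow
  calc 4 * q ^ 4 + 4 ≤ 4 * 2 ^ (4 * q) + 4 * 2 ^ (4 * q) := by omega
    _ = 2 ^ (4 * q + 3) := by rw [pow_add]; ring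

lemma good {q n D p : ℕ} {b f : ℕ → ℕ} (h : Data q n D p b f) {j : ℕ} (hs : Slow b q j) :
    ∃ s R, GP b q j s R := by
  have hq := h.q1
  obtain ⟨i, hi, hgi⟩ := pigeon (fun i => b (2 ^ (40 * q ^ 2 * j + 40 * q * i))) (q ^ 2) q hq (by
    have e1 : 40 * q ^ 2 * j + 40 * q * q = 40 * q ^ 2 * (j + 1) := by ring
    have e2 : q ^ 2 * q = q ^ 3 := by ring
    simp only [mul_zero, add_zero]
    rw [e1, e2]
    exact hs)
  set a := 40 * q ^ 2 * j + 40 * q * i with ha
  have ha1 : 40 * q ^ 2 * j + 40 * q * (i + 1) = a + 40 * q := by rw [ha]; ring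
  rw [ha1] at hgi
  obtain ⟨t, ht, hgt⟩ := pigeon (fun t => b (2 ^ (a + 2 * t))) q q hq (by
    simp only [mul_zero, add_zero]
    have e2 : q * q = q ^ 2 := by ring
    rw [e2]
    exact (h.bm (Nat.pow_le_pow_right (by norm_num) (by omega))).trans hgi)
  set s := 2 ^ (a + 2 * t) with hsdef
  have h4s : 4 * s = 2 ^ (a + 2 * (t + 1)) := by
    rw [hsdef, show a + 2 * (t + 1) = a + 2 * t + 2 by ring, pow_add _ (a + 2 * t) 2]; ring
  have has : 2 ^ a ≤ s := Nat.pow_le_pow_right (by norm_num) (by omega)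
  have htop : (4 * q ^ 4 + 4) * (60 * (2 ^ q) ^ 2 * s) ≤ 2 ^ (a + 40 * q) := by
    calc (4 * q ^ 4 + 4) * (60 * (2 ^ q) ^ 2 * s) ≤ 2 ^ (4 * q + 3) * (2 ^ 6 * (2 ^ q) ^ 2 * s) := by
          gcongr
          · exact bits q hq
          · norm_num
      _ = 2 ^ ((4 * q + 3) + (6 + q * 2 + (a + 2 * t))) := by
          rw [hsdef, pow_add 2 (4 * q + 3), pow_add 2 (6 + q * 2), pow_add 2 6, ← pow_mul 2 q 2]
      _ ≤ 2 ^ (a + 40 * q) := Nat.pow_le_pow_right (by norm_num) (by omega)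
  refine ⟨s, 60 * (2 ^ q) ^ 2 * s, ?_, rfl, ?_, ?_, ?_⟩
  · refine le_trans ?_ has
    exact Nat.pow_le_pow_right (by norm_num) (by omega)
  · rw [h4s]; exact hgt
  · refine htop.trans ?_
    apply Nat.pow_le_pow_right (by norm_num)
    have : a + 40 * q = 40 * q ^ 2 * j + 40 * q * (i + 1) := ha1.symm
    rw [this]
    calc 40 * q ^ 2 * j + 40 * q * (i + 1) ≤ 40 * q ^ 2 * j + 40 * q * q := by gcongr; omega
      _ = 40 * q ^ 2 * (j + 1) := by ring
  · calc b ((4 * q ^ 4 + 4) * (60 * (2 ^ q) ^ 2 * s)) ≤ b (2 ^ (a + 40 * q)) := h.bm htop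
      _ ≤ 2 ^ (q ^ 2) * b (2 ^ a) := hgi
      _ ≤ 2 ^ (q ^ 2) * b s := Nat.mul_le_mul_left _ (h.bm has)

section gp

variable {q n D p : ℕ} {b f : ℕ → ℕ} {j s R : ℕ}

lemma GP.s1 (g : GP b q j s R) : 1 ≤ s := (w_pos q j).trans g.ws

lemma GP.sR (g : GP b q j s R) : 60 * s ≤ R := by
  rw [g.R_eq]
  have : 1 ≤ (2 ^ q) ^ 2 := Nat.one_le_pow _ _ (by positivity)
  calc 60 * s = 60 * 1 * s := by ring
    _ ≤ 60 * (2 ^ q) ^ 2 * s := by gcongr

lemma GP.Rw (h : Data q n D p b f) (g : GP b q j s R) : 8 * R ≤ w q (j + 1) := by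
  refine le_trans ?_ g.top
  have : 1 ≤ q ^ 4 := Nat.one_le_pow _ _ h.q1
  gcongr; omega

lemma b_pos (h : Data q n D p b f) (r : ℕ) : 1 ≤ b r := by
  have := h.bm (Nat.zero_le r)
  rw [h.b0] at this; exact this

lemma GP.kcond (h : Data q n D p b f) (g : GP b q j s R) :
    n * (30 * s) ^ (q ^ 4) < R ^ (q ^ 4 + 1) := by
  have hR := g.sR
  have hs := g.s1
  have h1 : (2 * (30 * s)) ^ (q ^ 4) ≤ R ^ (q ^ 4) := Nat.pow_le_pow_left (by omega) _
  have h2 : n * (30 * s) ^ (q ^ 4) ≤ R ^ (q ^ 4) := by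
    calc n * (30 * s) ^ (q ^ 4) ≤ 2 ^ (q ^ 4) * (30 * s) ^ (q ^ 4) := Nat.mul_le_mul_right _ h.nq
      _ = (2 * (30 * s)) ^ (q ^ 4) := (mul_pow _ _ _).symm
      _ ≤ _ := h1
  have h3 : 0 < R ^ (q ^ 4) := Nat.pow_pos (by omega)
  calc n * (30 * s) ^ (q ^ 4) ≤ R ^ (q ^ 4) := h2
    _ = R ^ (q ^ 4) * 1 := by ring
    _ < R ^ (q ^ 4) * R := Nat.mul_lt_mul_of_pos_left (by omega) h3
    _ = R ^ (q ^ 4 + 1) := (pow_succ R (q ^ 4)).symm

lemma GP.F1 (h : Data q n D p b f) (g : GP b q j s R) (hD : w q (j + 1) ≤ D) {R2 : ℕ} (hR2 : R ≤ R2) :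
    (f R2 - f R) * b s ≤ 20 * p * b (R2 + (4 * q ^ 4 + 4) * R) :=
  h.F1 s R R2 (q ^ 4) (2 ^ q) g.s1 Nat.one_le_two_pow g.dbl (le_of_eq g.R_eq.symm)
    (by have := g.Rw h; omega) (g.kcond h) hR2

/-- F2 with the growth bound inserted -/
lemma GP.F2 (h : Data q n D p b f) (g : GP b q j s R) (hD : w q (j + 1) ≤ D) {r : ℕ} (hr : r ≤ s) :
    f R * (r + 1) ≤ 2 ^ (8 + 2 * q + q ^ 2) * s * f r := by
  have h1 := h.F2 s R r (q ^ 4) (2 ^ q) g.s1 Nat.one_le_two_pow g.dbl (le_of_eq g.R_eq.symm)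
    (by have := g.Rw h; omega) (g.kcond h) hr
  apply Nat.le_of_mul_le_mul_right _ (b_pos h s)
  calc f R * (r + 1) * b s = f R * ((r + 1) * b s) := by ring
    _ ≤ 256 * (2 ^ q) ^ 2 * s * f r * b ((4 * q ^ 4 + 4) * R) := h1
    _ ≤ 256 * (2 ^ q) ^ 2 * s * f r * (2 ^ (q ^ 2) * b s) := Nat.mul_le_mul_left _ g.gr
    _ = 2 ^ (8 + 2 * q + q ^ 2) * s * f r * b s := by
        rw [pow_add, pow_add, mul_comm 2 q, pow_mul]; ring

end gp

section main

open Classical

variable {q n D p : ℕ} {b f : ℕ → ℕ}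

/-- number of fast windows in `[a, J)` -/
noncomputable def fast (b : ℕ → ℕ) (q a J : ℕ) : ℕ := ((Finset.Ico a J).filter (fun i => ¬ Slow b q i)).card

lemma fast_bound (h : Data q n D p b f) (J : ℕ) : fast b q 0 J ≤ q := by
  have key : ∀ m, 2 ^ (q ^ 3 * fast b q 0 m) ≤ b (w q m) := by
    intro m
    induction m with
    | zero => simpa [fast] using b_pos h _
    | succ m ih =>
      by_cases hs : Slow b q m
      · have e : fast b q 0 (m + 1) = fast b q 0 m := by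
          unfold fast
          rw [← Finset.insert_Ico_right_eq_Ico_add_one (Nat.zero_le m), Finset.filter_insert, if_neg (by simpa using hs)]
        rw [e]; exact ih.trans (h.bm (w_mono (by omega)))
      · have e : fast b q 0 (m + 1) = fast b q 0 m + 1 := by
          unfold fast
          rw [← Finset.insert_Ico_right_eq_Ico_add_one (Nat.zero_le m), Finset.filter_insert, if_pos hs,
            Finset.card_insert_of_notMem (by simp)]
        rw [e]
        unfold Slow at hs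
        rw [not_le] at hs
        calc 2 ^ (q ^ 3 * (fast b q 0 m + 1)) = 2 ^ (q ^ 3) * 2 ^ (q ^ 3 * fast b q 0 m) := by
              rw [← pow_add]; ring_nf
          _ ≤ 2 ^ (q ^ 3) * b (w q m) := Nat.mul_le_mul_left _ ih
          _ ≤ _ := hs.le
  have h1 := (key J).trans ((h.bn _).trans h.nq)
  have h2 := (Nat.pow_le_pow_iff_right (by norm_num)).1 h1
  have h3 : q ^ 4 = q ^ 3 * q := by ring
  rw [h3] at h2
  exact Nat.le_of_mul_le_mul_left h2 (Nat.pow_pos h.q1)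

lemma fast_mono (a a' J : ℕ) (h : a ≤ a') : fast b q a' J ≤ fast b q a J := by
  unfold fast
  apply Finset.card_le_card
  apply Finset.filter_subset_filter
  exact Finset.Ico_subset_Ico h le_rfl

/-- all windows in `[a, c)` fast -/
lemma fast_split (a c J : ℕ) (hac : a ≤ c) (hcJ : c ≤ J) (hf : ∀ i, a ≤ i → i < c → ¬ Slow b q i) :
    fast b q a J = (c - a) + fast b q c J := by
  unfold fast
  rw [← Finset.Ico_union_Ico_eq_Ico hac hcJ, Finset.filter_union, Finset.card_union_of_disjoint]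
  · congr 1
    rw [Finset.filter_true_of_mem, Nat.card_Ico]
    intro i hi
    rw [Finset.mem_Ico] at hi
    exact hf i hi.1 hi.2
  · apply Finset.disjoint_filter_filter
    exact Finset.Ico_disjoint_Ico_consecutive a c J

lemma q3 (h : Data q n D p b f) : 1 ≤ q ^ 3 := Nat.one_le_pow _ _ h.q1

lemma q23 (h : Data q n D p b f) : q ^ 2 ≤ q ^ 3 := Nat.pow_le_pow_right h.q1 (by norm_num)

lemma q13 (h : Data q n D p b f) : q ≤ q ^ 3 := by
  calc q = q ^ 1 := (pow_one q).symm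
    _ ≤ q ^ 3 := Nat.pow_le_pow_right h.q1 (by norm_num)

lemma q12 (h : Data q n D p b f) : q ≤ q ^ 2 := by
  calc q = q ^ 1 := (pow_one q).symm
    _ ≤ q ^ 2 := Nat.pow_le_pow_right h.q1 (by norm_num)

lemma base (h : Data q n D p b f) {J j s R : ℕ} (hJ : w q J ≤ D) (hJ' : D < w q (J + 1)) (hj : j < J)
    (hfast : ∀ i, j < i → i < J → ¬ Slow b q i) (g : GP b q j s R) :
    n ≤ 2 ^ (125 * q ^ 3) * f R ∨ n ≤ 2 ^ (270 * q ^ 3) * p := by
  have hs1 := g.s1
  have hsR := g.sR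
  have hwD : w q (j + 1) ≤ D := (w_mono (by omega)).trans hJ
  have hRD : 8 * R ≤ D := (g.Rw h).trans hwD
  have hq3 := q3 h
  have hq23 := q23 h
  have hq13 := q13 h
  -- number of windows above
  have hF : J ≤ j + 1 + q := by
    have h1 := fast_split (b := b) (q := q) (j + 1) J J (by omega) le_rfl (fun i hi hi' => hfast i (by omega) hi')
    have h2 := fast_mono (b := b) (q := q) 0 (j + 1) J (by omega)
    have h3 := fast_bound h J
    omega
  have hDE : D ≤ 2 ^ (120 * q ^ 3) * s := by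
    have h1 : w q (J + 1) ≤ 2 ^ (120 * q ^ 3) * w q j := by
      unfold w
      rw [← pow_add]
      apply Nat.pow_le_pow_right (by norm_num)
      calc 40 * q ^ 2 * (J + 1) ≤ 40 * q ^ 2 * (j + 1 + q + 1) := by gcongr
        _ = 40 * q ^ 3 + 80 * q ^ 2 + 40 * q ^ 2 * j := by ring
        _ ≤ 120 * q ^ 3 + 40 * q ^ 2 * j := by omega
    exact hJ'.le.trans (h1.trans (Nat.mul_le_mul_left _ g.ws))
  by_cases hA : n ≤ 2 ^ (260 * q ^ 3) * b s
  · have h1 := g.F1 h hwD (R2 := D) (by omega)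
    have h2 : (f D - f R) * b s ≤ (20 * p * 2 ^ (260 * q ^ 3)) * b s := by
      calc (f D - f R) * b s ≤ 20 * p * b (D + (4 * q ^ 4 + 4) * R) := h1
        _ ≤ 20 * p * n := Nat.mul_le_mul_left _ (h.bn _)
        _ ≤ 20 * p * (2 ^ (260 * q ^ 3) * b s) := Nat.mul_le_mul_left _ hA
        _ = _ := by ring
    have h3 := Nat.le_of_mul_le_mul_right h2 (b_pos h s)
    rw [h.fD] at h3
    by_cases h4 : n ≤ 2 * f R
    · left
      refine h4.trans (Nat.mul_le_mul_right _ ?_)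
      calc 2 = 2 ^ 1 := rfl
        _ ≤ 2 ^ (125 * q ^ 3) := Nat.pow_le_pow_right (by norm_num) (by omega)
    · right
      have h5 : n ≤ 40 * p * 2 ^ (260 * q ^ 3) := by
        have : 40 * p * 2 ^ (260 * q ^ 3) = 2 * (20 * p * 2 ^ (260 * q ^ 3)) := by ring
        omega
      calc n ≤ 40 * p * 2 ^ (260 * q ^ 3) := h5
        _ ≤ 2 ^ 6 * p * 2 ^ (260 * q ^ 3) := by gcongr; norm_num
        _ = 2 ^ (6 + 260 * q ^ 3) * p := by rw [pow_add]; ring
        _ ≤ 2 ^ (270 * q ^ 3) * p := by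
            gcongr
            · norm_num
            · omega
  · rw [not_le] at hA
    set E := 2 ^ (120 * q ^ 3) with hE
    have hE1 : 1 ≤ E := Nat.one_le_two_pow
    have hdiv : (8 * D + 8) / s ≤ 16 * E := by
      apply Nat.div_le_of_le_mul
      have := h.D1
      calc 8 * D + 8 ≤ 16 * D := by omega
        _ ≤ 16 * (E * s) := Nat.mul_le_mul_left _ hDE
        _ = s * (16 * E) := by ring
    have hb2 : b (2 * s) ≤ 2 ^ q * b s := (h.bm (by omega)).trans g.dbl
    rcases h.top R s (by omega) (by omega) (fun _ => by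
      calc ((8 * D + 8) / s + 2) * b (2 * s) * (32 * D) ≤ (18 * E) * (2 ^ q * b s) * (32 * (E * s)) := by
            gcongr
            omega
        _ = 576 * (E * E) * 2 ^ q * s * b s := by ring
        _ ≤ 2 ^ 10 * (E * E) * 2 ^ q * s * b s := by gcongr; norm_num
        _ = 2 ^ (10 + 240 * q ^ 3 + q) * b s * s := by
            rw [hE, ← pow_add, pow_add _ _ q, pow_add _ 10,
              show 120 * q ^ 3 + 120 * q ^ 3 = 240 * q ^ 3 by ring]
            ring
        _ ≤ 2 ^ (260 * q ^ 3) * b s * s := by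
            gcongr
            · norm_num
            · omega
        _ < n * s := Nat.mul_lt_mul_of_pos_right hA hs1
        _ ≤ (s + 1) * n := by rw [Nat.mul_comm]; gcongr; omega) (by omega) with h1 | h1
    · left
      have hR0 : 0 < R := by omega
      apply Nat.le_of_mul_le_mul_right _ hR0
      calc n * R ≤ n * (R + 1) := by gcongr; omega
        _ ≤ 32 * D * f R := h1
        _ ≤ 32 * (E * R) * f R := by
            gcongr
            exact hDE.trans (Nat.mul_le_mul_left _ (by omega))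
        _ = 2 ^ (5 + 120 * q ^ 3) * f R * R := by rw [hE, pow_add]; ring
        _ ≤ 2 ^ (125 * q ^ 3) * f R * R := by
            gcongr
            · norm_num
            · omega
    · right
      calc n ≤ 64 * p := h1
        _ = 2 ^ 6 * p := by norm_num
        _ ≤ 2 ^ (270 * q ^ 3) * p := by
            gcongr
            · norm_num
            · omega

lemma stepA (h : Data q n D p b f) {j s R s' R' c : ℕ} (g : GP b q j s R) (g' : GP b q (j + 1) s' R')
    (hs : Slow b q j) (hs' : Slow b q (j + 1)) (hD : w q (j + 2) ≤ D) (hc : c + 2 * q ^ 3 + 6 ≤ 270 * q ^ 3)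
    (hP : n ≤ 2 ^ c * f R') : n ≤ 2 ^ (c + 1) * f R ∨ n ≤ 2 ^ (270 * q ^ 3) * p := by
  have hwD : w q (j + 1) ≤ D := (w_mono (by omega)).trans hD
  have hRR : R ≤ R' := by
    have h1 := g.Rw h
    have h2 := g'.ws
    have h3 := g'.sR
    omega
  have h1 := g.F1 h hwD hRR
  have h2 : R' + (4 * q ^ 4 + 4) * R ≤ w q (j + 2) := by
    have e1 := g.top
    have e2 := g'.ws
    have e3 := g'.sR
    have e4 := g'.Rw h
    rw [show j + 1 + 1 = j + 2 by ring] at e4
    omega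
  have h3 : b (w q (j + 2)) ≤ 2 ^ (2 * q ^ 3) * b s := by
    calc b (w q (j + 2)) ≤ 2 ^ (q ^ 3) * b (w q (j + 1)) := hs'
      _ ≤ 2 ^ (q ^ 3) * (2 ^ (q ^ 3) * b (w q j)) := Nat.mul_le_mul_left _ hs
      _ = 2 ^ (2 * q ^ 3) * b (w q j) := by rw [two_mul, pow_add]; ring
      _ ≤ _ := Nat.mul_le_mul_left _ (h.bm g.ws)
  have h4 : (f R' - f R) * b s ≤ (20 * p * 2 ^ (2 * q ^ 3)) * b s := by
    calc (f R' - f R) * b s ≤ 20 * p * b (R' + (4 * q ^ 4 + 4) * R) := h1
      _ ≤ 20 * p * b (w q (j + 2)) := Nat.mul_le_mul_left _ (h.bm h2)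
      _ ≤ 20 * p * (2 ^ (2 * q ^ 3) * b s) := Nat.mul_le_mul_left _ h3
      _ = _ := by ring
  have h5 := Nat.le_of_mul_le_mul_right h4 (b_pos h s)
  by_cases h6 : f R' ≤ 2 * f R
  · left
    calc n ≤ 2 ^ c * f R' := hP
      _ ≤ 2 ^ c * (2 * f R) := Nat.mul_le_mul_left _ h6
      _ = _ := by rw [pow_succ]; ring
  · right
    have h7 : f R' ≤ 40 * p * 2 ^ (2 * q ^ 3) := by
      have : 40 * p * 2 ^ (2 * q ^ 3) = 2 * (20 * p * 2 ^ (2 * q ^ 3)) := by ring
      omega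
    calc n ≤ 2 ^ c * f R' := hP
      _ ≤ 2 ^ c * (2 ^ 6 * p * 2 ^ (2 * q ^ 3)) := by
          gcongr
          refine h7.trans ?_
          gcongr
          norm_num
      _ = 2 ^ (c + 2 * q ^ 3 + 6) * p := by rw [pow_add, pow_add]; ring
      _ ≤ 2 ^ (270 * q ^ 3) * p := by
          gcongr
          norm_num

lemma stepB (h : Data q n D p b f) {j j' s R s' R' : ℕ} (g : GP b q j s R) (g' : GP b q j' s' R')
    (hjj : j + 1 ≤ j') (hD : w q (j' + 1) ≤ D) :
    f R' ≤ 2 ^ (8 + 2 * q + q ^ 2 + 40 * q ^ 2 * (j' + 1 - j)) * f R := by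
  have hRs : R ≤ s' := by
    have h1 := g.Rw h
    have h2 := g'.ws
    have h3 : w q (j + 1) ≤ w q j' := w_mono hjj
    omega
  have h1 := g'.F2 h hD hRs
  have hs' : s' ≤ 2 ^ (40 * q ^ 2 * (j' + 1 - j)) * R := by
    have e1 := g'.Rw h
    have e2 := g'.sR
    have e3 : w q (j' + 1) = 2 ^ (40 * q ^ 2 * (j' + 1 - j)) * w q j := by
      unfold w
      rw [← pow_add, ← Nat.mul_add]
      congr 2
      omega
    have e4 : w q j ≤ R := by
      have := g.ws
      have := g.sR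
      omega
    calc s' ≤ w q (j' + 1) := by omega
      _ = _ := e3
      _ ≤ _ := Nat.mul_le_mul_left _ e4
  have hR0 : 0 < R := by
    have := g.s1
    have := g.sR
    omega
  apply Nat.le_of_mul_le_mul_right _ hR0
  calc f R' * R ≤ f R' * (R + 1) := by gcongr; omega
    _ ≤ 2 ^ (8 + 2 * q + q ^ 2) * s' * f R := h1
    _ ≤ 2 ^ (8 + 2 * q + q ^ 2) * (2 ^ (40 * q ^ 2 * (j' + 1 - j)) * R) * f R := by gcongr
    _ = _ := by rw [pow_add _ (8 + 2 * q + q ^ 2)]; ring

/-- cost exponent -/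
noncomputable def cost (b : ℕ → ℕ) (q j J : ℕ) : ℕ := 125 * q ^ 3 + (J - j) + fast b q (j + 1) J * (131 * q ^ 2)

lemma cost_le (h : Data q n D p b f) {j J : ℕ} (hJ : J ≤ q ^ 2) : cost b q j J ≤ 257 * q ^ 3 := by
  unfold cost
  have h1 := fast_mono (b := b) (q := q) 0 (j + 1) J (by omega)
  have h2 := fast_bound h J
  have h3 : fast b q (j + 1) J * (131 * q ^ 2) ≤ q * (131 * q ^ 2) := Nat.mul_le_mul_right _ (h1.trans h2)
  have h4 : q * (131 * q ^ 2) = 131 * q ^ 3 := by ring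
  have h5 := q23 h
  omega

lemma descend (h : Data q n D p b f) {J : ℕ} (hJ : w q J ≤ D) (hJ' : D < w q (J + 1)) (hJq : J ≤ q ^ 2) :
    ∀ m j, J - j ≤ m → j < J → Slow b q j → ∀ s R, GP b q j s R →
      (n ≤ 2 ^ (cost b q j J) * f R ∨ n ≤ 2 ^ (270 * q ^ 3) * p) := by
  intro m
  induction m with
  | zero => intro j h1 h2; omega
  | succ m ih =>
    intro j hm hj hs s R g
    by_cases hex : ∃ j', j < j' ∧ j' < J ∧ Slow b q j'
    · classical
      set j' := Nat.find hex with hj'def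
      obtain ⟨h1, h2, h3⟩ := Nat.find_spec hex
      rw [← hj'def] at h1 h2 h3
      have hmin : ∀ i, j < i → i < j' → ¬ Slow b q i := by
        intro i hi hi' hsl
        exact Nat.find_min hex hi' ⟨hi, by omega, hsl⟩
      obtain ⟨s', R', g'⟩ := good h h3
      rcases ih j' (by omega) h2 h3 s' R' g' with h4 | h4
      · have hDj' : w q (j' + 1) ≤ D := (w_mono (by omega)).trans hJ
        rcases Nat.lt_or_ge (j + 1) j' with h5 | h5
        · -- crossing fast windows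
          left
          have h6 := stepB h g g' (by omega) hDj'
          have h7 := fast_split (b := b) (q := q) (j + 1) j' J (by omega) (by omega)
            (fun i hi hi' => hmin i (by omega) hi')
          have h8 := fast_mono (b := b) (q := q) j' (j' + 1) J (by omega)
          have hq2 : 1 ≤ q ^ 2 := Nat.one_le_pow _ _ h.q1
          have hq12 := q12 h
          have h9 : cost b q j' J + (8 + 2 * q + q ^ 2 + 40 * q ^ 2 * (j' + 1 - j)) ≤ cost b q j J := by
            unfold cost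
            rw [h7]
            obtain ⟨d, hd⟩ : ∃ d, j' = j + 2 + d := ⟨j' - (j + 2), by omega⟩
            have e1 : j' + 1 - j = d + 3 := by omega
            have e2 : j' - (j + 1) = d + 1 := by omega
            rw [e1, e2]
            have e3 : (d + 1 + fast b q j' J) * (131 * q ^ 2) =
                131 * q ^ 2 * d + 131 * q ^ 2 + fast b q j' J * (131 * q ^ 2) := by ring
            have e4 : 40 * q ^ 2 * (d + 3) = 40 * (q ^ 2 * d) + 120 * q ^ 2 := by ring
            have e5 : 131 * q ^ 2 * d = 131 * (q ^ 2 * d) := by ring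
            have e6 : fast b q (j' + 1) J * (131 * q ^ 2) ≤ fast b q j' J * (131 * q ^ 2) :=
              Nat.mul_le_mul_right _ h8
            rw [e3, e4, e5]
            omega
          calc n ≤ 2 ^ (cost b q j' J) * f R' := h4
            _ ≤ 2 ^ (cost b q j' J) * (2 ^ (8 + 2 * q + q ^ 2 + 40 * q ^ 2 * (j' + 1 - j)) * f R) :=
              Nat.mul_le_mul_left _ h6
            _ = 2 ^ (cost b q j' J + (8 + 2 * q + q ^ 2 + 40 * q ^ 2 * (j' + 1 - j))) * f R := by
              rw [pow_add _ (cost b q j' J)]; ring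
            _ ≤ 2 ^ (cost b q j J) * f R := by
              gcongr
              norm_num
        · have hjj : j' = j + 1 := by omega
          rw [hjj] at g' h3 h4 hDj'
          have hcl := cost_le h (j := j + 1) hJq
          have hq3 := q3 h
          rcases stepA h g g' hs h3 hDj' (by omega) h4 with h5 | h5
          · left
            refine h5.trans (Nat.mul_le_mul_right _ (Nat.pow_le_pow_right (by norm_num) ?_))
            unfold cost
            have h8 := fast_mono (b := b) (q := q) (j + 1) (j + 1 + 1) J (by omega)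
            have e6 : fast b q (j + 1 + 1) J * (131 * q ^ 2) ≤ fast b q (j + 1) J * (131 * q ^ 2) :=
              Nat.mul_le_mul_right _ h8
            omega
          · right; exact h5
      · right; exact h4
    · push Not at hex
      rcases base h hJ hJ' hj (fun i hi hi' => hex i hi hi') g with h1 | h1
      · left
        refine h1.trans (Nat.mul_le_mul_right _ (Nat.pow_le_pow_right (by norm_num) ?_))
        unfold cost
        omega
      · right; exact h1

theorem main (h : Data q n D p b f) : n ≤ 2 ^ (350 * q ^ 3) * p := by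
  have hq3 := q3 h
  have hq23 := q23 h
  have hq12 := q12 h
  have hq2 : 1 ≤ q ^ 2 := Nat.one_le_pow _ _ h.q1
  have hDn : D ≤ n := by
    have := h.fn 0
    rw [h.f0] at this
    have := h.Dp
    omega
  obtain ⟨J, hJ, hJ'⟩ : ∃ J, w q J ≤ D ∧ D < w q (J + 1) := by
    have hD1 := h.D1
    have hlog : 2 ^ (Nat.log 2 D) ≤ D := Nat.pow_log_le_self 2 (by omega)
    have hlog' : D < 2 ^ (Nat.log 2 D + 1) := Nat.lt_pow_succ_log_self (by norm_num) D
    refine ⟨Nat.log 2 D / (40 * q ^ 2), ?_, ?_⟩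
    · refine le_trans (Nat.pow_le_pow_right (by norm_num) ?_) hlog
      rw [Nat.mul_comm]; exact Nat.div_mul_le_self _ _
    · refine lt_of_lt_of_le hlog' (Nat.pow_le_pow_right (by norm_num) ?_)
      exact Nat.lt_mul_div_succ _ (by omega)
  have hJq : J ≤ q ^ 2 := by
    have h1 : 2 ^ (40 * q ^ 2 * J) ≤ 2 ^ (q ^ 4) := (hJ.trans hDn).trans h.nq
    have h2 := (Nat.pow_le_pow_iff_right (by norm_num)).1 h1
    have h3 : q ^ 2 * (40 * J) ≤ q ^ 2 * q ^ 2 := by
      calc q ^ 2 * (40 * J) = 40 * q ^ 2 * J := by ring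
        _ ≤ q ^ 4 := h2
        _ = _ := by ring
    have h4 := Nat.le_of_mul_le_mul_left h3 (by omega)
    omega
  by_cases hex : ∃ j, j < J ∧ Slow b q j
  · classical
    set j := Nat.find hex with hjdef
    obtain ⟨h1, h2⟩ := Nat.find_spec hex
    rw [← hjdef] at h1 h2
    have hmin : ∀ i, 0 ≤ i → i < j → ¬ Slow b q i := by
      intro i _ hi' hsl
      exact Nat.find_min hex hi' ⟨by omega, hsl⟩
    have hjq : j ≤ q := by
      have e1 := fast_split (b := b) (q := q) 0 j J (by omega) (by omega) hmin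
      have e2 := fast_bound h J
      omega
    obtain ⟨s, R, g⟩ := good h h2
    have hwD : w q (j + 1) ≤ D := (w_mono (by omega)).trans hJ
    rcases descend h hJ hJ' hJq (J - j) j le_rfl h1 h2 s R g with h3 | h3
    · have h4 := g.F2 h hwD (r := 0) (by omega)
      rw [h.f0, Nat.zero_add, mul_one] at h4
      have h5 : s ≤ 2 ^ (80 * q ^ 3) := by
        have e1 := g.Rw h
        have e2 := g.sR
        have e3 : w q (j + 1) ≤ 2 ^ (80 * q ^ 3) := by
          apply Nat.pow_le_pow_right (by norm_num)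
          calc 40 * q ^ 2 * (j + 1) ≤ 40 * q ^ 2 * (q + 1) := by gcongr
            _ = 40 * q ^ 3 + 40 * q ^ 2 := by ring
            _ ≤ 80 * q ^ 3 := by omega
        omega
      have h6 := cost_le h (j := j) hJq
      calc n ≤ 2 ^ (cost b q j J) * f R := h3
        _ ≤ 2 ^ (257 * q ^ 3) * (2 ^ (8 + 2 * q + q ^ 2) * 2 ^ (80 * q ^ 3) * p) := by
            gcongr
            · norm_num
            · refine h4.trans ?_
              gcongr
        _ = 2 ^ (257 * q ^ 3 + (8 + 2 * q + q ^ 2 + 80 * q ^ 3)) * p := by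
            rw [pow_add _ (257 * q ^ 3), pow_add _ (8 + 2 * q + q ^ 2)]; ring
        _ ≤ 2 ^ (350 * q ^ 3) * p := by
            gcongr
            · norm_num
            · omega
    · refine h3.trans (Nat.mul_le_mul_right _ (Nat.pow_le_pow_right (by norm_num) (by omega)))
  · push Not at hex
    have hJ1 : J ≤ q := by
      have e1 := fast_split (b := b) (q := q) 0 J J (by omega) le_rfl (fun i _ hi' => hex i hi')
      have e2 := fast_bound h J
      omega
    have hD80 : D ≤ 2 ^ (80 * q ^ 3) := by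
      refine hJ'.le.trans (Nat.pow_le_pow_right (by norm_num) ?_)
      calc 40 * q ^ 2 * (J + 1) ≤ 40 * q ^ 2 * (q + 1) := by gcongr
        _ = 40 * q ^ 3 + 40 * q ^ 2 := by ring
        _ ≤ 80 * q ^ 3 := by omega
    have hDp := h.Dp
    have hD1 := h.D1
    by_cases h0 : (8 * D + 8) * (32 * D) < n
    · rcases h.top 0 0 (by omega) (by omega) (by omega) (fun _ => h0) with h1 | h1
      · rw [h.f0, Nat.zero_add, mul_one] at h1
        calc n ≤ 32 * D * p := h1
          _ ≤ 32 * 2 ^ (80 * q ^ 3) * p := by gcongr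
          _ = 2 ^ (5 + 80 * q ^ 3) * p := by rw [pow_add]; ring
          _ ≤ 2 ^ (350 * q ^ 3) * p := by
              gcongr
              · norm_num
              · omega
      · calc n ≤ 64 * p := h1
          _ = 2 ^ 6 * p := by norm_num
          _ ≤ 2 ^ (350 * q ^ 3) * p := by
              gcongr
              · norm_num
              · omega
    · rw [not_lt] at h0
      calc n ≤ (8 * D + 8) * (32 * D) := h0
        _ ≤ (8 * p) * (32 * 2 ^ (80 * q ^ 3)) := by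
            gcongr
            omega
        _ = 2 ^ (8 + 80 * q ^ 3) * p := by rw [pow_add]; ring
        _ ≤ 2 ^ (350 * q ^ 3) * p := by
            gcongr
            · norm_num
            · omega

/-- the choice of `q` -/
lemma exists_q (n : ℕ) (hn : 2 ≤ n) : ∃ q : ℕ, 1 ≤ q ∧ n ≤ 2 ^ (q ^ 4) ∧
    ((2 : ℝ) ^ (350 * q ^ 3) ≤ Real.exp (2800 * (Real.log n) ^ (3 / 4 : ℝ))) := by
  have hn' : (2 : ℝ) ≤ n := by exact_mod_cast hn
  have hl2 : 0 < Real.log 2 := Real.log_pos (by norm_num)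
  have hl2' : Real.log 2 < 1 := lt_trans Real.log_two_lt_d9 (by norm_num)
  have hln : Real.log 2 ≤ Real.log n := Real.log_le_log (by norm_num) hn'
  set u : ℝ := Real.log n / Real.log 2 with hu
  have hu1 : 1 ≤ u := by rw [hu, le_div_iff₀ hl2]; linarith
  have hu0 : 0 ≤ u := by linarith
  set v : ℝ := u ^ (1 / 4 : ℝ) with hv
  have hv1 : 1 ≤ v := Real.one_le_rpow hu1 (by norm_num)
  have hv4 : v ^ 4 = u := by
    rw [hv, ← Real.rpow_natCast, ← Real.rpow_mul hu0]; norm_num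
  have hv3 : v ^ 3 = u ^ (3 / 4 : ℝ) := by
    rw [hv, ← Real.rpow_natCast, ← Real.rpow_mul hu0]; norm_num
  set q := ⌈v⌉₊ with hq
  have hqv : v ≤ q := Nat.le_ceil v
  have hqv2 : (q : ℝ) ≤ 2 * v := by
    have := Nat.ceil_lt_add_one (by linarith : 0 ≤ v)
    rw [← hq] at this
    linarith
  refine ⟨q, ?_, ?_, ?_⟩
  · have : (1 : ℝ) ≤ q := hv1.trans hqv
    exact_mod_cast this
  · have h1 : u ≤ (q : ℝ) ^ 4 := by rw [← hv4]; gcongr
    have h2 : Real.log n ≤ (q : ℝ) ^ 4 * Real.log 2 := by rwa [hu, div_le_iff₀ hl2] at h1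
    have h3 : Real.log n ≤ Real.log ((2 : ℝ) ^ (q ^ 4)) := by
      rw [Real.log_pow]; push_cast; exact h2
    have h4 := (Real.log_le_log_iff (by linarith) (by positivity)).1 h3
    exact_mod_cast h4
  · have h1 : ((2 : ℝ) ^ (350 * q ^ 3)) = Real.exp (350 * (q : ℝ) ^ 3 * Real.log 2) := by
      rw [mul_comm _ (Real.log 2), Real.exp_mul, Real.exp_log (by norm_num), ← Real.rpow_natCast]
      push_cast
      rfl
    rw [h1, Real.exp_le_exp]
    have h2 : (q : ℝ) ^ 3 ≤ 8 * v ^ 3 := by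
      calc (q : ℝ) ^ 3 ≤ (2 * v) ^ 3 := by gcongr
        _ = 8 * v ^ 3 := by ring
    have h3 : v ^ 3 * Real.log 2 ≤ (Real.log n) ^ (3 / 4 : ℝ) := by
      rw [hv3, hu, Real.div_rpow (by linarith) hl2.le, div_mul_eq_mul_div, div_le_iff₀ (by positivity)]
      apply mul_le_mul_of_nonneg_left _ (by positivity)
      calc Real.log 2 = (Real.log 2) ^ (1 : ℝ) := (Real.rpow_one _).symm
        _ ≤ (Real.log 2) ^ (3 / 4 : ℝ) := Real.rpow_le_rpow_of_exponent_ge hl2 hl2'.le (by norm_num)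
    calc 350 * (q : ℝ) ^ 3 * Real.log 2 ≤ 350 * (8 * v ^ 3) * Real.log 2 := by gcongr
      _ = 2800 * (v ^ 3 * Real.log 2) := by ring
      _ ≤ _ := by gcongr

/-- The explicit rate. -/
theorem rate (n D p : ℕ) (b f : ℕ → ℕ) (hn : 2 ≤ n) (hD : 1 ≤ D) (hb : Monotone b) (hb0 : b 0 = 1)
    (hbn : ∀ r, b r ≤ n) (hbD : b D = n) (hf : Monotone f) (hf0 : f 0 = p) (hfn : ∀ r, f r ≤ n) (hfD : f D = n)
    (hDp : D + 1 ≤ p)
    (hF1 : ∀ s R R2 k C : ℕ, 1 ≤ s → 1 ≤ C → b (4 * s) ≤ C * b s → 60 * C ^ 2 * s ≤ R → 2 * R ≤ D →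
      n * (30 * s) ^ k < R ^ (k + 1) → R ≤ R2 → (f R2 - f R) * b s ≤ 20 * p * b (R2 + (4 * k + 4) * R))
    (hF2 : ∀ s R r k C : ℕ, 1 ≤ s → 1 ≤ C → b (4 * s) ≤ C * b s → 60 * C ^ 2 * s ≤ R → 2 * R ≤ D →
      n * (30 * s) ^ k < R ^ (k + 1) → r ≤ s →
      f R * ((r + 1) * b s) ≤ 256 * C ^ 2 * s * f r * b ((4 * k + 4) * R))
    (htop : ∀ r r0 : ℕ, r ≤ D → r0 ≤ D →
      (1 ≤ r0 → ((8 * D + 8) / r0 + 2) * b (2 * r0) * (32 * D) < (r0 + 1) * n) →
      (r0 = 0 → (8 * D + 8) * (32 * D) < n) → n * (r + 1) ≤ 32 * D * f r ∨ n ≤ 64 * p) :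
    (n : ℝ) * Real.exp (-(2800 * (Real.log n) ^ (3 / 4 : ℝ))) ≤ p := by
  obtain ⟨q, hq1, hq2, hq3⟩ := exists_q n hn
  have h := main (q := q) ⟨hq1, by omega, hq2, hD, hb, hb0, hbn, hbD, hf, hf0, hfn, hfD, hDp, hF1, hF2, htop⟩
  have h' : (n : ℝ) ≤ 2 ^ (350 * q ^ 3) * p := by exact_mod_cast h
  rw [Real.exp_neg, ← div_eq_mul_inv, div_le_iff₀ (Real.exp_pos _)]
  calc (n : ℝ) ≤ 2 ^ (350 * q ^ 3) * p := h'
    _ ≤ Real.exp (2800 * (Real.log n) ^ (3 / 4 : ℝ)) * p := by gcongr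
    _ = _ := by ring

end main

end Rate

end Pool.Agent.Lib.MP_688fd0_co.LP
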