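import Pool.Agent.Lib.MP_688fd0_co.LP.Defs

/-!
Module M1 (helper55): Menger's theorem for vertex sets, on vertex lists (Goering's proof).
-/

set_option autoImplicit false

namespace Pool.Agent.Lib.MP_688fd0_co.LP

open Classical

namespace Menger

variable {V : Type*}

/-- there is a walk from `a` to `b` in the digraph `r` that avoids `X` -/
def RA (r : V → V → Prop) (X : Set V) (a b : V) : Prop :=
  a ∉ X ∧ Relation.ReflTransGen (fun u v => r u v ∧ v ∉ X) a b

theorem RA.right {r : V → V → Prop} {X : Set V} {a b : V} (h : RA r X a b) : b ∉ X := by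
  obtain ⟨h1, h2⟩ := h
  rcases Relation.ReflTransGen.cases_tail h2 with h | ⟨c, _, h⟩
  · rw [h]; exact h1
  · exact h.2

theorem RA.refl {r : V → V → Prop} {X : Set V} {a : V} (h : a ∉ X) : RA r X a a :=
  ⟨h, Relation.ReflTransGen.refl⟩

theorem RA.trans {r : V → V → Prop} {X : Set V} {a b c : V} (h : RA r X a b) (h' : RA r X b c) :
    RA r X a c := ⟨h.1, h.2.trans h'.2⟩

theorem RA.mono {r r' : V → V → Prop} {X X' : Set V} {a b : V} (h : RA r X a b)
    (hr : ∀ u v, r u v → r' u v) (hX : X' ⊆ X) : RA r' X' a b :=
  ⟨fun h' => h.1 (hX h'),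
    Relation.ReflTransGen.mono (fun u v huv => ⟨hr u v huv.1, fun h' => huv.2 (hX h')⟩) _ _ h.2⟩

theorem chain_RA {r : V → V → Prop} {X : Set V} : ∀ (l : List V) (a b : V),
    l.IsChain r → l.head? = some a → l.getLast? = some b → (∀ x ∈ l, x ∉ X) → RA r X a b := by
  intro l
  induction l with
  | nil => intro a b _ h; simp at h
  | cons c l ih =>
    intro a b hc ha hb hX
    simp only [List.head?_cons, Option.some.injEq] at ha
    subst ha
    cases l with
    | nil =>
      simp at hb
      subst hb
      exact RA.refl (hX _ (by simp))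
    | cons d l =>
      have h1 := ih d b (by simpa using (List.isChain_cons_cons.1 hc).2) rfl
        (by simpa [List.getLast?_cons_cons] using hb) (fun x hx => hX x (by simp at hx ⊢; tauto))
      have h2 : r c d := (List.isChain_cons_cons.1 hc).1
      exact ⟨hX c (by simp), Relation.ReflTransGen.head ⟨h2, h1.1⟩ h1.2⟩

theorem RA_of_mem_left {r : V → V → Prop} {X : Set V} {l : List V} {a v : V} (hc : l.IsChain r)
    (ha : l.head? = some a) (hv : v ∈ l) (hX : ∀ x ∈ l.dropLast, x ∉ X) (hvX : v ∉ X) :
    RA r X a v := by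
  obtain ⟨l1, l2, rfl⟩ := List.append_of_mem hv
  refine chain_RA (l1 ++ [v]) a v (List.isChain_split.1 hc).1 ?_ (by simp) ?_
  · cases l1 with
    | nil => simpa using ha
    | cons c l1 => simpa using ha
  · intro x hx
    rw [List.dropLast_append_of_ne_nil (by simp)] at hX
    simp only [List.mem_append, List.mem_singleton] at hx
    rcases hx with hx | rfl
    · exact hX x (by simp [hx])
    · exact hvX

theorem RA_of_mem_right {r : V → V → Prop} {X : Set V} {l : List V} {b v : V} (hc : l.IsChain r)
    (hb : l.getLast? = some b) (hv : v ∈ l) (hX : ∀ x ∈ l.tail, x ∉ X) (hvX : v ∉ X) :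
    RA r X v b := by
  obtain ⟨l1, l2, rfl⟩ := List.append_of_mem hv
  refine chain_RA (v :: l2) v b (List.isChain_split.1 hc).2 rfl ?_ ?_
  · rw [List.getLast?_append_of_ne_nil _ (by simp)] at hb
    exact hb
  · intro x hx
    simp only [List.mem_cons] at hx
    rcases hx with rfl | hx
    · exact hvX
    · apply hX x
      cases l1 with
      | nil => simpa using hx
      | cons c l1 => simp [hx]

/-- `k` disjoint `A`-`B` paths in the digraph `r`. -/
structure Lk (r : V → V → Prop) (A B : Set V) (k : ℕ) (Q : Fin k → List V) : Prop where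
  ch : ∀ i, (Q i).IsChain r
  nd : ∀ i, (Q i).Nodup
  hd : ∀ i, ∃ a ∈ A, (Q i).head? = some a
  lt : ∀ i, ∃ b ∈ B, (Q i).getLast? = some b
  tl : ∀ i, ∀ x ∈ (Q i).tail, x ∉ A
  dl : ∀ i, ∀ x ∈ (Q i).dropLast, x ∉ B
  dj : ∀ i j, i ≠ j → ∀ x, x ∈ Q i → x ∈ Q j → False

theorem mem_of_head? {l : List V} {a : V} (h : l.head? = some a) : a ∈ l := by
  cases l with
  | nil => simp at h
  | cons c l => simp at h; simp [h]

theorem mem_of_getLast? {l : List V} {a : V} (h : l.getLast? = some a) : a ∈ l :=
  List.mem_of_getLast? h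

theorem mem_dropLast_or {l : List V} {b x : V} (h : l.getLast? = some b) (hx : x ∈ l) :
    x ∈ l.dropLast ∨ x = b := by
  have h1 : l.dropLast ++ [b] = l := List.dropLast_append_getLast? b h
  rw [← h1] at hx
  simpa using hx

theorem mem_tail_or {l : List V} {a x : V} (h : l.head? = some a) (hx : x ∈ l) :
    x ∈ l.tail ∨ x = a := by
  cases l with
  | nil => simp at h
  | cons c l => simp at h hx ⊢; subst h; tauto

theorem not_mem_tail {l : List V} {a : V} (hn : l.Nodup) (h : l.head? = some a) : a ∉ l.tail := by
  cases l with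
  | nil => simp at h
  | cons c l => simp at h hn ⊢; subst h; exact hn.1

/-- the gluing step of Goering's proof -/
theorem glue [Finite V] {r r' : V → V → Prop} (hrr : ∀ u v, r' u v → r u v) {A B : Set V}
    {S : Finset V} {x y : V} {k : ℕ} (hxy : r x y) (hS : S.card < k)
    (hsep : ∀ a ∈ A, ∀ b ∈ B, ¬ RA r' ↑S a b)
    {P Q : Fin k → List V} (hP : Lk r' A (insert x (S : Set V)) k P)
    (hQ : Lk r' (insert y (S : Set V)) B k Q) :
    ∃ R : Fin k → List V, Lk r A B k R := by
  choose a haA ha using hP.hd
  choose p hpS hp using hP.lt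
  choose q hqS hq using hQ.hd
  choose b hbB hb using hQ.lt
  have hpinj : Function.Injective p := by
    intro i j hij
    by_contra hne
    exact hP.dj i j hne (p i) (mem_of_getLast? (hp i)) (hij ▸ mem_of_getLast? (hp j))
  have hqinj : Function.Injective q := by
    intro i j hij
    by_contra hne
    exact hQ.dj i j hne (q i) (mem_of_head? (hq i)) (hij ▸ mem_of_head? (hq j))
  -- counting
  have key : ∀ (z : V) (f : Fin k → V), Function.Injective f → (∀ i, f i ∈ insert z (S : Set V)) →
      z ∉ S ∧ ∀ s ∈ insert z (S : Set V), ∃ i, f i = s := by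
    intro z f hf hfS
    have h1 : Finset.univ.image f ⊆ insert z S := by
      intro u hu
      simp only [Finset.mem_image, Finset.mem_univ, true_and] at hu
      obtain ⟨i, rfl⟩ := hu
      simpa using hfS i
    have h2 : (Finset.univ.image f).card = k := by
      rw [Finset.card_image_of_injective _ hf]; simp
    have h3 : (insert z S).card ≤ k := (Finset.card_insert_le _ _).trans hS
    have h4 : Finset.univ.image f = insert z S := Finset.eq_of_subset_of_card_le h1 (by omega)
    constructor
    · intro hz
      have : (insert z S).card = S.card := by rw [Finset.insert_eq_of_mem hz]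
      rw [← h4] at this
      omega
    · intro s hs
      have : s ∈ insert z S := by simpa using hs
      rw [← h4] at this
      simpa using this
  obtain ⟨hxS, hpsurj⟩ := key x p hpinj hpS
  obtain ⟨hyS, hqsurj⟩ := key y q hqinj hqS
  -- crossing
  have cross_left : ∀ i v, v ∈ P i → v ∉ S → RA r' ↑S (a i) v := by
    intro i v hv hvS
    exact RA_of_mem_left (hP.ch i) (ha i) hv
      (fun u hu h => hP.dl i u hu (Set.mem_insert_of_mem _ h)) (by simpa using hvS)
  have cross_right : ∀ j v, v ∈ Q j → v ∉ S → RA r' ↑S v (b j) := by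
    intro i v hv hvS
    exact RA_of_mem_right (hQ.ch i) (hb i) hv
      (fun u hu h => hQ.tl i u hu (Set.mem_insert_of_mem _ h)) (by simpa using hvS)
  have endP : ∀ i v, v ∈ P i → v ∈ S → v = p i := by
    intro i v hv hvS
    rcases mem_dropLast_or (hp i) hv with h | h
    · exact absurd (Set.mem_insert_of_mem _ (by simpa using hvS)) (hP.dl i v h)
    · exact h
  have endQ : ∀ i v, v ∈ Q i → v ∈ S → v = q i := by
    intro i v hv hvS
    rcases mem_tail_or (hq i) hv with h | h
    · exact absurd (Set.mem_insert_of_mem _ (by simpa using hvS)) (hQ.tl i v h)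
    · exact h
  have cross : ∀ i j v, v ∈ P i → v ∈ Q j → v ∈ S := by
    intro i j v h1 h2
    by_contra hvS
    exact hsep _ (haA i) _ (hbB j) ((cross_left i v h1 hvS).trans (cross_right j v h2 hvS))
  -- choice of the continuation
  have hex : ∀ i, ∃ j, (p i = x ∧ q j = y) ∨ (p i ∈ S ∧ q j = p i) := by
    intro i
    rcases hpS i with h | h
    · obtain ⟨j, hj⟩ := hqsurj y (Set.mem_insert _ _)
      exact ⟨j, Or.inl ⟨h, hj⟩⟩
    · obtain ⟨j, hj⟩ := hqsurj (p i) (Set.mem_insert_of_mem _ h)
      exact ⟨j, Or.inr ⟨by simpa using h, hj⟩⟩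
  choose σ hσ using hex
  have hσinj : Function.Injective σ := by
    intro i i' hii
    rcases hσ i with ⟨h1, h2⟩ | ⟨h1, h2⟩ <;> rcases hσ i' with ⟨h3, h4⟩ | ⟨h3, h4⟩
    · exact hpinj (h1.trans h3.symm)
    · rw [hii, h4] at h2; rw [h2] at h3; exact absurd h3 hyS
    · rw [hii, h4] at h2; rw [← h2] at h1; exact absurd h1 hyS
    · rw [hii, h4] at h2; exact hpinj h2.symm
  let T : Fin k → List V := fun i => if p i = x then Q (σ i) else (Q (σ i)).tail
  have hTx : ∀ i, p i = x → T i = Q (σ i) ∧ q (σ i) = y := by
    intro i h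
    refine ⟨if_pos h, ?_⟩
    rcases hσ i with ⟨h1, h2⟩ | ⟨h1, h2⟩
    · exact h2
    · rw [h] at h1; exact absurd h1 hxS
  have hTs : ∀ i, p i ≠ x → T i = (Q (σ i)).tail ∧ q (σ i) = p i ∧ p i ∈ S := by
    intro i h
    refine ⟨if_neg h, ?_⟩
    rcases hσ i with ⟨h1, h2⟩ | ⟨h1, h2⟩
    · exact absurd h1 h
    · exact ⟨h2, h1⟩
  have hTQ : ∀ i v, v ∈ T i → v ∈ Q (σ i) := by
    intro i v hv
    by_cases h : p i = x
    · rw [(hTx i h).1] at hv; exact hv
    · rw [(hTs i h).1] at hv; exact List.mem_of_mem_tail hv
  -- elements of T are never in S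
  have hTS : ∀ i v, v ∈ T i → v ∉ S := by
    intro i v hv hvS
    have h1 := endQ _ v (hTQ i v hv) hvS
    by_cases h : p i = x
    · rw [(hTx i h).2] at h1; rw [h1] at hvS; exact hyS hvS
    · rw [(hTs i h).1, h1] at hv
      exact not_mem_tail (hQ.nd _) (hq _) hv
  have hTlast : ∀ i, T i ≠ [] → (T i).getLast? = some (b (σ i)) := by
    intro i hne
    by_cases h : p i = x
    · rw [(hTx i h).1]; exact hb _
    · rw [(hTs i h).1] at hne ⊢
      have := hb (σ i)
      generalize Q (σ i) = l at this hne ⊢
      cases l with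
      | nil => simp at hne
      | cons c l =>
        cases l with
        | nil => simp at hne
        | cons d l => simpa [List.getLast?_cons_cons] using this
  have hTdl : ∀ i v, v ∈ (T i).dropLast → v ∈ (Q (σ i)).dropLast := by
    intro i v hv
    by_cases h : p i = x
    · rw [(hTx i h).1] at hv; exact hv
    · rw [(hTs i h).1] at hv
      generalize Q (σ i) = l at hv ⊢
      cases l with
      | nil => simp at hv
      | cons c l =>
        cases l with
        | nil => simp at hv
        | cons d l => simp only [List.tail_cons] at hv; simp [hv]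
  have hTtriv : ∀ i, T i = [] → p i ≠ x ∧ p i = b (σ i) := by
    intro i hT
    have h : p i ≠ x := by
      intro h
      rw [(hTx i h).1] at hT
      have := hq (σ i)
      rw [hT] at this
      simp at this
    refine ⟨h, ?_⟩
    obtain ⟨h1, h2, h3⟩ := hTs i h
    rw [h1] at hT
    have hq' := hq (σ i)
    have hb' := hb (σ i)
    rw [← h2]
    generalize Q (σ i) = l at hT hq' hb'
    cases l with
    | nil => simp at hq'
    | cons c l =>
      simp at hT hq'
      subst hT
      simp at hb'
      rw [← hq', ← hb']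
  refine ⟨fun i => P i ++ T i, ?_, ?_, ?_, ?_, ?_, ?_, ?_⟩
  · -- chain
    intro i
    refine List.IsChain.append ((hP.ch i).imp (fun u v => hrr u v)) ?_ ?_
    · by_cases h : p i = x
      · rw [(hTx i h).1]; exact (hQ.ch _).imp (fun u v => hrr u v)
      · rw [(hTs i h).1]; exact ((hQ.ch _).imp (fun u v => hrr u v)).tail
    · intro u hu w hw
      rw [hp i] at hu
      simp only [Option.mem_def, Option.some.injEq] at hu hw
      subst hu
      by_cases h : p i = x
      · rw [(hTx i h).1, hq] at hw
        simp only [Option.some.injEq] at hw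
        rw [h, ← hw, (hTx i h).2]; exact hxy
      · obtain ⟨h1, h2, h3⟩ := hTs i h
        rw [h1] at hw
        have hc := hQ.ch (σ i)
        have hq' := hq (σ i)
        rw [h2] at hq'
        generalize Q (σ i) = l at hw hc hq'
        cases l with
        | nil => simp at hw
        | cons c l =>
          simp only [List.tail_cons, List.head?_cons, Option.some.injEq] at hw hq'
          rw [← hq']
          exact hrr _ _ ((List.isChain_cons.1 hc).1 w (by simpa using hw))
  · -- nodup
    intro i
    refine List.Nodup.append (hP.nd i) ?_ ?_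
    · by_cases h : p i = x
      · rw [(hTx i h).1]; exact hQ.nd _
      · rw [(hTs i h).1]; exact (hQ.nd _).tail
    · intro v hv1 hv2
      exact hTS i v hv2 (cross i (σ i) v hv1 (hTQ i v hv2))
  · intro i
    refine ⟨a i, haA i, ?_⟩
    show (P i ++ T i).head? = _
    rw [List.head?_append, ha i]; rfl
  · intro i
    by_cases hT : T i = []
    · refine ⟨b (σ i), hbB _, ?_⟩
      show (P i ++ T i).getLast? = _
      rw [hT, List.append_nil, hp i, (hTtriv i hT).2]
    · refine ⟨b (σ i), hbB _, ?_⟩
      show (P i ++ T i).getLast? = _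
      rw [List.getLast?_append_of_ne_nil _ hT]
      exact hTlast i hT
  · -- tail
    intro i v hv hvA
    have hPne : P i ≠ [] := by
      intro h; have := ha i; rw [h] at this; simp at this
    change v ∈ (P i ++ T i).tail at hv
    rw [List.tail_append_of_ne_nil hPne] at hv
    rcases List.mem_append.1 hv with hv | hv
    · exact hP.tl i v hv hvA
    · exact hsep v hvA _ (hbB (σ i)) (cross_right (σ i) v (hTQ i v hv) (hTS i v hv))
  · -- dropLast
    intro i v hv hvB
    change v ∈ (P i ++ T i).dropLast at hv
    have hvP : v ∈ P i → v ∈ S ∧ v = p i ∧ p i ≠ x := by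
      intro hvP
      have hvS : v ∈ S := by
        by_contra hvS
        exact hsep _ (haA i) _ hvB (cross_left i v hvP hvS)
      refine ⟨hvS, endP i v hvP hvS, ?_⟩
      intro h
      have := endP i v hvP hvS
      rw [h] at this
      rw [this] at hvS
      exact hxS hvS
    by_cases hT : T i = []
    · rw [hT, List.append_nil] at hv
      obtain ⟨h1, h2, h3⟩ := hvP (List.mem_of_mem_dropLast hv)
      exact hP.dl i v hv (Set.mem_insert_of_mem _ (by simpa using h1))
    · rw [List.dropLast_append_of_ne_nil hT] at hv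
      rcases List.mem_append.1 hv with hv | hv
      · obtain ⟨h1, h2, h3⟩ := hvP hv
        obtain ⟨h4, h5, h6⟩ := hTs i h3
        -- v is the head of Q (σ i), whose tail is nonempty
        rw [h4] at hT
        have hq' := hq (σ i)
        rw [h5, ← h2] at hq'
        have hdl := hQ.dl (σ i)
        generalize Q (σ i) = l at hT hq' hdl
        cases l with
        | nil => simp at hT
        | cons c l =>
          cases l with
          | nil => simp at hT
          | cons d l =>
            simp at hq'
            subst hq'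
            exact hdl c (by simp) hvB
      · exact hQ.dl (σ i) v (hTdl i v hv) hvB
  · -- disjoint
    intro i j hij v hv1 hv2
    change v ∈ P i ++ T i at hv1
    change v ∈ P j ++ T j at hv2
    rcases List.mem_append.1 hv1 with hv1 | hv1 <;> rcases List.mem_append.1 hv2 with hv2 | hv2
    · exact hP.dj i j hij v hv1 hv2
    · exact hTS j v hv2 (cross i (σ j) v hv1 (hTQ j v hv2))
    · exact hTS i v hv1 (cross j (σ i) v hv2 (hTQ i v hv1))
    · exact hQ.dj (σ i) (σ j) (fun h => hij (hσinj h)) v (hTQ i v hv1) (hTQ j v hv2)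

theorem menger_aux [Finite V] (E : Finset (V × V)) : ∀ (A B : Set V) (k : ℕ),
    (∀ X : Finset V, X.card < k → ∃ a ∈ A, ∃ b ∈ B, RA (fun u v => (u, v) ∈ E) ↑X a b) →
    ∃ Q : Fin k → List V, Lk (fun u v => (u, v) ∈ E) A B k Q := by
  induction E using Finset.induction_on with
  | empty =>
    intro A B k h
    have hfin : (A ∩ B).Finite := Set.toFinite _
    have hk : k ≤ hfin.toFinset.card := by
      by_contra hlt
      push Not at hlt
      obtain ⟨a, ha, b, hb, hab⟩ := h hfin.toFinset hlt
      obtain ⟨h1, h2⟩ := hab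
      have : a = b := by
        rcases Relation.ReflTransGen.cases_tail h2 with h | ⟨c, _, h⟩
        · exact h.symm
        · simp at h
      subst this
      exact h1 (by simp [ha, hb])
    obtain ⟨s, hs, hsk⟩ := Finset.exists_subset_card_eq hk
    let e : Fin k ≃ s := (Finset.equivFinOfCardEq hsk).symm
    have he : ∀ i, (e i : V) ∈ A ∩ B := fun i => by
      have := hs (e i).2
      simpa using this
    refine ⟨fun i => [(e i : V)], ?_, ?_, ?_, ?_, ?_, ?_, ?_⟩
    · intro i; simp
    · intro i; simp
    · intro i; exact ⟨_, (he i).1, rfl⟩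
    · intro i; exact ⟨_, (he i).2, rfl⟩
    · intro i x hx; simp at hx
    · intro i x hx; simp at hx
    · intro i j hij x hx1 hx2
      simp only [List.mem_singleton] at hx1 hx2
      exact hij (e.injective (Subtype.ext (hx1.symm.trans hx2)))
  | insert e E he ih =>
    obtain ⟨x, y⟩ := e
    intro A B k h
    have hmono : ∀ u v : V, (u, v) ∈ E → (u, v) ∈ insert (x, y) E :=
      fun u v huv => Finset.mem_insert_of_mem huv
    by_cases hsep : ∀ X : Finset V, X.card < k →
        ∃ a ∈ A, ∃ b ∈ B, RA (fun u v => (u, v) ∈ E) ↑X a b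
    · obtain ⟨Q, hQ⟩ := ih A B k hsep
      exact ⟨Q, fun i => (hQ.ch i).imp (fun u v => hmono u v), hQ.nd, hQ.hd, hQ.lt, hQ.tl, hQ.dl,
        hQ.dj⟩
    · push Not at hsep
      obtain ⟨S, hSk, hS⟩ := hsep
      -- paths from A to S ∪ {x}
      have h1 : ∀ X : Finset V, X.card < k → ∃ a ∈ A, ∃ s ∈ insert x (S : Set V),
          RA (fun u v => (u, v) ∈ E) ↑X a s := by
        intro X hX
        obtain ⟨a, ha, b, hb, haX, hab⟩ := h X hX
        have key : (∃ s ∈ insert x (S : Set V), RA (fun u v => (u, v) ∈ E) ↑X a s) ∨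
            (RA (fun u v => (u, v) ∈ E) ↑X a b ∧
              RA (fun u v => (u, v) ∈ E) (insert x (S : Set V)) a b) := by
          clear hb
          induction hab with
          | refl =>
            by_cases hs : a ∈ insert x (S : Set V)
            · exact Or.inl ⟨a, hs, RA.refl haX⟩
            · exact Or.inr ⟨RA.refl haX, RA.refl hs⟩
          | tail _ hvw ih =>
            rename_i v w _
            rcases ih with h' | ⟨h2, h3⟩
            · exact Or.inl h'
            · have hv := h3.right
              have hvw' : (v, w) ∈ E := by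
                rcases Finset.mem_insert.1 hvw.1 with h4 | h4
                · exfalso
                  apply hv
                  rw [(Prod.mk.inj h4).1]
                  exact Set.mem_insert _ _
                · exact h4
              have h5 : RA (fun u v => (u, v) ∈ E) ↑X a w := ⟨h2.1, h2.2.tail ⟨hvw', hvw.2⟩⟩
              by_cases hs : w ∈ insert x (S : Set V)
              · exact Or.inl ⟨w, hs, h5⟩
              · exact Or.inr ⟨h5, h3.1, h3.2.tail ⟨hvw', hs⟩⟩
        rcases key with ⟨s, hs, h'⟩ | ⟨_, h'⟩
        · exact ⟨a, ha, s, hs, h'⟩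
        · exact absurd (h'.mono (fun _ _ h => h) (Set.subset_insert _ _)) (hS a ha b hb)
      -- paths from S ∪ {y} to B
      have h2 : ∀ X : Finset V, X.card < k → ∃ s ∈ insert y (S : Set V), ∃ b ∈ B,
          RA (fun u v => (u, v) ∈ E) ↑X s b := by
        intro X hX
        obtain ⟨a, ha, b, hb, haX, hab⟩ := h X hX
        have hbX : b ∉ (X : Set V) :=
          RA.right (r := fun u v => (u, v) ∈ insert (x, y) E) (a := a) ⟨haX, hab⟩
        have key : a ∉ (X : Set V) → (∃ s ∈ insert y (S : Set V), RA (fun u v => (u, v) ∈ E) ↑X s b) ∨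
            (RA (fun u v => (u, v) ∈ E) ↑X a b ∧
              RA (fun u v => (u, v) ∈ E) (insert y (S : Set V)) a b) := by
          clear ha haX
          induction hab using Relation.ReflTransGen.head_induction_on with
          | refl =>
            intro _
            by_cases hs : b ∈ insert y (S : Set V)
            · exact Or.inl ⟨b, hs, RA.refl hbX⟩
            · exact Or.inr ⟨RA.refl hbX, RA.refl hs⟩
          | @head v w hvw _ ih =>
            intro hvX
            rcases ih hvw.2 with h' | ⟨h2, h3⟩
            · exact Or.inl h'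
            · have hw := h3.1
              have hvw' : (v, w) ∈ E := by
                rcases Finset.mem_insert.1 hvw.1 with h4 | h4
                · exfalso
                  apply hw
                  rw [(Prod.mk.inj h4).2]
                  exact Set.mem_insert _ _
                · exact h4
              have h5 : RA (fun u v => (u, v) ∈ E) ↑X v b :=
                ⟨hvX, Relation.ReflTransGen.head ⟨hvw', h2.1⟩ h2.2⟩
              by_cases hs : v ∈ insert y (S : Set V)
              · exact Or.inl ⟨v, hs, h5⟩
              · exact Or.inr ⟨h5, hs, Relation.ReflTransGen.head ⟨hvw', h3.1⟩ h3.2⟩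
        rcases key haX with ⟨s, hs, h'⟩ | ⟨_, h'⟩
        · exact ⟨s, hs, b, hb, h'⟩
        · exact absurd (h'.mono (fun _ _ h => h) (Set.subset_insert _ _)) (hS a ha b hb)
      obtain ⟨P, hP⟩ := ih A (insert x (S : Set V)) k h1
      obtain ⟨Q, hQ⟩ := ih (insert y (S : Set V)) B k h2
      exact glue (r := fun u v => (u, v) ∈ insert (x, y) E) (r' := fun u v => (u, v) ∈ E)
        hmono (Finset.mem_insert_self _ _) hSk hS hP hQ

end Menger

/-- **Menger's theorem**, vertex set version, for paths inside `F`. -/
theorem menger {V : Type*} [Finite V] (G : SimpleGraph V) (F A B : Set V) (k : ℕ)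
    (h : ∀ X : Finset V, X.card < k → ∃ a ∈ A, ∃ b ∈ B, Conn G (F \ ↑X) a b) :
    ∃ Q : Fin k → List V, Linkage G F A B k Q := by
  have := Fintype.ofFinite V
  let E : Finset (V × V) := Finset.univ.filter (fun p => G.Adj p.1 p.2 ∧ p.1 ∈ F ∧ p.2 ∈ F)
  have hE : ∀ u v, (u, v) ∈ E ↔ G.Adj u v ∧ u ∈ F ∧ v ∈ F := by
    intro u v; simp [E]
  obtain ⟨Q, hQ⟩ := Menger.menger_aux E (A ∩ F) (B ∩ F) k (by
    intro X hX
    obtain ⟨a, ha, b, hb, haF, hab⟩ := h X hX
    have key : b ∈ F ∧ Menger.RA (fun u v => (u, v) ∈ E) (↑X) a b := by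
      clear hb
      induction hab with
      | refl => exact ⟨haF.1, Menger.RA.refl haF.2⟩
      | tail _ hvw ih =>
        rename_i v w _
        exact ⟨hvw.2.1, ih.2.1, ih.2.2.tail ⟨(hE v w).2 ⟨hvw.1, ih.1, hvw.2.1⟩, hvw.2.2⟩⟩
    exact ⟨a, ⟨ha, haF.1⟩, b, ⟨hb, key.1⟩, key.2⟩)
  refine ⟨Q, ?_, fun i j hij x hx hy => hQ.dj i j hij x hx hy⟩
  intro i
  obtain ⟨a, ha, ha'⟩ := hQ.hd i
  obtain ⟨b, hb, hb'⟩ := hQ.lt i
  have hF : ∀ x ∈ Q i, x ∈ F := by
    have hc := hQ.ch i
    revert ha' hc
    generalize Q i = l
    clear hb'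
    intro hal hc
    induction l generalizing a with
    | nil => simp
    | cons c l ihl =>
      simp at hal
      subst hal
      intro x hx
      rcases List.mem_cons.1 hx with rfl | hx
      · exact ha.2
      · cases l with
        | nil => simp at hx
        | cons d l =>
          have h1 := (hE c d).1 (List.isChain_cons_cons.1 hc).1
          by_cases hxd : x = d
          · rw [hxd]; exact h1.2.2
          · have hxl : x ∈ l := by simpa [hxd] using hx
            have h2 := (List.isChain_cons_cons.1 hc).2
            obtain ⟨l1, l2, rfl⟩ := List.append_of_mem hxl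
            have h3 : (d :: (l1 ++ x :: l2)).IsChain (fun u v => (u, v) ∈ E) := h2
            have h4 := (List.isChain_cons_split.1 h3).1
            have h5 : ∃ u, (u, x) ∈ E := by
              rcases List.eq_nil_or_concat l1 with rfl | ⟨l3, u, rfl⟩
              · exact ⟨d, by simpa using h4⟩
              · refine ⟨u, ?_⟩
                rw [← List.cons_append, List.isChain_append] at h4
                have h6 : (d :: l3.concat u).getLast? = some u := by
                  have h7 : (d :: l3.concat u) = (d :: l3) ++ [u] := by simp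
                  rw [h7, List.getLast?_append_of_ne_nil _ (by simp)]; rfl
                exact h4.2.2 u (by rw [h6]; rfl) x (by simp)
            obtain ⟨u, hu⟩ := h5
            exact ((hE u x).1 hu).2.2
  refine ⟨⟨?_, ?_, hQ.nd i⟩, hF, ⟨a, ha.1, ha'⟩, ⟨b, hb.1, hb'⟩, ?_, ?_⟩
  · intro h0; rw [h0] at ha'; simp at ha'
  · exact (hQ.ch i).imp (fun u v huv => ((hE u v).1 huv).1)
  · intro x hx hxA
    exact hQ.tl i x hx ⟨hxA, hF x (List.mem_of_mem_tail hx)⟩
  · intro x hx hxB
    exact hQ.dl i x hx ⟨hxB, hF x (List.mem_of_mem_dropLast hx)⟩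

end Pool.Agent.Lib.MP_688fd0_co.LP
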