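import Pool.Agent.Lib.MP_688fd0_co.LP.Conn

/-!
Basic facts on `Conn`, `comp`, `Big`, `BC`, `IsPB`.
-/

set_option autoImplicit false

namespace Pool.Agent.Lib.MP_688fd0_co.LP

open Classical

variable {V : Type*} {G : SimpleGraph V}

theorem Conn.left_mem {F : Set V} {u v : V} (h : Conn G F u v) : u ∈ F := h.left

theorem Conn.right_mem {F : Set V} {u v : V} (h : Conn G F u v) : v ∈ F := h.right

theorem Conn.adj {F : Set V} {u v : V} (hu : u ∈ F) (hv : v ∈ F) (h : G.Adj u v) : Conn G F u v :=
  Conn.single hu h hv

theorem comp_subset {F : Set V} {u : V} : comp G F u ⊆ F := comp_sub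

theorem comp_empty {F : Set V} {u : V} (hu : u ∉ F) : comp G F u = ∅ := by
  ext w
  simp only [mem_comp, Set.mem_empty_iff_false, iff_false]
  exact fun h => hu h.1

/-- A walk inside `F` that starts inside `W` and ends outside leaves `W` through an edge. -/
theorem Conn.exit {F W : Set V} {u v : V} (h : Conn G F u v) (hu : u ∈ W) (hv : v ∉ W) :
    ∃ a b, Conn G F u a ∧ Conn G F u b ∧ a ∈ W ∧ b ∉ W ∧ G.Adj a b := by
  obtain ⟨huF, h⟩ := h
  induction h with
  | refl => exact absurd hu hv
  | @tail b c hab hbc ih =>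
    by_cases hb : b ∈ W
    · exact ⟨b, c, ⟨huF, hab⟩, ⟨huF, hab.tail hbc⟩, hb, hv, hbc.1⟩
    · exact ih hb

/-- The walk from `u` to `v` inside `F` stays in the component. -/
theorem Conn.in_comp {F : Set V} {u v : V} (h : Conn G F u v) : Conn G (comp G F u) u v := by
  obtain ⟨huF, h⟩ := h
  induction h with
  | refl => exact Conn.refl (self_mem_comp huF)
  | @tail b c hab hbc ih => exact Conn.tail ih hbc.1 ⟨huF, hab.tail hbc⟩

/-- If `W` contains the component (in `F`) of `u`, then `u` and `v` are connected in `W`. -/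
theorem Conn.in_superset {F W : Set V} {u v : V} (h : Conn G F u v) (hW : comp G F u ⊆ W) :
    Conn G W u v := h.in_comp.mono hW

theorem Big.pos {B0 : Finset V} {θ : ℕ} {A : Set V} (hA : Big B0 θ A) : 0 < θ := by
  unfold Big at hA
  omega

/-- Paths inside `F` connect. -/
theorem IsPB.conn {F : Set V} {l : List V} {a b : V} (hl : IsPB G l a b) (hF : ∀ x ∈ l, x ∈ F) :
    Conn G F a b := by
  induction l generalizing a with
  | nil => exact absurd rfl hl.1.1
  | cons c l ih =>
    obtain ⟨⟨hne, hch, hnd⟩, hhd, hlast⟩ := hl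
    have hca : c = a := by simpa using hhd
    subst hca
    cases l with
    | nil =>
      have : c = b := by simpa using hlast
      subst this
      exact Conn.refl (hF c (by simp))
    | cons d l =>
      have hcd : G.Adj c d := by
        have := List.isChain_cons_cons.1 hch
        exact this.1
      have h2 : IsPB G (d :: l) d b := by
        refine ⟨⟨by simp, (List.isChain_cons_cons.1 hch).2, (List.nodup_cons.1 hnd).2⟩, by simp, ?_⟩
        simpa using hlast
      have h3 := ih h2 (fun x hx => hF x (List.mem_cons_of_mem _ hx))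
      exact (Conn.adj (hF c (by simp)) (hF d (by simp)) hcd).trans h3

/-- Every vertex of a path in `F` is connected in `F` with the first vertex. -/
theorem IsPB.conn_mem {F : Set V} {l : List V} {a b : V} (hl : IsPB G l a b) (hF : ∀ x ∈ l, x ∈ F)
    {x : V} (hx : x ∈ l) : Conn G F a x := by
  obtain ⟨s, t, rfl⟩ := List.append_of_mem hx
  have hh : (s ++ x :: t) = (s ++ [x]) ++ t := by simp
  have h1 : IsPB G (s ++ [x]) a x := by
    obtain ⟨⟨hne, hch, hnd⟩, hhd, hlast⟩ := hl
    rw [hh] at hch hnd
    refine ⟨⟨by simp, hch.left_of_append, (List.nodup_append.1 hnd).1⟩, ?_, by simp⟩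
    rw [hh] at hhd
    rw [List.head?_append] at hhd
    cases s with
    | nil => simpa using hhd
    | cons y s => simpa using hhd
  refine h1.conn (fun y hy => hF y ?_)
  rw [hh]
  exact List.mem_append_left _ hy

theorem IsPB.reverse {l : List V} {a b : V} (hl : IsPB G l a b) : IsPB G l.reverse b a := by
  obtain ⟨⟨hne, hch, hnd⟩, hhd, hlast⟩ := hl
  refine ⟨⟨by simpa using hne, ?_, by simpa using hnd⟩, ?_, ?_⟩
  · rw [List.isChain_reverse]
    refine hch.imp ?_
    intro x y hxy
    exact hxy.symm
  · rw [List.head?_reverse, hlast]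
  · rw [List.getLast?_reverse, hhd]

/-- A walk inside `F` contains a simple path inside `F`. -/
theorem Conn.exists_path {F : Set V} {u v : V} (h : Conn G F u v) :
    ∃ l, IsPB G l u v ∧ ∀ x ∈ l, x ∈ F := by
  obtain ⟨huF, h⟩ := h
  induction h with
  | refl =>
    refine ⟨[u], ⟨⟨by simp, by simp, by simp⟩, by simp, by simp⟩, ?_⟩
    intro x hx
    simp only [List.mem_singleton] at hx
    subst hx
    exact huF
  | @tail b c hab hbc ih =>
    obtain ⟨l, hl, hlF⟩ := ih
    by_cases hc : c ∈ l
    · obtain ⟨s, t, rfl⟩ := List.append_of_mem hc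
      have hh : (s ++ c :: t) = (s ++ [c]) ++ t := by simp
      obtain ⟨⟨hne, hch, hnd⟩, hhd, hlast⟩ := hl
      refine ⟨s ++ [c], ⟨⟨by simp, ?_, ?_⟩, ?_, by simp⟩, ?_⟩
      · rw [hh] at hch
        exact hch.left_of_append
      · rw [hh] at hnd
        exact (List.nodup_append.1 hnd).1
      · rw [hh, List.head?_append] at hhd
        cases s with
        | nil => simpa using hhd
        | cons y s => simpa using hhd
      · intro y hy
        refine hlF y ?_
        rw [hh]
        exact List.mem_append_left _ hy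
    · obtain ⟨⟨hne, hch, hnd⟩, hhd, hlast⟩ := hl
      refine ⟨l ++ [c], ⟨⟨by simp, ?_, ?_⟩, ?_, by simp⟩, ?_⟩
      · refine List.isChain_append.2 ⟨hch, by simp, ?_⟩
        intro x hx y hy
        rw [hlast] at hx
        simp only [Option.mem_def, Option.some.injEq, List.head?_cons] at hx hy
        subst hx hy
        exact hbc.1
      · rw [List.nodup_append]
        refine ⟨hnd, by simp, ?_⟩
        intro x hx y hy hxy
        simp only [List.mem_singleton] at hy
        subst hy hxy
        exact hc hx
      · rw [List.head?_append, hhd]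
        rfl
      · intro y hy
        rcases List.mem_append.1 hy with hy | hy
        · exact hlF y hy
        · simp only [List.mem_singleton] at hy
          subst hy
          exact hbc.2

/-- Initial part of a path. -/
theorem IsPB.initial {s t : List V} {x a b : V} (hl : IsPB G (s ++ x :: t) a b) :
    IsPB G (s ++ [x]) a x := by
  have hh : (s ++ x :: t) = (s ++ [x]) ++ t := by simp
  obtain ⟨⟨hne, hch, hnd⟩, hhd, hlast⟩ := hl
  rw [hh] at hch hnd
  refine ⟨⟨by simp, hch.left_of_append, (List.nodup_append.1 hnd).1⟩, ?_, by simp⟩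
  cases s with
  | nil => simpa using hhd
  | cons y s => simpa using hhd

/-- Final part of a path. -/
theorem IsPB.final {s t : List V} {x a b : V} (hl : IsPB G (s ++ x :: t) a b) :
    IsPB G (x :: t) x b := by
  obtain ⟨⟨hne, hch, hnd⟩, hhd, hlast⟩ := hl
  refine ⟨⟨by simp, hch.right_of_append, (List.nodup_append.1 hnd).2.1⟩, by simp, ?_⟩
  rw [List.getLast?_append] at hlast
  simpa using hlast

theorem IsPB.head_mem {l : List V} {a b : V} (hl : IsPB G l a b) : a ∈ l :=
  List.mem_of_mem_head? hl.2.1

theorem IsPB.last_mem {l : List V} {a b : V} (hl : IsPB G l a b) : b ∈ l :=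
  List.mem_of_mem_getLast? hl.2.2

end Pool.Agent.Lib.MP_688fd0_co.LP
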