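import Pool.Agent.Lib.MP_688fd0_co.LP.Defs

/-! Basic facts on `Conn`, `comp`, `Big`. -/

set_option autoImplicit false

namespace Pool.Agent.Lib.MP_688fd0_co.LP

open Classical

variable {V : Type*} {G : SimpleGraph V} {F F' : Set V} {u v w : V}

lemma Conn.left (h : Conn G F u v) : u ∈ F := h.1

lemma Conn.right (h : Conn G F u v) : v ∈ F := by
  obtain ⟨hu, h⟩ := h
  induction h with
  | refl => exact hu
  | tail _ h2 _ => exact h2.2

lemma Conn.refl (hu : u ∈ F) : Conn G F u u := ⟨hu, Relation.ReflTransGen.refl⟩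

lemma Conn.trans (h1 : Conn G F u v) (h2 : Conn G F v w) : Conn G F u w :=
  ⟨h1.1, h1.2.trans h2.2⟩

lemma Conn.tail (h1 : Conn G F u v) (h2 : G.Adj v w) (hw : w ∈ F) : Conn G F u w :=
  ⟨h1.1, h1.2.tail ⟨h2, hw⟩⟩

lemma Conn.single (hu : u ∈ F) (h : G.Adj u v) (hv : v ∈ F) : Conn G F u v :=
  (Conn.refl hu).tail h hv

lemma Conn.symm (h : Conn G F u v) : Conn G F v u := by
  obtain ⟨hu, h⟩ := h
  induction h with
  | refl => exact Conn.refl hu
  | tail h1 h2 ih =>
    rename_i b c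
    have hb : b ∈ F := Conn.right (G := G) ⟨hu, h1⟩
    exact (Conn.single h2.2 h2.1.symm hb).trans ih

lemma Conn.mono (hF : F ⊆ F') (h : Conn G F u v) : Conn G F' u v := by
  obtain ⟨hu, h⟩ := h
  refine ⟨hF hu, ?_⟩
  induction h with
  | refl => exact Relation.ReflTransGen.refl
  | tail _ h2 ih => exact ih.tail ⟨h2.1, hF h2.2⟩

lemma mem_comp : v ∈ comp G F u ↔ Conn G F u v := Iff.rfl

lemma comp_sub : comp G F u ⊆ F := fun _ h => Conn.right h

lemma self_mem_comp (hu : u ∈ F) : u ∈ comp G F u := Conn.refl hu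

lemma comp_closed (hv : v ∈ comp G F u) (hw : w ∈ F) (h : G.Adj v w) : w ∈ comp G F u :=
  Conn.tail hv h hw

lemma comp_eq (h : Conn G F u v) : comp G F u = comp G F v := by
  ext x
  exact ⟨fun hx => h.symm.trans hx, fun hx => h.trans hx⟩

lemma comp_mono (hF : F ⊆ F') : comp G F u ⊆ comp G F' u := fun _ h => Conn.mono hF h

/-- a set closed under `F`-neighbours contains the components of its members -/
lemma comp_sub_of_closed {W : Set V} (hW : ∀ u ∈ W, ∀ v ∈ F, G.Adj u v → v ∈ W) (hu : u ∈ W) :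
    comp G F u ⊆ W := by
  rintro x ⟨_, h⟩
  induction h with
  | refl => exact hu
  | tail _ h2 ih => exact hW _ ih _ h2.2 h2.1

/-- a connected subset of `F'` (a component of a smaller set) lies in one component of `F'` -/
lemma comp_sub_comp (hF : F ⊆ F') (h : Conn G F' w u) : comp G F u ⊆ comp G F' w :=
  fun _ hx => h.trans (Conn.mono hF hx)

variable {B0 : Finset V} {θ : ℕ} {A A' : Set V}

lemma Big.mono (hA : A ⊆ A') (h : Big B0 θ A) : Big B0 θ A' := by
  unfold Big at *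
  refine lt_of_le_of_lt (Nat.mul_le_mul_left _ (Finset.card_le_card ?_)) h
  intro x hx
  simp only [Finset.mem_filter] at hx ⊢
  exact ⟨hx.1, fun h' => hx.2 (hA h')⟩

/-- two big sets meet -/
lemma Big.inter (hθ : θ ≤ B0.card) (h : Big B0 θ A) (h' : Big B0 θ A') : ∃ x ∈ B0, x ∈ A ∧ x ∈ A' := by
  by_contra hcon
  push Not at hcon
  unfold Big at h h'
  have : B0 ⊆ B0.filter (fun v => v ∉ A) ∪ B0.filter (fun v => v ∉ A') := by
    intro x hx
    simp only [Finset.mem_union, Finset.mem_filter]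
    by_cases hxA : x ∈ A
    · right; exact ⟨hx, hcon x hx hxA⟩
    · left; exact ⟨hx, hxA⟩
  have h1 := (Finset.card_le_card this).trans (Finset.card_union_le _ _)
  omega

lemma Big.nonempty (hθ : θ ≤ B0.card) (h : Big B0 θ A) : A.Nonempty := by
  obtain ⟨x, _, hx, _⟩ := Big.inter hθ h h
  exact ⟨x, hx⟩

lemma BC.mem (hθ : θ ≤ B0.card) (h : BC G B0 θ F u) : u ∈ F := by
  obtain ⟨x, hx⟩ := Big.nonempty hθ h
  exact Conn.left hx

lemma BC.conn (hθ : θ ≤ B0.card) (h : BC G B0 θ F u) (h' : BC G B0 θ F v) : Conn G F u v := by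
  obtain ⟨x, _, hx, hx'⟩ := Big.inter hθ h h'
  exact Conn.trans hx (Conn.symm hx')

lemma BC.of_conn (h : BC G B0 θ F u) (h' : Conn G F u v) : BC G B0 θ F v := by
  unfold BC at *
  rw [← comp_eq h']; exact h

lemma BC.mono (hF : F ⊆ F') (h : BC G B0 θ F u) : BC G B0 θ F' u :=
  Big.mono (comp_mono hF) h

end Pool.Agent.Lib.MP_688fd0_co.LP
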