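import Pool.Agent.Lib.MP_688fd0_co.LP.ConnBasic
import Pool.Agent.Lib.MP_688fd0_co.LP.Menger

/-!
Module M2: the block to which the big components point.
-/

set_option autoImplicit false

namespace Pool.Agent.Lib.MP_688fd0_co.LP

open Classical

variable {V : Type*}

namespace Tangle

/-- The component of `a` in `F \ {v}` is connected in `F \ {v'}` when it does not contain `v'`. -/
theorem conn_avoid {G : SimpleGraph V} {F : Set V} {v v' a d : V} (h : Conn G (F \ {v}) a d)
    (hv' : v' ∉ comp G (F \ {v}) a) : Conn G (F \ {v'}) a d := by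
  refine h.in_superset ?_
  intro x hx
  refine ⟨(comp_subset hx).1, ?_⟩
  intro hxv
  rw [Set.mem_singleton_iff] at hxv
  subst hxv
  exact hv' hx

end Tangle

open Tangle

theorem block_hit {V : Type*} [Finite V] (G : SimpleGraph V) (B0 : Finset V) (θ : ℕ)
    (hθ : θ ≤ B0.card) (F X : Set V) (h1 : ∀ v, ∃ u, BC G B0 θ (F \ {v}) u)
    (h2 : ∃ u, BC G B0 θ (F \ X) u) : ∃ w ∈ Block G B0 θ F, BC G B0 θ (F \ X) w := by
  by_contra hcon
  push Not at hcon
  have hnb : ∀ w, BC G B0 θ (F \ X) w → ∃ v, v ≠ w ∧ ¬ BC G B0 θ (F \ {v}) w := by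
    intro w hw
    by_contra hc
    push Not at hc
    exact hcon w hc hw
  let S : Set (V × V) := {p | BC G B0 θ (F \ X) p.1 ∧ p.2 ≠ p.1 ∧ ¬ BC G B0 θ (F \ {p.2}) p.1}
  have hS : S.Nonempty := by
    obtain ⟨u, hu⟩ := h2
    obtain ⟨v, hv, hv'⟩ := hnb u hu
    exact ⟨(u, v), hu, hv, hv'⟩
  obtain ⟨⟨w, v⟩, ⟨hwX, hvw, hwv⟩, hmax⟩ := Set.exists_max_image S
    (fun p => (comp G (F \ {p.2}) p.1).ncard) (Set.toFinite S) hS
  simp only at hwX hvw hwv hmax
  have hwF : w ∈ F := (hwX.mem hθ).1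
  have hwD : w ∈ comp G (F \ {v}) w := self_mem_comp ⟨hwF, fun h => hvw h.symm⟩
  obtain ⟨m, hmM, hmD⟩ : ∃ m ∈ comp G (F \ X) w, m ∉ comp G (F \ {v}) w := by
    by_contra hc
    push Not at hc
    exact hwv (Big.mono hc hwX)
  obtain ⟨a, b, haX, hbX, haD, hbD, hab⟩ := Conn.exit hmM hwD hmD
  have hbv : b = v := by
    by_contra hne
    exact hbD (comp_closed haD ⟨hbX.right_mem.1, hne⟩ hab)
  subst hbv
  have hvX : BC G B0 θ (F \ X) b := hwX.of_conn hbX
  have hvF : b ∈ F := hbX.right_mem.1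
  obtain ⟨v', hv', hv'n⟩ := hnb b hvX
  have hvF' : b ∈ F \ {v'} := ⟨hvF, fun h => hv' h.symm⟩
  have haw : comp G (F \ {b}) a = comp G (F \ {b}) w := (comp_eq haD).symm
  by_cases hv'D : v' ∈ comp G (F \ {b}) w
  · obtain ⟨u, hu⟩ := h1 b
    have hdis : ∀ x, x ∈ comp G (F \ {b}) u → x ∉ comp G (F \ {b}) w := by
      intro x hx hx'
      exact hwv (hu.of_conn (Conn.trans hx (Conn.symm hx')))
    obtain ⟨z, -, hz, hz'⟩ := Big.inter hθ hvX hu
    have hbu : b ∉ comp G (F \ {b}) u := fun h => (comp_subset h).2 rfl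
    obtain ⟨a', b', ha'X, hb'X, ha'D, hb'D, hab'⟩ := Conn.exit (Conn.symm hz) hz' hbu
    have hbv' : b' = b := by
      by_contra hne
      exact hb'D (comp_closed ha'D ⟨hb'X.right_mem.1, hne⟩ hab')
    subst hbv'
    have ha'u : comp G (F \ {b'}) a' = comp G (F \ {b'}) u := (comp_eq ha'D).symm
    have hv'u : v' ∉ comp G (F \ {b'}) u := fun h => hdis v' h hv'D
    refine hv'n (Big.mono ?_ hu)
    intro x hx
    have hx2 : Conn G (F \ {b'}) a' x := Conn.trans (Conn.symm ha'D) hx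
    have hx3 : Conn G (F \ {v'}) a' x := conn_avoid hx2 (by rw [ha'u]; exact hv'u)
    exact (Conn.adj hvF' hx3.left_mem hab'.symm).trans hx3
  · have hsub : comp G (F \ {b}) w ⊆ comp G (F \ {v'}) b := by
      intro x hx
      have hx2 : Conn G (F \ {b}) a x := Conn.trans (Conn.symm haD) hx
      have hx3 : Conn G (F \ {v'}) a x := conn_avoid hx2 (by rw [haw]; exact hv'D)
      exact (Conn.adj hvF' hx3.left_mem hab.symm).trans hx3
    have hss : comp G (F \ {b}) w ⊂ comp G (F \ {v'}) b :=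
      ⟨hsub, fun h => hbD (h (self_mem_comp hvF'))⟩
    have hlt := Set.ncard_lt_ncard hss (Set.toFinite _)
    have hle := hmax (b, v') ⟨hvX, hv', hv'n⟩
    simp only at hle
    omega

theorem exists_big {V : Type*} [Finite V] (G : SimpleGraph V) (B0 : Finset V) (θ : ℕ)
    (hθ : θ ≤ B0.card) (F : Set V)
    (hcl : ∀ W : Set V, W ⊆ F → (∀ u ∈ W, ∀ v ∈ F, G.Adj u v → v ∈ W) →
      4 * (B0.filter (fun v => v ∈ W)).card < θ ∨ Big B0 θ W)
    (hF : Big B0 θ F) : ∃ u, BC G B0 θ F u := by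
  by_contra hcon
  push Not at hcon
  have hpos := hF.pos
  let S : Set (Set V) := {W | W ⊆ F ∧ (∀ u ∈ W, ∀ v ∈ F, G.Adj u v → v ∈ W) ∧
    4 * (B0.filter (fun v => v ∈ W)).card < θ}
  have hS : S.Nonempty := ⟨∅, by simp, by simp, by simpa using hpos⟩
  obtain ⟨W, ⟨hWF, hWcl, hWs⟩, hmax⟩ := Set.exists_max_image S
    (fun W => W.ncard) (Set.toFinite S) hS
  by_cases hFW : F ⊆ W
  · have hWb : Big B0 θ W := Big.mono hFW hF
    unfold Big at hWb
    have h3 := Finset.card_filter_add_card_filter_not (s := B0) (fun v => v ∈ W)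
    omega
  · obtain ⟨u, huF, huW⟩ := Set.not_subset.1 hFW
    have hcomp : ∀ a ∈ comp G F u, ∀ b ∈ F, G.Adj a b → b ∈ comp G F u :=
      fun a ha b hb hab => comp_closed ha hb hab
    have hsm : 4 * (B0.filter (fun v => v ∈ comp G F u)).card < θ := by
      rcases hcl (comp G F u) comp_subset hcomp with h | h
      · exact h
      · exact absurd h (hcon u)
    have hWc : W ∪ comp G F u ⊆ F := Set.union_subset hWF comp_subset
    have hcl2 : ∀ a ∈ W ∪ comp G F u, ∀ b ∈ F, G.Adj a b → b ∈ W ∪ comp G F u := by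
      rintro a (ha | ha) b hb hab
      · exact Or.inl (hWcl a ha b hb hab)
      · exact Or.inr (hcomp a ha b hb hab)
    rcases hcl _ hWc hcl2 with h | h
    · have hle := hmax (W ∪ comp G F u) ⟨hWc, hcl2, h⟩
      have hss : W ⊂ W ∪ comp G F u :=
        ⟨Set.subset_union_left, fun h => huW (h (Or.inr (self_mem_comp huF)))⟩
      have hlt := Set.ncard_lt_ncard hss (Set.toFinite _)
      omega
    · unfold Big at h
      have h3 := Finset.card_filter_add_card_filter_not (s := B0) (fun v => v ∈ W ∪ comp G F u)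
      have h5 : (B0.filter (fun v => v ∉ W ∪ comp G F u)).card =
          (B0.filter (fun v => ¬ v ∈ W ∪ comp G F u)).card := by congr
      have h6 : 4 * (B0.filter (fun v => ¬ v ∈ W ∪ comp G F u)).card < θ := by
        convert h
      have h4 : (B0.filter (fun v => v ∈ W ∪ comp G F u)).card ≤
          (B0.filter (fun v => v ∈ W)).card + (B0.filter (fun v => v ∈ comp G F u)).card := by
        refine le_trans (Finset.card_le_card ?_) (Finset.card_union_le _ _)
        intro x hx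
        simp only [Finset.mem_filter, Finset.mem_union, Set.mem_union] at hx ⊢
        tauto
      omega

theorem block_path {V : Type*} (G : SimpleGraph V) (B0 : Finset V) (θ : ℕ) (_hθ : θ ≤ B0.card)
    (F : Set V) {l : List V} {a b : V} (hl : IsPB G l a b) (hF : ∀ x ∈ l, x ∈ F) (_hab : a ≠ b)
    (ha : a ∈ Block G B0 θ F) (hb : b ∈ Block G B0 θ F) :
    ∀ x ∈ l, x ∈ Block G B0 θ F := by
  intro x hx v hvx
  obtain ⟨s, t, rfl⟩ := List.append_of_mem hx
  have hnd : (s ++ x :: t).Nodup := hl.1.2.2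
  have hh : (s ++ x :: t) = (s ++ [x]) ++ t := by simp
  by_cases hvs : v ∈ s
  · -- `v` lies before `x`: use the last vertex
    have hfin := hl.final
    have hvt : v ∉ x :: t := by
      intro hv
      exact (List.nodup_append.1 hnd).2.2 v hvs v hv rfl
    have hbv : v ≠ b := fun h => hvt (h ▸ hfin.last_mem)
    have hc : Conn G (F \ {v}) x b := by
      refine hfin.conn ?_
      intro y hy
      refine ⟨hF y (List.mem_append_right _ hy), ?_⟩
      intro hyv
      rw [Set.mem_singleton_iff] at hyv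
      exact hvt (hyv ▸ hy)
    exact (hb v hbv).of_conn hc.symm
  · -- otherwise use the first vertex
    have hini := hl.initial
    have hvt : v ∉ s ++ [x] := by
      simp only [List.mem_append, List.mem_singleton, not_or]
      exact ⟨hvs, hvx⟩
    have hav : v ≠ a := fun h => hvt (h ▸ hini.head_mem)
    have hc : Conn G (F \ {v}) a x := by
      refine hini.conn ?_
      intro y hy
      refine ⟨hF y (by rw [hh]; exact List.mem_append_left _ hy), ?_⟩
      intro hyv
      rw [Set.mem_singleton_iff] at hyv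
      exact hvt (hyv ▸ hy)
    exact (ha v hav).of_conn hc

namespace Tangle

theorem mem_of_mem_block {V : Type*} {G : SimpleGraph V} {B0 : Finset V} {θ : ℕ}
    (hθ : θ ≤ B0.card) {F : Set V} {w v : V} (hv : v ≠ w) (hw : w ∈ Block G B0 θ F) : w ∈ F :=
  ((hw v hv).mem hθ).1

/-- Two block vertices are connected in `F \ {x}` when both differ from `x`. -/
theorem block_conn {V : Type*} {G : SimpleGraph V} {B0 : Finset V} {θ : ℕ}
    (hθ : θ ≤ B0.card) {F : Set V} {a b x : V} (ha : a ∈ Block G B0 θ F)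
    (hb : b ∈ Block G B0 θ F) (hxa : x ≠ a) (hxb : x ≠ b) : Conn G (F \ {x}) a b :=
  (ha x hxa).conn hθ (hb x hxb)

/-- From a connection to `u` (avoiding `x`) we get a connection to a neighbour of `u` that avoids `u`
and `x`. -/
theorem conn_to_neighbor {V : Type*} {G : SimpleGraph V} {F : Set V} {a u : V} (hau : a ≠ u)
    (h : Conn G F a u) : ∃ b, G.Adj u b ∧ Conn G (F \ {u}) a b := by
  obtain ⟨l, hl, hlF⟩ := h.exists_path
  have hne : l ≠ [] := hl.1.1
  have hlast : l.getLast hne = u := by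
    have := hl.2.2
    rw [List.getLast?_eq_some_getLast hne] at this
    exact Option.some.inj this
  have hdl : l = l.dropLast ++ [u] := by
    rw [← hlast]
    exact (List.dropLast_append_getLast hne).symm
  have hdne : l.dropLast ≠ [] := by
    intro h0
    rw [h0] at hdl
    have := hl.2.1
    rw [hdl] at this
    simp only [List.nil_append, List.head?_cons, Option.some.injEq] at this
    exact hau this.symm
  obtain ⟨b, hb⟩ : ∃ b, l.dropLast.getLast? = some b := ⟨_, List.getLast?_eq_some_getLast hdne⟩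
  have hch : (l.dropLast ++ [u]).IsChain G.Adj := hdl ▸ hl.1.2.1
  have hnd : (l.dropLast ++ [u]).Nodup := hdl ▸ hl.1.2.2
  have hbu : G.Adj b u := by
    refine (List.isChain_append.1 hch).2.2 b ?_ u (by simp)
    rw [hb]
    rfl
  refine ⟨b, hbu.symm, ?_⟩
  have hpb : IsPB G l.dropLast a b := by
    refine ⟨⟨hdne, (List.isChain_append.1 hch).1, (List.nodup_append.1 hnd).1⟩, ?_, hb⟩
    have := hl.2.1
    rw [hdl, List.head?_append] at this
    cases hd : l.dropLast with
    | nil => exact absurd hd hdne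
    | cons y s => rw [hd] at this; simpa using this
  refine hpb.conn ?_
  intro y hy
  refine ⟨hlF y (List.mem_of_mem_dropLast hy), ?_⟩
  intro hyu
  rw [Set.mem_singleton_iff] at hyu
  exact (List.nodup_append.1 hnd).2.2 y hy u (by simp) hyu

/-- Combining two disjoint paths to neighbours of `u` to a path through `u`. -/
theorem through_vertex {V : Type*} {G : SimpleGraph V} {l1 l2 : List V} {w1 w2 b1 b2 u : V}
    (h1 : IsPB G l1 w1 b1) (h2 : IsPB G l2 w2 b2) (hb1 : G.Adj u b1) (hb2 : G.Adj u b2)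
    (hu1 : u ∉ l1) (hu2 : u ∉ l2) (hd : List.Disjoint l1 l2) :
    IsPB G (l1 ++ u :: l2.reverse) w1 w2 := by
  have h2r := h2.reverse
  obtain ⟨⟨hne1, hch1, hnd1⟩, hhd1, hla1⟩ := h1
  obtain ⟨⟨hne2, hch2, hnd2⟩, hhd2, hla2⟩ := h2r
  refine ⟨⟨by simp, ?_, ?_⟩, ?_, ?_⟩
  · refine List.isChain_append.2 ⟨hch1, ?_, ?_⟩
    · refine List.isChain_cons.2 ⟨?_, hch2⟩
      intro y hy
      rw [hhd2] at hy
      simp only [Option.mem_def, Option.some.injEq] at hy
      subst hy
      exact hb2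
    · intro x hx y hy
      rw [hla1] at hx
      simp only [Option.mem_def, Option.some.injEq, List.head?_cons] at hx hy
      subst hx hy
      exact hb1.symm
  · rw [List.nodup_append]
    refine ⟨hnd1, ?_, ?_⟩
    · rw [List.nodup_cons]
      exact ⟨by simpa using hu2, hnd2⟩
    · intro x hx y hy hxy
      subst hxy
      rcases List.mem_cons.1 hy with rfl | hy
      · exact hu1 hx
      · exact hd hx (by simpa using hy)
  · rw [List.head?_append, hhd1]
    rfl
  · rw [List.getLast?_append]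
    have : (u :: l2.reverse).getLast? = some w2 := by
      rw [List.getLast?_cons, hla2]
      rfl
    rw [this]
    rfl

end Tangle

theorem block_fan {V : Type*} [Finite V] (G : SimpleGraph V) (B0 : Finset V) (θ : ℕ)
    (hθ : θ ≤ B0.card) (F : Set V) {w1 w2 u : V} (h1 : w1 ∈ Block G B0 θ F)
    (h2 : w2 ∈ Block G B0 θ F) (h3 : u ∈ Block G B0 θ F) (h12 : w1 ≠ w2) (h13 : w1 ≠ u)
    (h23 : w2 ≠ u) :
    ∃ l, IsPB G l w1 w2 ∧ (∀ x ∈ l, x ∈ Block G B0 θ F) ∧ u ∈ l := by
  have hw1F : w1 ∈ F := mem_of_mem_block hθ h12.symm h1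
  have hw2F : w2 ∈ F := mem_of_mem_block hθ h12 h2
  have huF : u ∈ F := mem_of_mem_block hθ h13 h3
  have key : ∀ X : Finset V, X.card < 2 → ∃ a ∈ ({w1, w2} : Set V), ∃ b ∈ {b | G.Adj u b},
      Conn G ((F \ {u}) \ ↑X) a b := by
    intro X hX
    have step : ∀ a x : V, a ∈ Block G B0 θ F → a ≠ u → x ≠ a → x ≠ u → (∀ y ∈ X, y = x ∨ y = u) →
        ∃ b ∈ {b | G.Adj u b}, Conn G ((F \ {u}) \ ↑X) a b := by
      intro a x ha hau hxa hxu hXx
      obtain ⟨b, hb, hb'⟩ := conn_to_neighbor hau (block_conn hθ ha h3 hxa hxu)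
      refine ⟨b, hb, hb'.mono ?_⟩
      rintro y ⟨⟨hyF, hyx⟩, hyu⟩
      refine ⟨⟨hyF, hyu⟩, ?_⟩
      intro hyX
      rcases hXx y hyX with rfl | rfl
      · exact hyx rfl
      · exact hyu rfl
    obtain ⟨x, hx⟩ : ∃ x, ∀ y ∈ X, y = x := by
      rcases Nat.lt_or_ge X.card 1 with h0 | h0
      · have : X = ∅ := Finset.card_eq_zero.1 (by omega)
        exact ⟨u, by simp [this]⟩
      · obtain ⟨x, hx⟩ := Finset.card_eq_one.1 (show X.card = 1 by omega)
        exact ⟨x, by simp [hx]⟩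
    by_cases hxu : x = u
    · -- no restriction: avoid `w2`
      obtain ⟨b, hb, hb'⟩ := step w1 w2 h1 h13 h12.symm h23
        (fun y hy => Or.inr ((hx y hy).trans hxu))
      exact ⟨w1, by simp, b, hb, hb'⟩
    · by_cases hx1 : x = w1
      · subst hx1
        obtain ⟨b, hb, hb'⟩ := step w2 x h2 h23 h12 h13 (fun y hy => Or.inl (hx y hy))
        exact ⟨w2, by simp, b, hb, hb'⟩
      · obtain ⟨b, hb, hb'⟩ := step w1 x h1 h13 hx1 hxu (fun y hy => Or.inl (hx y hy))
        exact ⟨w1, by simp, b, hb, hb'⟩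
  obtain ⟨Q, hQ, hdis⟩ := menger G (F \ {u}) {w1, w2} {b | G.Adj u b} 2 key
  -- the two heads are `w1` and `w2`
  have hd01 := hdis 0 1 (by simp)
  obtain ⟨hP0, hF0, ⟨a0, ha0, hh0⟩, ⟨b0, hb0, hl0⟩, -, -⟩ := hQ 0
  obtain ⟨hP1, hF1, ⟨a1, ha1, hh1⟩, ⟨b1, hb1, hl1⟩, -, -⟩ := hQ 1
  have hne : a0 ≠ a1 := by
    intro h
    subst h
    exact hd01 (List.mem_of_mem_head? hh0) (List.mem_of_mem_head? hh1)
  have hu0 : u ∉ Q 0 := fun h => (hF0 u h).2 rfl
  have hu1 : u ∉ Q 1 := fun h => (hF1 u h).2 rfl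
  have hfin : ∀ l : List V, IsPB G l w1 w2 → (∀ x ∈ l, x ∈ F) → u ∈ l →
      ∃ l, IsPB G l w1 w2 ∧ (∀ x ∈ l, x ∈ Block G B0 θ F) ∧ u ∈ l := by
    intro l hl hlF hul
    exact ⟨l, hl, block_path G B0 θ hθ F hl hlF h12 h1 h2, hul⟩
  have hmemF : ∀ (l1 l2 : List V), (∀ x ∈ l1, x ∈ F \ {u}) → (∀ x ∈ l2, x ∈ F \ {u}) →
      ∀ x ∈ l1 ++ u :: l2.reverse, x ∈ F := by
    intro l1 l2 hl1 hl2 x hx
    simp only [List.mem_append, List.mem_cons, List.mem_reverse] at hx
    rcases hx with hx | rfl | hx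
    · exact (hl1 x hx).1
    · exact huF
    · exact (hl2 x hx).1
  simp only [Set.mem_insert_iff, Set.mem_singleton_iff] at ha0 ha1
  rcases ha0 with rfl | rfl
  · rcases ha1 with rfl | rfl
    · exact absurd rfl hne
    · refine hfin _ (through_vertex ⟨hP0, hh0, hl0⟩ ⟨hP1, hh1, hl1⟩ hb0 hb1 hu0 hu1 hd01)
        (hmemF _ _ hF0 hF1) (by simp)
  · rcases ha1 with rfl | rfl
    · refine hfin _ (through_vertex ⟨hP1, hh1, hl1⟩ ⟨hP0, hh0, hl0⟩ hb1 hb0 hu1 hu0 hd01.symm)
        (hmemF _ _ hF1 hF0) (by simp)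
    · exact absurd rfl hne

end Pool.Agent.Lib.MP_688fd0_co.LP
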