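import Pool.Agent.Lib.MP_688fd0_co.LP.Menger
import Pool.Agent.Lib.MP_688fd0_co.LP.Tangle

/-!
Long paths in Cayley graphs: module M3 (a long cycle in the block, and long paths between any two
vertices of the block). See Blueprint.md, section 6 (PROCESS).
-/

set_option autoImplicit false

namespace Pool.Agent.Lib.MP_688fd0_co.LP

open Classical

namespace Cycle

variable {V : Type*} {G : SimpleGraph V}

/-! ### Basic facts on `Conn` -/

lemma conn_right {F : Set V} {u v : V} (h : Conn G F u v) : v ∈ F := by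
  obtain ⟨h1, h2⟩ := h
  rcases Relation.ReflTransGen.cases_tail h2 with h | ⟨b, _, h⟩
  · rw [h]; exact h1
  · exact h.2

lemma conn_trans {F : Set V} {u v w : V} (h : Conn G F u v) (h' : Conn G F v w) : Conn G F u w :=
  ⟨h.1, h.2.trans h'.2⟩

lemma conn_symm {F : Set V} {u v : V} (h : Conn G F u v) : Conn G F v u := by
  obtain ⟨h1, h2⟩ := h
  induction h2 with
  | refl => exact ⟨h1, Relation.ReflTransGen.refl⟩
  | @tail b c hb hbc ih =>
    refine ⟨hbc.2, Relation.ReflTransGen.head ⟨hbc.1.symm, ih.1⟩ ih.2⟩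

lemma conn_mono {F F' : Set V} (hF : F ⊆ F') {u v : V} (h : Conn G F u v) : Conn G F' u v := by
  refine ⟨hF h.1, ?_⟩
  exact Relation.ReflTransGen.mono
    (fun a b (hab : G.Adj a b ∧ b ∈ F) => (⟨hab.1, hF hab.2⟩ : G.Adj a b ∧ b ∈ F')) _ _ h.2

/-- a set which is closed under the steps contains everything which is connected to it -/
lemma conn_closed {F : Set V} {u v : V} (h : Conn G F u v) (S : Set V) (hu : u ∈ S)
    (hS : ∀ b ∈ S, ∀ c ∈ F, G.Adj b c → c ∈ S) : v ∈ S := by
  obtain ⟨_, h2⟩ := h
  induction h2 with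
  | refl => exact hu
  | @tail b c _ hbc ih => exact hS b ih c hbc.2 hbc.1

/-- a crossing edge -/
lemma exists_crossing {F : Set V} {u v : V} (h : Conn G F u v) (S : Set V) (hu : u ∉ S)
    (hv : v ∈ S) : ∃ b c, b ∈ F ∧ c ∈ F ∧ G.Adj b c ∧ b ∉ S ∧ c ∈ S := by
  by_contra hcon
  push Not at hcon
  have : v ∈ Sᶜ ∩ F := by
    refine conn_closed h (Sᶜ ∩ F) ⟨hu, h.1⟩ ?_
    rintro b ⟨hb, hbF⟩ c hc hbc
    exact ⟨fun hcS => (hcon b c hbF hc hbc hb) hcS, hc⟩
  exact this.1 hv

/-! ### Basic facts on `Big` -/

lemma big_mono {B0 : Finset V} {θ : ℕ} {A B : Set V} (hAB : A ⊆ B) (h : Big B0 θ A) :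
    Big B0 θ B := by
  unfold Big at *
  refine lt_of_le_of_lt ?_ h
  apply Nat.mul_le_mul_left
  apply Finset.card_le_card
  intro x hx
  rw [Finset.mem_filter] at hx ⊢
  exact ⟨hx.1, fun h => hx.2 (hAB h)⟩

lemma big_inter {B0 : Finset V} {θ : ℕ} (hθ : θ ≤ B0.card) {A B : Set V} (hA : Big B0 θ A)
    (hB : Big B0 θ B) : ∃ x, x ∈ A ∧ x ∈ B := by
  by_contra hcon
  push Not at hcon
  unfold Big at *
  have h1 : B0.card ≤ (B0.filter (fun v => v ∉ A)).card + (B0.filter (fun v => v ∉ B)).card := by
    rw [← Finset.card_union_add_card_inter]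
    refine le_trans ?_ (Nat.le_add_right _ _)
    apply Finset.card_le_card
    intro x hx
    rw [Finset.mem_union, Finset.mem_filter, Finset.mem_filter]
    by_cases hxA : x ∈ A
    · exact Or.inr ⟨hx, hcon x hxA⟩
    · exact Or.inl ⟨hx, hxA⟩
  omega

/-- two vertices in big components are connected -/
lemma bc_conn {B0 : Finset V} {θ : ℕ} (hθ : θ ≤ B0.card) {F : Set V} {a b : V}
    (ha : BC G B0 θ F a) (hb : BC G B0 θ F b) : Conn G F a b := by
  obtain ⟨x, hx1, hx2⟩ := big_inter hθ ha hb
  exact conn_trans hx1 (conn_symm hx2)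

lemma bc_mem {B0 : Finset V} {θ : ℕ} (hθ : θ ≤ B0.card) {F : Set V} {a : V}
    (ha : BC G B0 θ F a) : a ∈ F := by
  obtain ⟨x, hx1, _⟩ := big_inter hθ ha ha
  exact hx1.1

lemma comp_eq {F : Set V} {a b : V} (h : Conn G F a b) : comp G F a = comp G F b := by
  ext x
  exact ⟨fun hx => conn_trans (conn_symm h) hx, fun hx => conn_trans h hx⟩

/-! ### Paths as lists -/

lemma isPB_left {l : List V} {a b : V} (h : IsPB G l a b) : a ∈ l :=
  List.mem_of_mem_head? (by rw [h.2.1]; rfl)

lemma isPB_right {l : List V} {a b : V} (h : IsPB G l a b) : b ∈ l :=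
  List.mem_of_mem_getLast? (by rw [h.2.2]; rfl)

lemma isPB_singleton (a : V) : IsPB G [a] a a :=
  ⟨⟨by simp, by simp, by simp⟩, rfl, rfl⟩

lemma isPB_reverse {l : List V} {a b : V} (h : IsPB G l a b) : IsPB G l.reverse b a := by
  refine ⟨⟨by simpa using h.1.1, ?_, by simpa using h.1.2.2⟩, ?_, ?_⟩
  · rw [List.isChain_reverse]
    exact h.1.2.1.imp (fun a b hab => hab.symm)
  · rw [List.head?_reverse]; exact h.2.2
  · rw [List.getLast?_reverse]; exact h.2.1

/-- concatenation -/
lemma isPB_append {l l' : List V} {a b c d : V} (h : IsPB G l a b) (h' : IsPB G l' c d)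
    (hbc : G.Adj b c) (hdis : ∀ x ∈ l, x ∉ l') : IsPB G (l ++ l') a d := by
  refine ⟨⟨by simp [h.1.1], ?_, ?_⟩, ?_, ?_⟩
  · rw [List.isChain_append]
    refine ⟨h.1.2.1, h'.1.2.1, ?_⟩
    intro x hx y hy
    rw [h.2.2] at hx
    rw [h'.2.1] at hy
    cases hx; cases hy
    exact hbc
  · rw [List.nodup_append]
    refine ⟨h.1.2.2, h'.1.2.2, ?_⟩
    intro x hx y hy hxy
    subst hxy
    exact hdis x hx hy
  · rw [List.head?_append, h.2.1]; rfl
  · rw [List.getLast?_append, h'.2.2]; rfl

lemma isPB_iff_append {l : List V} {a b : V} : IsPB G l a b ↔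
    (a = b ∧ l = [a]) ∨ ∃ l' c, l = l' ++ [b] ∧ IsPB G l' a c ∧ G.Adj c b ∧ b ∉ l' := by
  constructor
  · rintro ⟨⟨h0, h1, h2⟩, h3, h4⟩
    obtain ⟨l', b', rfl⟩ := List.eq_nil_or_concat' l |>.resolve_left h0
    have hb : b' = b := by simpa using h4
    subst hb
    rcases List.eq_nil_or_concat' l' with rfl | ⟨l'', c, rfl⟩
    · left
      have : b' = a := by simpa using h3
      subst this
      simp
    · right
      refine ⟨l'' ++ [c], c, rfl, ⟨⟨by simp, ?_, ?_⟩, ?_, by simp⟩, ?_, ?_⟩
      · exact h1.left_of_append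
      · exact (List.nodup_append.1 h2).1
      · rw [← h3]
        cases l'' <;> rfl
      · rw [List.isChain_append] at h1
        exact h1.2.2 c (by simp) b' (by simp)
      · intro hb
        have := (List.nodup_append.1 h2).2.2 b' hb b' (by simp)
        exact this rfl
  · rintro (⟨rfl, rfl⟩ | ⟨l', c, rfl, h1, h2, h3⟩)
    · exact isPB_singleton a
    · refine isPB_append h1 (isPB_singleton b) h2 ?_
      intro x hx hx'
      have : x = b := by simpa using hx'
      subst this
      exact h3 hx

/-- a prefix of a path -/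
lemma isPB_prefix {s t : List V} {a b c : V} (h : IsPB G (s ++ c :: t) a b) :
    IsPB G (s ++ [c]) a c := by
  obtain ⟨⟨h0, h1, h2⟩, h3, h4⟩ := h
  refine ⟨⟨by simp, ?_, ?_⟩, ?_, by simp⟩
  · have : s ++ c :: t = (s ++ [c]) ++ t := by simp
    rw [this] at h1
    exact h1.left_of_append
  · have : s ++ c :: t = (s ++ [c]) ++ t := by simp
    rw [this] at h2
    exact (List.nodup_append.1 h2).1
  · rw [← h3]
    cases s <;> rfl

/-- a suffix of a path -/
lemma isPB_suffix {s t : List V} {a b c : V} (h : IsPB G (s ++ c :: t) a b) :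
    IsPB G (c :: t) c b := by
  obtain ⟨⟨h0, h1, h2⟩, h3, h4⟩ := h
  refine ⟨⟨by simp, h1.right_of_append, (List.nodup_append.1 h2).2.1⟩, rfl, ?_⟩
  rw [← h4, List.getLast?_append]
  simp [List.getLast?_cons]

/-- connected vertices are joined by a simple path -/
lemma path_of_conn {F : Set V} {u v : V} (h : Conn G F u v) :
    ∃ l, IsPB G l u v ∧ ∀ x ∈ l, x ∈ F := by
  obtain ⟨h1, h2⟩ := h
  induction h2 with
  | refl => exact ⟨[u], isPB_singleton u, by simpa using h1⟩
  | @tail b c _ hbc ih =>
    obtain ⟨l, hl, hF⟩ := ih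
    by_cases hc : c ∈ l
    · obtain ⟨s, t, rfl⟩ := List.append_of_mem hc
      refine ⟨s ++ [c], isPB_prefix hl, ?_⟩
      intro x hx
      apply hF
      simp only [List.mem_append, List.mem_cons, List.not_mem_nil, or_false] at hx ⊢
      tauto
    · refine ⟨l ++ [c], ?_, ?_⟩
      · refine isPB_append hl (isPB_singleton c) hbc.1 ?_
        intro x hx hx'
        have : x = c := by simpa using hx'
        subst this
        exact hc hx
      · intro x hx
        simp only [List.mem_append, List.mem_cons, List.not_mem_nil, or_false] at hx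
        rcases hx with hx | rfl
        · exact hF x hx
        · exact hbc.2

/-- the last element with a property -/
lemma exists_last {l : List V} (p : V → Prop) (h : ∃ x ∈ l, p x) :
    ∃ s b t, l = s ++ b :: t ∧ p b ∧ ∀ x ∈ t, ¬ p x := by
  induction l with
  | nil => obtain ⟨x, hx, _⟩ := h; simp at hx
  | cons a l ih =>
    by_cases h' : ∃ x ∈ l, p x
    · obtain ⟨s, b, t, rfl, h1, h2⟩ := ih h'
      exact ⟨a :: s, b, t, rfl, h1, h2⟩
    · push Not at h'
      obtain ⟨x, hx, hp⟩ := h
      rcases List.mem_cons.1 hx with rfl | hx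
      · exact ⟨[], x, l, rfl, hp, h'⟩
      · exact absurd hp (h' x hx)

/-! ### Closed chains (cycles) -/

/-- `C` is the list of the vertices of a cycle. -/
def IsC (G : SimpleGraph V) (C : List V) : Prop :=
  C.Nodup ∧ ∃ c t, C = c :: t ∧ (c :: t ++ [c]).IsChain G.Adj

/-- two arcs -/
lemma isC_arc {C : List V} (hC : IsC G C) {a b : V} (ha : a ∈ C) (hb : b ∈ C) (hab : a ≠ b) :
    ∃ l, IsPB G l a b ∧ (∀ x ∈ l, x ∈ C) ∧ C.length + 2 ≤ 2 * l.length := by
  -- rotate such that the cycle starts at `a`
  have hrot : ∃ t, (a :: t).Nodup ∧ (∀ x, x ∈ a :: t ↔ x ∈ C) ∧ (a :: t).length = C.length ∧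
      (a :: t ++ [a]).IsChain G.Adj := by
    obtain ⟨hnd, c, t, rfl, hch⟩ := hC
    rcases List.mem_cons.1 ha with rfl | ha
    · exact ⟨t, hnd, fun x => Iff.rfl, rfl, hch⟩
    · obtain ⟨s, t, rfl⟩ := List.append_of_mem ha
      refine ⟨t ++ c :: s, ?_, ?_, ?_, ?_⟩
      · rw [← List.cons_append, List.nodup_append_comm]
        simpa using hnd
      · intro x
        simp only [List.mem_cons, List.mem_append]
        tauto
      · simp only [List.length_cons, List.length_append]
        omega
      · have h1 : (a :: t ++ [c]).IsChain G.Adj := by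
          have : c :: (s ++ a :: t) ++ [c] = (c :: s) ++ (a :: t ++ [c]) := by simp
          rw [this] at hch
          exact hch.right_of_append
        have h2 : (c :: s ++ [a]).IsChain G.Adj := by
          have : c :: (s ++ a :: t) ++ [c] = (c :: s ++ [a]) ++ (t ++ [c]) := by simp
          rw [this] at hch
          exact hch.left_of_append
        have : a :: (t ++ c :: s) ++ [a] = (a :: t) ++ c :: (s ++ [a]) := by simp
        rw [this, List.isChain_split]
        exact ⟨h1, by simpa using h2⟩
  obtain ⟨r, hnd, hmem, hlen, hch⟩ := hrot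
  have hb' : b ∈ r := by
    rcases List.mem_cons.1 ((hmem b).2 hb) with h | h
    · exact absurd h.symm hab
    · exact h
  obtain ⟨s, t, rfl⟩ := List.append_of_mem hb'
  have hl1 : IsPB G (a :: s ++ [b]) a b := by
    refine ⟨⟨by simp, ?_, ?_⟩, rfl, by rw [List.getLast?_append]; rfl⟩
    · have : a :: (s ++ b :: t) ++ [a] = (a :: s ++ [b]) ++ (t ++ [a]) := by simp
      rw [this] at hch
      exact hch.left_of_append
    · have : a :: (s ++ b :: t) = (a :: s ++ [b]) ++ t := by simp
      rw [this] at hnd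
      exact (List.nodup_append.1 hnd).1
  have hl2 : IsPB G (b :: t ++ [a]) b a := by
    refine ⟨⟨by simp, ?_, ?_⟩, rfl, by rw [List.getLast?_append]; rfl⟩
    · have : a :: (s ++ b :: t) ++ [a] = (a :: s) ++ (b :: t ++ [a]) := by simp
      rw [this] at hch
      exact hch.right_of_append
    · have h3 : (a :: (s ++ b :: t)).Nodup := hnd
      rw [List.nodup_cons] at h3
      have h4 : (b :: t).Nodup := (List.nodup_append.1 h3.2).2.1
      rw [List.nodup_append]
      refine ⟨h4, by simp, ?_⟩
      intro x hx y hy hxy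
      have : y = a := by simpa using hy
      subst this; subst hxy
      exact h3.1 (List.mem_append_right _ hx)
  by_cases hcase : C.length + 2 ≤ 2 * (a :: s ++ [b]).length
  · refine ⟨_, hl1, ?_, hcase⟩
    intro x hx
    rw [← hmem]
    simp only [List.mem_cons, List.mem_append, List.not_mem_nil, or_false] at hx ⊢
    tauto
  · refine ⟨_, isPB_reverse hl2, ?_, ?_⟩
    · intro x hx
      rw [List.mem_reverse] at hx
      rw [← hmem]
      simp only [List.mem_cons, List.mem_append, List.not_mem_nil, or_false] at hx ⊢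
      tauto
    · simp only [List.length_cons, List.length_append, List.length_reverse, List.length_nil]
        at hcase hlen ⊢
      omega

/-! ### The process -/

section process

variable [Finite V] {B0 : Finset V} {θ : ℕ} {F : Set V}

/-- the process of section 6 of the blueprint: there is a long cycle in the block -/
theorem exists_cycle (hθ : θ ≤ B0.card) (L : ℕ) (hL : 1 ≤ L)
    (block_hit : ∀ (X : Set V), (∀ v, ∃ u, BC G B0 θ (F \ {v}) u) →
      (∃ u, BC G B0 θ (F \ X) u) → ∃ w ∈ Block G B0 θ F, BC G B0 θ (F \ X) w)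
    (block_path : ∀ {l : List V} {a b : V}, IsPB G l a b → (∀ x ∈ l, x ∈ F) → a ≠ b →
      a ∈ Block G B0 θ F → b ∈ Block G B0 θ F → ∀ x ∈ l, x ∈ Block G B0 θ F)
    (h : ∀ l : List V, IsP G l → (∀ x ∈ l, x ∈ F) → l.length ≤ L + 1 →
      ∃ u, BC G B0 θ (F \ {x | x ∈ l}) u)
    (h1 : ∀ v, ∃ u, BC G B0 θ (F \ {v}) u)
    (hbF : ∀ w ∈ Block G B0 θ F, w ∈ F) (hne : ∀ v : V, ∃ w : V, w ≠ v) :
    ∀ (n : ℕ) (l : List V) (a b u : V), IsPB G l a b → (∀ x ∈ l, x ∈ Block G B0 θ F) →
      BC G B0 θ (F \ {x | x ∈ l}) u →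
      (∃ m ∈ comp G (F \ {x | x ∈ l}) u, G.Adj b m) →
      (comp G (F \ {x | x ∈ l}) u).ncard ≤ n →
      ∃ C, IsC G C ∧ (∀ x ∈ C, x ∈ Block G B0 θ F) ∧ L + 2 ≤ C.length := by
  intro n
  induction n with
  | zero =>
    intro l a b u hl hlB hBC hadj hcard
    exfalso
    obtain ⟨m, hm, -⟩ := hadj
    have h0 : (comp G (F \ {x | x ∈ l}) u).ncard = 0 := by omega
    rw [Set.ncard_eq_zero (Set.toFinite _)] at h0
    rw [h0] at hm
    exact hm
  | succ n ih =>
    intro l a b u hl hlB hBC hadj hcard
    obtain ⟨m, hm, hbm⟩ := hadj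
    set M := comp G (F \ {x | x ∈ l}) u with hM
    have hlF : ∀ x ∈ l, x ∈ F := fun x hx => hbF x (hlB x hx)
    have hMF : ∀ x ∈ M, x ∈ F ∧ x ∉ l := fun x hx => ⟨(conn_right hx).1, (conn_right hx).2⟩
    -- `M` is closed
    have hMcl : ∀ y ∈ M, ∀ z ∈ F, z ∉ l → G.Adj y z → z ∈ M := by
      intro y hy z hz hzl hyz
      exact ⟨hy.1, hy.2.tail ⟨hyz, hz, hzl⟩⟩
    -- the last vertices of the path
    obtain ⟨l1, l2, hl12, hl2, hl1⟩ : ∃ l1 l2, l = l1 ++ l2 ∧ l2.length ≤ L ∧
        (l1 ≠ [] → l2.length = L) := by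
      refine ⟨l.take (l.length - L), l.drop (l.length - L), by simp, ?_, ?_⟩
      · rw [List.length_drop]; omega
      · intro h0
        rw [List.length_drop]
        have : 0 < (l.take (l.length - L)).length := List.length_pos_iff.2 h0
        rw [List.length_take] at this
        omega
    by_cases hA : ∃ y ∈ l1, ∃ m' ∈ M, G.Adj y m'
    · -- a long cycle
      obtain ⟨y, hy, m', hm', hym'⟩ := hA
      have hl2L : l2.length = L := hl1 (by rintro rfl; simp at hy)
      obtain ⟨s, t, rfl⟩ := List.append_of_mem hy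
      have hl' : l = s ++ y :: (t ++ l2) := by rw [hl12]; simp
      have hsuf : IsPB G (y :: (t ++ l2)) y b := by
        rw [hl'] at hl
        exact isPB_suffix hl
      have hsub : ∀ x ∈ y :: (t ++ l2), x ∈ l := by
        intro x hx
        rw [hl']
        exact List.mem_append_right _ hx
      -- a path from `m` to `m'` inside `M`
      have hmm' : Conn G (F \ {x | x ∈ l}) m m' := conn_trans (conn_symm hm) hm'
      obtain ⟨q, hq, hqF⟩ := path_of_conn hmm'
      have hqdis : ∀ x ∈ y :: (t ++ l2), x ∉ q := fun x hx hxq => (hqF x hxq).2 (hsub x hx)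
      refine ⟨y :: (t ++ l2) ++ q, ?_, ?_, ?_⟩
      · have hpq : IsPB G (y :: (t ++ l2) ++ q) y m' := isPB_append hsuf hq hbm hqdis
        refine ⟨hpq.1.2.2, y, t ++ l2 ++ q, by simp, ?_⟩
        have : y :: (t ++ l2 ++ q) ++ [y] = (y :: (t ++ l2) ++ q) ++ [y] := by simp
        rw [this, List.isChain_append]
        refine ⟨hpq.1.2.1, by simp, ?_⟩
        intro c hc d hd
        rw [hpq.2.2] at hc
        cases hc
        have : y = d := by simpa using hd
        subst this
        exact hym'.symm
      · intro x hx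
        rcases List.mem_append.1 hx with hx | hx
        · exact hlB x (hsub x hx)
        · -- `y, m', ..., m, b` is a path inside `F`
          have hyb : y ≠ b := by
            rintro rfl
            have h2 : y ∈ l2 := by
              have h3 := hsuf.2.2
              have h4 : l2 ≠ [] := by rintro rfl; simp at hl2L; omega
              have h5 : (y :: (t ++ l2)) = (y :: t) ++ l2 := by simp
              rw [h5, List.getLast?_append] at h3
              obtain ⟨l3, c, rfl⟩ := (List.eq_nil_or_concat' l2).resolve_left h4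
              simp at h3
              simp [h3]
            have h6 := hsuf.1.2.2
            rw [List.nodup_cons] at h6
            exact h6.1 (List.mem_append_right _ h2)
          have hp1 : IsPB G ([y] ++ q.reverse) y m := by
            refine isPB_append (isPB_singleton y) (isPB_reverse hq) hym' ?_
            intro z hz hz'
            have : z = y := by simpa using hz
            subst this
            rw [List.mem_reverse] at hz'
            exact hqdis z (by simp) hz'
          have hp2 : IsPB G (([y] ++ q.reverse) ++ [b]) y b := by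
            refine isPB_append hp1 (isPB_singleton b) hbm.symm ?_
            intro z hz hz'
            have : z = b := by simpa using hz'
            subst this
            rcases List.mem_append.1 hz with hz | hz
            · have : z = y := by simpa using hz
              exact hyb this.symm
            · rw [List.mem_reverse] at hz
              exact hqdis z (isPB_right hsuf) hz
          refine block_path hp2 ?_ hyb (hlB y (hsub y (by simp)))
            (hlB b (hsub b (isPB_right hsuf))) x ?_
          · intro z hz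
            rcases List.mem_append.1 hz with hz | hz
            · rcases List.mem_append.1 hz with hz | hz
              · have : z = y := by simpa using hz
                subst this
                exact hlF z (hsub z (by simp))
              · rw [List.mem_reverse] at hz
                exact (hqF z hz).1
            · have : z = b := by simpa using hz
              subst this
              exact hlF z (hsub z (isPB_right hsuf))
          · simp [hx]
      · have : 1 ≤ q.length := by
          have := hq.1.1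
          exact List.length_pos_iff.2 this
        simp only [List.length_append, List.length_cons]
        omega
    · push Not at hA
      -- the next vertex
      obtain ⟨w, hwB, hwBC⟩ := block_hit {x | x ∈ l} h1 ⟨u, hBC⟩
      have hwM : w ∈ M := bc_conn hθ hBC hwBC
      have hmB : m ∈ Block G B0 θ F := by
        obtain ⟨q, hq, hqF⟩ := path_of_conn (conn_trans (conn_symm hm) hwM)
        have hp : IsPB G ([b] ++ q) b w := by
          refine isPB_append (isPB_singleton b) hq hbm ?_
          intro z hz hz'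
          have : z = b := by simpa using hz
          subst this
          exact (hqF z hz').2 (isPB_right hl)
        have hbw : b ≠ w := by
          rintro rfl
          exact (hMF b hwM).2 (isPB_right hl)
        refine block_path hp ?_ hbw (hlB b (isPB_right hl)) hwB m ?_
        · intro z hz
          rcases List.mem_append.1 hz with hz | hz
          · have : z = b := by simpa using hz
            subst this
            exact hlF z (isPB_right hl)
          · exact (hqF z hz).1
        · exact List.mem_append_right _ (isPB_left hq)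
      have hml : m ∉ l := (hMF m hm).2
      have hlm : IsPB G (l ++ [m]) a m := by
        refine isPB_append hl (isPB_singleton m) hbm ?_
        intro z hz hz'
        have : z = m := by simpa using hz'
        subst this
        exact hml hz
      -- the set `Y'`
      have hY : ∃ u', BC G B0 θ (F \ {x | x ∈ l2 ++ [m]}) u' := by
        apply h
        · refine ⟨by simp, ?_, ?_⟩
          · have h2 := hlm.1.2.1
            rw [hl12, List.append_assoc] at h2
            exact h2.right_of_append
          · have h2 := hlm.1.2.2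
            rw [hl12, List.append_assoc] at h2
            exact (List.nodup_append.1 h2).2.1
        · intro x hx
          rcases List.mem_append.1 hx with hx | hx
          · exact hlF x (by rw [hl12]; exact List.mem_append_right _ hx)
          · have : x = m := by simpa using hx
            subst this
            exact (hMF x hm).1
        · simp only [List.length_append, List.length_cons, List.length_nil]
          omega
      obtain ⟨u', hu'⟩ := hY
      obtain ⟨z, hz1, hz2⟩ := big_inter hθ hBC hu'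
      have hz1 : z ∈ M := hz1
      rw [show BC G B0 θ (F \ {x | x ∈ l2 ++ [m]}) u' ↔
        Big B0 θ (comp G (F \ {x | x ∈ l2 ++ [m]}) u') from Iff.rfl, comp_eq hz2] at hu'
      have hl2l : ∀ x ∈ l2, x ∈ l := fun x hx => by rw [hl12]; exact List.mem_append_right _ hx
      -- `M' ⊆ M`
      have hM'M : ∀ x ∈ comp G (F \ {x | x ∈ l2 ++ [m]}) z, x ∈ M := by
        intro x hx
        refine conn_closed hx M hz1 ?_
        rintro y hy c ⟨hcF, hc⟩ hyc
        by_cases hcl : c ∈ l
        · exfalso
          rw [hl12] at hcl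
          rcases List.mem_append.1 hcl with hcl | hcl
          · exact hA c hcl y hy hyc.symm
          · exact hc (List.mem_append_left _ hcl)
        · exact hMcl y hy c hcF hcl hyc
      -- an edge from the path to `M'`
      have hcross : ∃ x ∈ l ++ [m], ∃ c ∈ comp G (F \ {x | x ∈ l2 ++ [m]}) z, G.Adj x c := by
        obtain ⟨v, hv⟩ := hne m
        obtain ⟨y, hy1, hy2⟩ := big_inter hθ (hmB v hv) hu'
        have hm' : m ∉ comp G (F \ {x | x ∈ l2 ++ [m]}) z := by
          intro hmz
          exact (conn_right hmz).2 (by simp)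
        obtain ⟨d, c, hd, hc, hdc, hd', hc'⟩ := exists_crossing hy1 _ hm' hy2
        refine ⟨d, ?_, c, hc', hdc⟩
        by_contra hcon
        apply hd'
        refine ⟨hc'.1, hc'.2.tail ⟨hdc.symm, hd.1, ?_⟩⟩
        intro hmem
        apply hcon
        rcases List.mem_append.1 hmem with hmem | hmem
        · exact List.mem_append_left _ (hl2l d hmem)
        · exact List.mem_append_right _ hmem
      obtain ⟨s, b', t, hst, ⟨c, hc, hb'c⟩, ht⟩ := exists_last
        (fun x => ∃ c ∈ comp G (F \ {x | x ∈ l2 ++ [m]}) z, G.Adj x c) hcross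
      have hs : IsPB G (s ++ [b']) a b' := by
        rw [hst] at hlm
        exact isPB_prefix hlm
      have hsub : ∀ x ∈ s ++ [b'], x ∈ l ++ [m] := by
        intro x hx
        rw [hst]
        simp only [List.mem_append, List.mem_cons, List.not_mem_nil, or_false] at hx ⊢
        tauto
      have hzM' : z ∈ comp G (F \ {x | x ∈ l2 ++ [m]}) z :=
        ⟨conn_right hz2, Relation.ReflTransGen.refl⟩
      -- `M'` is disjoint from `l ++ [m]`
      have hM'l : ∀ x ∈ comp G (F \ {x | x ∈ l2 ++ [m]}) z, x ∉ l ++ [m] := by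
        intro x hx hx'
        rcases List.mem_append.1 hx' with hx' | hx'
        · exact (hMF x (hM'M x hx)).2 hx'
        · exact (conn_right hx).2 (List.mem_append_right _ hx')
      -- the component did not change
      have hcomp : comp G (F \ {x | x ∈ s ++ [b']}) z = comp G (F \ {x | x ∈ l2 ++ [m]}) z := by
        apply Set.Subset.antisymm
        · intro x hx
          refine conn_closed hx (comp G (F \ {x | x ∈ l2 ++ [m]}) z) hzM' ?_
          rintro y hy c ⟨hcF, hc⟩ hyc
          refine ⟨hy.1, hy.2.tail ⟨hyc, hcF, ?_⟩⟩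
          intro hcl
          have h3 : c ∈ l ++ [m] := by
            rcases List.mem_append.1 hcl with hcl | hcl
            · exact List.mem_append_left _ (hl2l c hcl)
            · exact List.mem_append_right _ hcl
          rw [hst] at h3
          have h4 : c ∈ s ++ [b'] ∨ c ∈ t := by
            simp only [List.mem_append, List.mem_cons, List.not_mem_nil, or_false] at h3 ⊢
            tauto
          rcases h4 with h4 | h4
          · exact hc h4
          · exact ht c h4 ⟨y, hy, hyc.symm⟩
        · intro x hx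
          have key : x ∈ comp G (F \ {x | x ∈ s ++ [b']}) z ∩
              comp G (F \ {x | x ∈ l2 ++ [m]}) z := by
            refine conn_closed hx _ ?_ ?_
            · refine ⟨⟨⟨(hMF z hz1).1, ?_⟩, Relation.ReflTransGen.refl⟩, hzM'⟩
              exact fun hzs => hM'l z hzM' (hsub z hzs)
            · rintro y ⟨hy1, hy2⟩ c hc hyc
              have hc2 : c ∈ comp G (F \ {x | x ∈ l2 ++ [m]}) z :=
                ⟨hy2.1, hy2.2.tail ⟨hyc, hc⟩⟩
              exact ⟨⟨hy1.1, hy1.2.tail ⟨hyc, hc.1, fun hcs => hM'l c hc2 (hsub c hcs)⟩⟩, hc2⟩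
          exact key.1
      refine ih (s ++ [b']) a b' z hs ?_ ?_ ?_ ?_
      · intro x hx
        rcases List.mem_append.1 (hsub x hx) with h3 | h3
        · exact hlB x h3
        · have : x = m := by simpa using h3
          subst this
          exact hmB
      · show Big B0 θ _
        rw [hcomp]; exact hu'
      · rw [hcomp]; exact ⟨c, hc, hb'c⟩
      · rw [hcomp]
        have hlt : (comp G (F \ {x | x ∈ l2 ++ [m]}) z).ncard < M.ncard := by
          apply Set.ncard_lt_ncard _ (Set.toFinite _)
          refine ⟨hM'M, fun hsub' => ?_⟩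
          exact hM'l m (hsub' hm) (by simp)
        omega

end process

/-! ### Long paths in the block -/

/-- joining two paths at a common vertex -/
lemma isPB_join {l l' : List V} {a b c : V} (h : IsPB G l a b) (h' : IsPB G l' b c)
    (hdis : ∀ x ∈ l.dropLast, x ∉ l') : IsPB G (l.dropLast ++ l') a c := by
  rcases isPB_iff_append.1 h with ⟨rfl, rfl⟩ | ⟨l1, d, rfl, h1, h2, h3⟩
  · simpa using h'
  · have : (l1 ++ [b]).dropLast = l1 := by simp
    rw [this] at hdis ⊢
    exact isPB_append h1 h' h2 hdis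

/-- two disjoint paths to a cycle and the longer arc -/
lemma join_cycle {C q q' : List V} (hC : IsC G C) {w1 w2 b b' : V} (hq : IsPB G q w1 b)
    (hq' : IsPB G q' w2 b') (hb : b ∈ C) (hb' : b' ∈ C) (hqC : ∀ x ∈ q.dropLast, x ∉ C)
    (hqC' : ∀ x ∈ q'.dropLast, x ∉ C) (hdis : List.Disjoint q q') :
    ∃ l, IsPB G l w1 w2 ∧ (∀ x ∈ l, x ∈ q ∨ x ∈ C ∨ x ∈ q') ∧ C.length + 2 ≤ 2 * l.length := by
  have hbb' : b ≠ b' := by
    rintro rfl
    exact hdis (isPB_right hq) (isPB_right hq')
  obtain ⟨l, hl, hlC, hlen⟩ := isC_arc hC hb hb' hbb'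
  have h1 : IsPB G (q.dropLast ++ l) w1 b' :=
    isPB_join hq hl (fun x hx hx' => hqC x hx (hlC x hx'))
  have hlast : ∀ {k : List V} {a c : V}, IsPB G k a c → c ∉ k.dropLast := by
    intro k a c hk
    rcases isPB_iff_append.1 hk with ⟨rfl, rfl⟩ | ⟨l1, d, rfl, -, -, h3⟩
    · simp
    · simpa using h3
  have hmem : ∀ {k : List V} {a c x : V}, IsPB G k a c → x ∈ k → x ∈ k.dropLast ∨ x = c := by
    intro k a c x hk hx
    rcases isPB_iff_append.1 hk with ⟨rfl, rfl⟩ | ⟨l1, d, rfl, -, -, h3⟩
    · right; simpa using hx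
    · simpa using hx
  have h2 : IsPB G ((q.dropLast ++ l).dropLast ++ q'.reverse) w1 w2 := by
    refine isPB_join h1 (isPB_reverse hq') ?_
    intro x hx hx'
    rw [List.mem_reverse] at hx'
    have hxb' : x ≠ b' := by
      rintro rfl
      exact hlast h1 hx
    have hx2 := (hmem hq' hx').resolve_right hxb'
    have hx3 : x ∈ q.dropLast ++ l := List.mem_of_mem_dropLast hx
    rcases List.mem_append.1 hx3 with hx4 | hx4
    · exact hdis (List.mem_of_mem_dropLast hx4) hx'
    · exact hqC' x hx2 (hlC x hx4)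
  refine ⟨_, h2, ?_, ?_⟩
  · intro x hx
    rcases List.mem_append.1 hx with hx | hx
    · rcases List.mem_append.1 (List.mem_of_mem_dropLast hx) with hx | hx
      · exact Or.inl (List.mem_of_mem_dropLast hx)
      · exact Or.inr (Or.inl (hlC x hx))
    · rw [List.mem_reverse] at hx
      exact Or.inr (Or.inr hx)
  · have e1 : 1 ≤ q.length := List.length_pos_iff.2 hq.1.1
    have e2 : 1 ≤ q'.length := List.length_pos_iff.2 hq'.1.1
    have e3 : 1 ≤ l.length := List.length_pos_iff.2 hl.1.1
    simp only [List.length_append, List.length_dropLast, List.length_reverse]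
    omega

/-- a list without repetitions and with two elements has an element different from `x` -/
lemma exists_ne_of_nodup {C : List V} (hC : C.Nodup) (hl : 2 ≤ C.length) (x : V) :
    ∃ b ∈ C, b ≠ x := by
  match C, hC, hl with
  | c :: d :: t, hC, _ =>
    by_cases h : c = x
    · refine ⟨d, by simp, ?_⟩
      rintro rfl
      rw [List.nodup_cons] at hC
      exact hC.1 (by simp [h])
    · exact ⟨c, by simp, h⟩

theorem long_in_block_of [Finite V] (G : SimpleGraph V) (B0 : Finset V) (θ : ℕ)
    (hθ : θ ≤ B0.card) (F : Set V) (L : ℕ)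
    (menger : ∀ (A B : Set V),
      (∀ X : Finset V, X.card < 2 → ∃ a ∈ A, ∃ b ∈ B, Conn G (F \ ↑X) a b) →
      ∃ Q : Fin 2 → List V, Linkage G F A B 2 Q)
    (block_hit : ∀ (X : Set V), (∀ v, ∃ u, BC G B0 θ (F \ {v}) u) →
      (∃ u, BC G B0 θ (F \ X) u) → ∃ w ∈ Block G B0 θ F, BC G B0 θ (F \ X) w)
    (block_path : ∀ {l : List V} {a b : V}, IsPB G l a b → (∀ x ∈ l, x ∈ F) → a ≠ b →
      a ∈ Block G B0 θ F → b ∈ Block G B0 θ F → ∀ x ∈ l, x ∈ Block G B0 θ F)
    (h : ∀ l : List V, IsP G l → (∀ x ∈ l, x ∈ F) → l.length ≤ L + 1 →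
      ∃ u, BC G B0 θ (F \ {x | x ∈ l}) u)
    (h1 : ∀ v, ∃ u, BC G B0 θ (F \ {v}) u)
    {w1 w2 : V} (hw1 : w1 ∈ Block G B0 θ F) (hw2 : w2 ∈ Block G B0 θ F) (h12 : w1 ≠ w2) :
    ∃ l, IsPB G l w1 w2 ∧ (∀ x ∈ l, x ∈ Block G B0 θ F) ∧ L + 3 ≤ 2 * l.length := by
  have hne : ∀ v : V, ∃ w : V, w ≠ v := by
    intro v
    by_cases hv : w1 = v
    · exact ⟨w2, by rw [← hv]; exact h12.symm⟩
    · exact ⟨w1, hv⟩
  have hbF : ∀ w ∈ Block G B0 θ F, w ∈ F := by
    intro w hw
    obtain ⟨v, hv⟩ := hne w
    exact (bc_mem hθ (hw v hv)).1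
  rcases Nat.eq_zero_or_pos L with hL | hL
  · obtain ⟨z, hz1, hz2⟩ := big_inter hθ (hw1 w2 h12.symm) (hw2 w1 h12)
    have hc : Conn G F w1 w2 :=
      conn_trans (conn_mono Set.sdiff_subset hz1) (conn_symm (conn_mono Set.sdiff_subset hz2))
    obtain ⟨l, hl, hlF⟩ := path_of_conn hc
    refine ⟨l, hl, block_path hl hlF h12 hw1 hw2, ?_⟩
    rcases isPB_iff_append.1 hl with ⟨h3, -⟩ | ⟨l1, d, rfl, h4, -, -⟩
    · exact absurd h3 h12
    · have := List.length_pos_iff.2 h4.1.1
      simp only [List.length_append, List.length_cons, List.length_nil]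
      omega
  · obtain ⟨u, hu⟩ := h1 w1
    have hset : F \ {w1} = F \ {x | x ∈ [w1]} := by
      ext x; simp
    rw [hset] at hu
    obtain ⟨z, hz1, hz2⟩ := big_inter hθ (hw1 w2 h12.symm) hu
    have hw1S : w1 ∉ comp G (F \ {x | x ∈ [w1]}) u := fun hx => (conn_right hx).2 (by simp)
    obtain ⟨b, c, hb, hc, hbc, hb', hc'⟩ := exists_crossing hz1 _ hw1S hz2
    have hbw1 : b = w1 := by
      by_contra hcon
      apply hb'
      refine ⟨hc'.1, hc'.2.tail ⟨hbc.symm, hb.1, ?_⟩⟩
      intro hmem
      exact hcon (by simpa using hmem)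
    subst hbw1
    obtain ⟨C, hC, hCB, hCL⟩ := exists_cycle hθ L hL block_hit block_path h h1 hbF hne
      _ [b] b b u (isPB_singleton b) (by simpa using hw1) hu ⟨c, hc', hbc⟩ le_rfl
    obtain ⟨Q, hQ, hQdis⟩ := menger {b, w2} {x | x ∈ C} (by
      intro X hX
      have : Nonempty V := ⟨b⟩
      obtain ⟨x, hx⟩ := Finset.card_le_one_iff_subset_singleton.1 (Nat.lt_succ_iff.1 hX)
      obtain ⟨a, ha, hax⟩ : ∃ a ∈ ({b, w2} : Set V), a ≠ x := by
        by_cases hbx : b = x
        · exact ⟨w2, by simp, by rw [← hbx]; exact h12.symm⟩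
        · exact ⟨b, by simp, hbx⟩
      obtain ⟨d, hd, hdx⟩ := exists_ne_of_nodup hC.1 (by omega) x
      refine ⟨a, ha, d, hd, ?_⟩
      have haB : a ∈ Block G B0 θ F := by
        rcases ha with rfl | ha
        · exact hw1
        · rw [Set.mem_singleton_iff] at ha
          rw [ha]; exact hw2
      have hconn := bc_conn hθ (haB x hax.symm) (hCB d hd x hdx.symm)
      refine conn_mono ?_ hconn
      intro y hy
      refine ⟨hy.1, fun hyX => hy.2 ?_⟩
      have := hx (Finset.mem_coe.1 hyX)
      simpa using this)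
    obtain ⟨hp0, hF0, ⟨a0, ha0, hh0⟩, ⟨b0, hb0, hl0⟩, -, hd0⟩ := hQ 0
    obtain ⟨hp1, hF1, ⟨a1, ha1, hh1⟩, ⟨b1, hb1, hl1⟩, -, hd1⟩ := hQ 1
    have hdis := hQdis 0 1 (by decide)
    have hPB0 : IsPB G (Q 0) a0 b0 := ⟨hp0, hh0, hl0⟩
    have hPB1 : IsPB G (Q 1) a1 b1 := ⟨hp1, hh1, hl1⟩
    have ha01 : a0 ≠ a1 := by
      rintro rfl
      exact hdis (isPB_left hPB0) (isPB_left hPB1)
    have key : ∃ l, IsPB G l b w2 ∧ (∀ x ∈ l, x ∈ Q 0 ∨ x ∈ C ∨ x ∈ Q 1) ∧
        C.length + 2 ≤ 2 * l.length := by
      rcases ha0 with rfl | ha0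
      · have : a1 = w2 := by
          rcases ha1 with h5 | h5
          · exact absurd h5.symm ha01
          · exact h5
        subst this
        exact join_cycle hC hPB0 hPB1 hb0 hb1 hd0 hd1 hdis
      · rw [Set.mem_singleton_iff] at ha0
        subst ha0
        have : a1 = b := by
          rcases ha1 with h5 | h5
          · exact h5
          · exact absurd h5.symm ha01
        subst this
        obtain ⟨l, hl, hlm, hlen⟩ := join_cycle hC hPB1 hPB0 hb1 hb0 hd1 hd0 hdis.symm
        exact ⟨l, hl, fun x hx => by have := hlm x hx; tauto, hlen⟩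
    obtain ⟨l, hl, hlm, hlen⟩ := key
    refine ⟨l, hl, block_path hl ?_ h12 hw1 hw2, by omega⟩
    intro x hx
    rcases hlm x hx with h5 | h5 | h5
    · exact hF0 x h5
    · exact hbF x (hCB x h5)
    · exact hF1 x h5

/-- passing to the definition `Cyc` -/
lemma cyc_of_isC {C : List V} (hC : IsC G C) (h3 : 3 ≤ C.length) : Cyc G C := by
  obtain ⟨hnd, c, t, rfl, hch⟩ := hC
  refine ⟨⟨by simp, hch.left_of_append, hnd⟩, h3, c, (c :: t).getLast (by simp), rfl,
    List.getLast?_eq_some_getLast (by simp), ?_⟩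
  rw [List.isChain_append] at hch
  exact hch.2.2 _ (by rw [List.getLast?_eq_some_getLast (by simp)]; rfl) c (by simp)

theorem cycle_in_block_of [Finite V] (G : SimpleGraph V) (B0 : Finset V) (θ : ℕ)
    (hθ : θ ≤ B0.card) (F : Set V) (L : ℕ)
    (block_hit : ∀ (X : Set V), (∀ v, ∃ u, BC G B0 θ (F \ {v}) u) →
      (∃ u, BC G B0 θ (F \ X) u) → ∃ w ∈ Block G B0 θ F, BC G B0 θ (F \ X) w)
    (block_path : ∀ {l : List V} {a b : V}, IsPB G l a b → (∀ x ∈ l, x ∈ F) → a ≠ b →
      a ∈ Block G B0 θ F → b ∈ Block G B0 θ F → ∀ x ∈ l, x ∈ Block G B0 θ F)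
    (h : ∀ l : List V, IsP G l → (∀ x ∈ l, x ∈ F) → l.length ≤ L + 1 →
      ∃ u, BC G B0 θ (F \ {x | x ∈ l}) u)
    (h1 : ∀ v, ∃ u, BC G B0 θ (F \ {v}) u)
    (hB : (Block G B0 θ F).Nonempty) :
    ∃ c, Cyc G c ∧ (∀ x ∈ c, x ∈ Block G B0 θ F) ∧ L < c.length := by
  obtain ⟨w, hw⟩ := hB
  obtain ⟨u, hu⟩ := h1 w
  have huF := bc_mem hθ hu
  have huw : u ≠ w := fun h => huF.2 h
  have hne : ∀ v : V, ∃ w : V, w ≠ v := by
    intro v
    by_cases hv : w = v
    · exact ⟨u, by rw [← hv]; exact huw⟩
    · exact ⟨w, hv⟩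
  have hbF : ∀ w ∈ Block G B0 θ F, w ∈ F := by
    intro w hw
    obtain ⟨v, hv⟩ := hne w
    exact (bc_mem hθ (hw v hv)).1
  have hset : F \ {w} = F \ {x | x ∈ [w]} := by
    ext x; simp
  -- an edge from `w` to the big component
  have hedge : ∀ v, v ≠ w → ∃ c ∈ comp G (F \ {w}) u, c ≠ v ∧ G.Adj w c := by
    intro v hv
    obtain ⟨z, hz1, hz2⟩ := big_inter hθ (hw v hv) hu
    have hwS : w ∉ comp G (F \ {w}) u := fun hx => (conn_right hx).2 rfl
    obtain ⟨b, c, hb, hc, hbc, hb', hc'⟩ := exists_crossing hz1 _ hwS hz2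
    have hbw : b = w := by
      by_contra hcon
      exact hb' ⟨hc'.1, hc'.2.tail ⟨hbc.symm, hb.1, hcon⟩⟩
    subst hbw
    exact ⟨c, hc', hc.2, hbc⟩
  obtain ⟨m, hm, -, hwm⟩ := hedge u huw
  rcases Nat.eq_zero_or_pos L with hL | hL
  · -- a cycle through `w`
    have hmw : m ≠ w := (conn_right hm).2
    obtain ⟨w', hw'B, hw'⟩ := block_hit {w} h1 ⟨u, hu⟩
    have hmB : m ∈ Block G B0 θ F := by
      obtain ⟨q, hq, hqF⟩ := path_of_conn (conn_trans (conn_symm hm) (bc_conn hθ hu hw'))
      have hp : IsPB G ([w] ++ q) w w' := by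
        refine isPB_append (isPB_singleton w) hq hwm ?_
        intro z hz hz'
        have : z = w := by simpa using hz
        subst this
        exact (hqF z hz').2 rfl
      refine block_path hp ?_ (fun h => (bc_mem hθ hw').2 h.symm) hw hw'B m
        (List.mem_append_right _ (isPB_left hq))
      intro z hz
      rcases List.mem_append.1 hz with hz | hz
      · have : z = w := by simpa using hz
        subst this
        exact hbF z hw
      · exact (hqF z hz).1
    obtain ⟨c, hc, hcm, hwc⟩ := hedge m hmw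
    obtain ⟨q, hq, hqF⟩ := path_of_conn (conn_trans (conn_symm hm) hc)
    have hwq : w ∉ q := fun hwq => (hqF w hwq).2 rfl
    have hlen : 2 ≤ q.length := by
      rcases isPB_iff_append.1 hq with ⟨h3, -⟩ | ⟨l1, d, rfl, h4, -, -⟩
      · exact absurd h3.symm hcm
      · have := List.length_pos_iff.2 h4.1.1
        simp only [List.length_append, List.length_cons, List.length_nil]
        omega
    have hp1 : IsPB G ([w] ++ q) w c := by
      refine isPB_append (isPB_singleton w) hq hwm ?_
      intro z hz hz'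
      have : z = w := by simpa using hz
      subst this
      exact hwq hz'
    have hp2 : IsPB G ([w] ++ q.reverse) w m := by
      refine isPB_append (isPB_singleton w) (isPB_reverse hq) hwc ?_
      intro z hz hz'
      have : z = w := by simpa using hz
      subst this
      exact hwq (List.mem_reverse.1 hz')
    refine ⟨[w] ++ q, ⟨hp1.1, ?_, w, c, hp1.2.1, hp1.2.2, hwc.symm⟩, ?_, ?_⟩
    · simp only [List.length_append, List.length_cons, List.length_nil]
      omega
    · intro x hx
      refine block_path hp2 ?_ hmw.symm hw hmB x ?_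
      · intro z hz
        rcases List.mem_append.1 hz with hz | hz
        · have : z = w := by simpa using hz
          subst this
          exact hbF z hw
        · exact (hqF z (List.mem_reverse.1 hz)).1
      · simp only [List.mem_append, List.mem_reverse] at hx ⊢
        exact hx
    · simp only [List.length_append, List.length_cons, List.length_nil]
      omega
  · rw [hset] at hu hm
    obtain ⟨C, hC, hCB, hCL⟩ := exists_cycle hθ L hL block_hit block_path h h1 hbF hne
      _ [w] w w u (isPB_singleton w) (by simpa using hw) hu ⟨m, hm, hwm⟩ le_rfl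
    exact ⟨C, cyc_of_isC hC (by omega), hCB, by omega⟩

end Cycle

/-- M3: any two vertices of the block are joined by a long path inside the block. -/
theorem long_in_block {V : Type*} [Finite V] (G : SimpleGraph V) (B0 : Finset V) (θ : ℕ)
    (hθ : θ ≤ B0.card) (F : Set V) (L : ℕ)
    (h : ∀ l : List V, IsP G l → (∀ x ∈ l, x ∈ F) → l.length ≤ L + 1 →
      ∃ u, BC G B0 θ (F \ {x | x ∈ l}) u)
    (h1 : ∀ v, ∃ u, BC G B0 θ (F \ {v}) u)
    {w1 w2 : V} (hw1 : w1 ∈ Block G B0 θ F) (hw2 : w2 ∈ Block G B0 θ F) (h12 : w1 ≠ w2) :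
    ∃ l, IsPB G l w1 w2 ∧ (∀ x ∈ l, x ∈ Block G B0 θ F) ∧ L + 3 ≤ 2 * l.length :=
  Cycle.long_in_block_of G B0 θ hθ F L (fun A B hX => menger G F A B 2 hX)
    (fun X => block_hit G B0 θ hθ F X)
    (fun hl hF hab ha hb => block_path G B0 θ hθ F hl hF hab ha hb) h h1 hw1 hw2 h12

/-- M3: there is a long cycle inside the block. -/
theorem cycle_in_block {V : Type*} [Finite V] (G : SimpleGraph V) (B0 : Finset V) (θ : ℕ)
    (hθ : θ ≤ B0.card) (F : Set V) (L : ℕ)
    (h : ∀ l : List V, IsP G l → (∀ x ∈ l, x ∈ F) → l.length ≤ L + 1 →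
      ∃ u, BC G B0 θ (F \ {x | x ∈ l}) u)
    (h1 : ∀ v, ∃ u, BC G B0 θ (F \ {v}) u)
    (hne : (Block G B0 θ F).Nonempty) :
    ∃ c, Cyc G c ∧ (∀ x ∈ c, x ∈ Block G B0 θ F) ∧ L < c.length :=
  Cycle.cycle_in_block_of G B0 θ hθ F L (fun X => block_hit G B0 θ hθ F X)
    (fun hl hF hab ha hb => block_path G B0 θ hθ F hl hF hab ha hb) h h1 hne

end Pool.Agent.Lib.MP_688fd0_co.LP
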