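import Pool.Agent.Lib.MP_688fd0_co.LP.Defs

/-!
Long paths in Cayley graphs, module M4: rerouting a longest path through a linkage (helper52).
-/

set_option autoImplicit false

namespace Pool.Agent.Lib.MP_688fd0_co.LP

open Classical

namespace Reroute

variable {V : Type*}

theorem glue {G : SimpleGraph V} {l1 l2 : List V} {a b c : V} (h1 : IsPB G l1 a b)
    (h2 : IsPB G l2 b c) (hd : ∀ x ∈ l1, x ∈ l2 → x = b) : IsPB G (l1 ++ l2.tail) a c := by
  obtain ⟨⟨h1n, h1c, h1d⟩, h1h, h1l⟩ := h1
  obtain ⟨⟨h2n, h2c, h2d⟩, h2h, h2l⟩ := h2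
  obtain ⟨b', l2', rfl⟩ := List.exists_cons_of_ne_nil h2n
  rw [List.head?_cons, Option.some.injEq] at h2h
  subst h2h
  rw [List.tail_cons]
  rw [List.isChain_cons] at h2c
  rw [List.nodup_cons] at h2d
  refine ⟨⟨by simp [h1n], ?_, ?_⟩, ?_, ?_⟩
  · rw [List.isChain_append]
    refine ⟨h1c, h2c.2, ?_⟩
    intro x hx y hy
    rw [h1l, Option.mem_some_iff] at hx
    subst hx
    exact h2c.1 y hy
  · rw [List.nodup_append]
    refine ⟨h1d, h2d.2, ?_⟩
    intro x hx y hy hxy
    subst hxy
    have := hd x hx (List.mem_cons_of_mem _ hy)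
    subst this
    exact h2d.1 hy
  · rw [List.head?_append, h1h]
    rfl
  · rcases List.eq_nil_or_concat l2' with h | ⟨l3, z, h⟩
    · subst h
      rw [List.append_nil, h1l]
      simpa using h2l
    · subst h
      rw [List.concat_eq_append, ← List.cons_append, List.getLast?_append] at h2l
      rw [List.concat_eq_append, ← List.append_assoc, List.getLast?_append]
      simpa using h2l

theorem rev {G : SimpleGraph V} {l : List V} {a b : V} (h : IsPB G l a b) :
    IsPB G l.reverse b a := by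
  obtain ⟨⟨hn, hc, hd⟩, hh, hl⟩ := h
  refine ⟨⟨by simpa using hn, ?_, by simpa using hd⟩, ?_, ?_⟩
  · rw [List.isChain_reverse]
    exact hc.imp fun x y h => h.symm
  · rw [List.head?_reverse, hl]
  · rw [List.getLast?_reverse, hh]

theorem take_pb {G : SimpleGraph V} {P : List V} (hP : IsP G P) {i : ℕ} (hi : i < P.length) :
    IsPB G (P.take (i + 1)) (P[0]'(by omega)) P[i] := by
  obtain ⟨hn, hc, hd⟩ := hP
  refine ⟨⟨?_, hc.take _, hd.sublist (List.take_sublist _ _)⟩, ?_, ?_⟩
  · intro h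
    rw [List.take_eq_nil_iff] at h
    rcases h with h | h
    · omega
    · exact hn h
  · rw [List.head?_take]
    simp [List.head?_eq_getElem?]
  · rw [List.getLast?_take]
    simp [hi]

theorem drop_pb {G : SimpleGraph V} {P : List V} (hP : IsP G P) {i : ℕ} (hi : i < P.length) :
    IsPB G (P.drop i) P[i] (P[P.length - 1]'(by omega)) := by
  obtain ⟨hn, hc, hd⟩ := hP
  refine ⟨⟨?_, hc.drop _, hd.sublist (List.drop_sublist _ _)⟩, ?_, ?_⟩
  · intro h
    rw [List.drop_eq_nil_iff] at h
    omega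
  · rw [List.head?_drop]
    simp [hi]
  · rw [List.getLast?_drop, if_neg (by omega), List.getLast?_eq_getElem?]
    simp

theorem head_mem {l : List V} {a : V} (h : l.head? = some a) : a ∈ l :=
  List.mem_of_head? h

theorem last_mem {l : List V} {a : V} (h : l.getLast? = some a) : a ∈ l :=
  List.mem_of_getLast? h

theorem not_mem_tail {l : List V} {a x : V} (h : l.head? = some a) (hx : x ∈ l) (hne : x ≠ a) :
    x ∈ l.tail := by
  cases l with
  | nil => simp at hx
  | cons b l =>
    rw [List.head?_cons, Option.some.injEq] at h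
    subst h
    rcases List.mem_cons.1 hx with h | h
    · exact absurd h hne
    · exact h

theorem mem_dropLast' {l : List V} {b x : V} (h : l.getLast? = some b) (hx : x ∈ l) (hne : x ≠ b) :
    x ∈ l.dropLast := by
  rcases List.eq_nil_or_concat l with h1 | ⟨l3, z, h1⟩
  · subst h1; simp at hx
  · subst h1
    rw [List.concat_eq_append] at h hx ⊢
    rw [List.getLast?_append] at h
    simp at h
    subst h
    rw [List.dropLast_concat]
    rcases List.mem_append.1 hx with h | h
    · exact h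
    · exact absurd (List.mem_singleton.1 h) hne

theorem glue_length {l1 l2 : List V} (h2 : l2 ≠ []) :
    (l1 ++ l2.tail).length + 1 = l1.length + l2.length := by
  rw [List.length_append, List.length_tail]
  have := List.length_pos_iff.2 h2
  omega

theorem mem_glue {l1 l2 : List V} {x : V} (h : x ∈ l1 ++ l2.tail) : x ∈ l1 ∨ x ∈ l2 := by
  rcases List.mem_append.1 h with h | h
  · exact Or.inl h
  · exact Or.inr (List.mem_of_mem_tail h)

theorem two_le {l : List V} {a b : V} (hh : l.head? = some a) (hl : l.getLast? = some b)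
    (hne : a ≠ b) : 2 ≤ l.length := by
  rcases l with _ | ⟨x, l⟩
  · simp at hh
  · rcases l with _ | ⟨y, l⟩
    · simp at hh hl
      exact absurd (hh.symm.trans hl) hne
    · simp

/-- The key inequality: the heads of two linkage paths are far apart on the longest path. -/
theorem gap (G : SimpleGraph V) (P : List V) (hP : MaxP G P) (β : Set V)
    (hβP : ∀ x ∈ P, x ∉ β) (t : ℕ)
    (hβ : ∀ w1 ∈ β, ∀ w2 ∈ β, w1 ≠ w2 →
      ∃ l, IsPB G l w1 w2 ∧ (∀ x ∈ l, x ∈ β) ∧ t + 1 ≤ l.length)
    {q1 q2 : List V} {w1 w2 : V} {a b : ℕ} (hab : a < b) (hb : b < P.length)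
    (h1 : IsPB G q1 (P[a]'(by omega)) w1) (h2 : IsPB G q2 P[b] w2) (hw1 : w1 ∈ β) (hw2 : w2 ∈ β)
    (hq1 : ∀ x ∈ q1.tail, x ∉ P) (hq2 : ∀ x ∈ q2.tail, x ∉ P)
    (hr1 : ∀ x ∈ q1.dropLast, x ∉ β) (hr2 : ∀ x ∈ q2.dropLast, x ∉ β)
    (hdis : List.Disjoint q1 q2) : a + t + 2 ≤ b := by
  have hnd := hP.isP.2.2
  have hne : w1 ≠ w2 := by
    rintro rfl
    exact hdis (last_mem h1.2.2) (last_mem h2.2.2)
  obtain ⟨l, hl, hlβ, hlt⟩ := hβ w1 hw1 w2 hw2 hne
  have ha : a < P.length := by omega
  have hq1P : ∀ x ∈ q1, x ∈ P → x = P[a] := by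
    intro x hx hxP
    by_contra hxa
    exact hq1 x (not_mem_tail h1.2.1 hx hxa) hxP
  have hq2P : ∀ x ∈ q2, x ∈ P → x = P[b] := by
    intro x hx hxP
    by_contra hxa
    exact hq2 x (not_mem_tail h2.2.1 hx hxa) hxP
  have hq1β : ∀ x ∈ q1, x ∈ β → x = w1 := by
    intro x hx hxβ
    by_contra hxa
    exact hr1 x (mem_dropLast' h1.2.2 hx hxa) hxβ
  have hq2β : ∀ x ∈ q2, x ∈ β → x = w2 := by
    intro x hx hxβ
    by_contra hxa
    exact hr2 x (mem_dropLast' h2.2.2 hx hxa) hxβ
  have htake : ∀ x ∈ P.take (a + 1), x ∉ P.drop b := by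
    intro x hx hx2
    have h3 : P.take (a + 1) ++ P.drop (a + 1) = P := List.take_append_drop _ _
    rw [← h3, List.nodup_append] at hnd
    refine hnd.2.2 x hx x ?_ rfl
    have h4 : P.drop b = (P.drop (a + 1)).drop (b - (a + 1)) := by
      rw [List.drop_drop]
      congr 1
      omega
    rw [h4] at hx2
    exact List.mem_of_mem_drop hx2
  have hatake : P[a] ∈ P.take (a + 1) := last_mem (take_pb hP.isP ha).2.2
  have hbdrop : P[b] ∈ P.drop b := head_mem (drop_pb hP.isP hb).2.1
  have e1 := take_pb hP.isP ha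
  have e2 := glue e1 h1 (fun x hx hx2 => hq1P x hx2 (List.mem_of_mem_take hx))
  have e3 := glue e2 hl (fun x hx hx2 => by
    rcases mem_glue hx with hx | hx
    · exact absurd (hlβ x hx2) (hβP x (List.mem_of_mem_take hx))
    · exact hq1β x hx (hlβ x hx2))
  have e4 := glue e3 (rev h2) (fun x hx hx2 => by
    rw [List.mem_reverse] at hx2
    rcases mem_glue hx with hx | hx
    · rcases mem_glue hx with hx | hx
      · have := hq2P x hx2 (List.mem_of_mem_take hx)
        subst this
        exact absurd hbdrop (htake _ hx)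
      · exact absurd hx2 (hdis hx)
    · exact hq2β x hx2 (hlβ x hx))
  have e5 := glue e4 (drop_pb hP.isP hb) (fun x hx hx2 => by
    rcases mem_glue hx with hx | hx
    · rcases mem_glue hx with hx | hx
      · rcases mem_glue hx with hx | hx
        · exact absurd hx2 (htake _ hx)
        · have := hq1P x hx (List.mem_of_mem_drop hx2)
          subst this
          exact absurd hx2 (htake _ hatake)
      · exact absurd (hlβ x hx) (hβP x (List.mem_of_mem_drop hx2))
    · rw [List.mem_reverse] at hx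
      exact hq2P x hx (List.mem_of_mem_drop hx2))
  have hlen := hP.ends _ e5.1
    (by rw [e5.2.1, List.head?_eq_getElem?]; simp)
    (by rw [e5.2.2, List.getLast?_eq_getElem?]; simp)
  have g5 := glue_length (l1 := ((P.take (a + 1) ++ q1.tail) ++ l.tail) ++ q2.reverse.tail)
    (l2 := P.drop b) (drop_pb hP.isP hb).1.1
  have g4 := glue_length (l1 := (P.take (a + 1) ++ q1.tail) ++ l.tail)
    (l2 := q2.reverse) (rev h2).1.1
  have g3 := glue_length (l1 := P.take (a + 1) ++ q1.tail) (l2 := l) hl.1.1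
  have g2 := glue_length (l1 := P.take (a + 1)) (l2 := q1) h1.1.1
  have t1 : 2 ≤ q1.length := two_le h1.2.1 h1.2.2 (by
    rintro h
    exact hβP _ (List.getElem_mem ha) (h ▸ hw1))
  have t2 : 2 ≤ q2.length := two_le h2.2.1 h2.2.2 (by
    rintro h
    exact hβP _ (List.getElem_mem hb) (h ▸ hw2))
  rw [List.length_reverse] at g4
  rw [List.length_drop] at g5
  rw [List.length_take, min_eq_left (by omega)] at g2
  omega

end Reroute

/-- M4: rerouting. -/
theorem reroute {V : Type*} [Finite V] (G : SimpleGraph V) (P : List V) (hP : MaxP G P)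
    (β : Set V) (hβP : ∀ x ∈ P, x ∉ β) (t : ℕ)
    (hβ : ∀ w1 ∈ β, ∀ w2 ∈ β, w1 ≠ w2 →
      ∃ l, IsPB G l w1 w2 ∧ (∀ x ∈ l, x ∈ β) ∧ t + 1 ≤ l.length)
    (F : Set V) (m : ℕ) (Q : Fin m → List V) (hQ : Linkage G F {x | x ∈ P ∧ x ∈ F} β m Q)
    (C : ℕ → Set V) (hC : ∀ i, C i ⊆ C (i + 1))
    (hC' : ∀ i, ∀ u ∈ C i, ∀ v, G.Adj u v → v ∈ C (i + 1))
    (hFC : ∀ x ∈ P, x ∈ F → x ∈ C 0) (R : ℕ) :
    (m - 1) * min R t ≤ (P.toFinset.filter (fun v => v ∈ C R)).card := by
  obtain ⟨hQ1, hQ2⟩ := hQ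
  have hnd := hP.isP.2.2
  have hch := hP.isP.2.1
  have hpos : ∀ i, ∃ (a : ℕ) (ha : a < P.length), (Q i).head? = some P[a] ∧ P[a] ∈ F := by
    intro i
    obtain ⟨-, -, ⟨p, hp, hp2⟩, -⟩ := hQ1 i
    obtain ⟨hpP, hpF⟩ := hp
    obtain ⟨a, ha, rfl⟩ := List.getElem_of_mem hpP
    exact ⟨a, ha, hp2, hpF⟩
  choose a ha hah haF using hpos
  have hlast : ∀ i, ∃ w ∈ β, (Q i).getLast? = some w := fun i => (hQ1 i).2.2.2.1
  choose w hw hwl using hlast
  have htail : ∀ i, ∀ x ∈ (Q i).tail, x ∉ P := by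
    intro i x hx hxP
    exact (hQ1 i).2.2.2.2.1 x hx ⟨hxP, (hQ1 i).2.1 x (List.mem_of_mem_tail hx)⟩
  have hgap : ∀ i j, i ≠ j → a i < a j → a i + t + 2 ≤ a j := by
    intro i j hij hlt
    exact Reroute.gap G P hP β hβP t hβ hlt (ha j) ⟨(hQ1 i).1, hah i, hwl i⟩
      ⟨(hQ1 j).1, hah j, hwl j⟩ (hw i) (hw j) (htail i) (htail j)
      (hQ1 i).2.2.2.2.2 (hQ1 j).2.2.2.2.2 (hQ2 i j hij)
  have hinj : ∀ i j, i ≠ j → a i ≠ a j := by
    intro i j hij h
    have h1 := Reroute.head_mem (hah i)
    have h2 := Reroute.head_mem (hah j)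
    have h3 : P[a i]'(ha i) = P[a j]'(ha j) := by simp only [h]
    rw [h3] at h1
    exact hQ2 i j hij h1 h2
  rcases Nat.eq_zero_or_pos m with hm | hm
  · subst hm
    simp
  have : Nonempty (Fin m) := ⟨⟨0, hm⟩⟩
  obtain ⟨i0, -, hi0⟩ := Finset.exists_max_image (Finset.univ : Finset (Fin m)) a
    Finset.univ_nonempty
  have hbd : ∀ i, i ≠ i0 → a i + t + 2 ≤ a i0 := by
    intro i hi
    have h1 := hi0 i (Finset.mem_univ _)
    exact hgap i i0 hi (lt_of_le_of_ne h1 (hinj i i0 hi))
  have hCR : ∀ j k, j ≤ k → C j ⊆ C k := by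
    intro j k hjk
    induction hjk with
    | refl => exact le_rfl
    | step _ ih => exact ih.trans (hC _)
  have hCj : ∀ i, ∀ j, (h : a i + j < P.length) → P[a i + j] ∈ C j := by
    intro i j
    induction j with
    | zero =>
      intro h
      exact hFC _ (List.getElem_mem _) (haF i)
    | succ j ih =>
      intro h
      have h1 := ih (by omega)
      have h2 := (List.isChain_iff_getElem.1 hch) (a i + j) (by omega)
      exact hC' j _ h1 _ h2
  have hcard : ((Finset.univ.erase i0) ×ˢ (Finset.range (min R t))).card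
      = (m - 1) * min R t := by
    rw [Finset.card_product, Finset.card_erase_of_mem (Finset.mem_univ _), Finset.card_univ,
      Fintype.card_fin, Finset.card_range]
  rw [← hcard]
  refine Finset.card_le_card_of_injOn
    (fun p : Fin m × ℕ => P.getD (a p.1 + p.2) (P[a i0]'(ha i0))) ?_ ?_
  · rintro ⟨i, j⟩ hij
    rw [Finset.mem_coe, Finset.mem_product, Finset.mem_erase, Finset.mem_range] at hij
    obtain ⟨⟨hi, -⟩, hj⟩ := hij
    simp only at hi hj
    have h1 := hbd i hi
    have h2 := ha i0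
    have h3 : a i + j < P.length := by
      have := min_le_right R t
      omega
    rw [Finset.mem_coe, Finset.mem_filter, List.mem_toFinset]
    simp only
    rw [List.getD_eq_getElem _ _ h3]
    exact ⟨List.getElem_mem _, hCR j R (by have := min_le_left R t; omega) (hCj i j h3)⟩
  · rintro ⟨i, j⟩ hij ⟨i', j'⟩ hij' heq
    rw [Finset.mem_coe, Finset.mem_product, Finset.mem_erase, Finset.mem_range] at hij hij'
    obtain ⟨⟨hi, -⟩, hj⟩ := hij
    obtain ⟨⟨hi', -⟩, hj'⟩ := hij'
    simp only at hi hj hi' hj' heq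
    have hR := min_le_right R t
    have h1 := hbd i hi
    have h1' := hbd i' hi'
    have h2 := ha i0
    have h3 : a i + j < P.length := by omega
    have h3' : a i' + j' < P.length := by omega
    rw [List.getD_eq_getElem _ _ h3, List.getD_eq_getElem _ _ h3'] at heq
    have h4 : a i + j = a i' + j' := (List.Nodup.getElem_inj_iff hnd).1 heq
    have h5 : i = i' := by
      by_contra hne
      rcases lt_trichotomy (a i) (a i') with h | h | h
      · have := hgap i i' hne h
        omega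
      · exact hinj i i' hne h
      · have := hgap i' i (Ne.symm hne) h
        omega
    subst h5
    have h6 : j = j' := by omega
    rw [h6]

end Pool.Agent.Lib.MP_688fd0_co.LP
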