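import Pool.Agent.Lib.MP_688fd0_co.LP.Defs

/-!
Balls and isoperimetric inequalities in Cayley graphs of finite groups.
-/

set_option autoImplicit false
set_option linter.unusedSectionVars false

namespace Pool.Agent.Lib.MP_688fd0_co.LP

open Classical Pointwise Finset

variable {Γ : Type*} [Group Γ]

/-- `T` contains `1` and is closed under inverses. -/
structure Symm (T : Finset Γ) : Prop where
  one : (1 : Γ) ∈ T
  inv : ∀ x ∈ T, x⁻¹ ∈ T

/-- the Cayley graph of `T` -/
def cay (T : Finset Γ) : SimpleGraph Γ := SimpleGraph.fromRel (fun x y => x⁻¹ * y ∈ T)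

lemma cay_adj {T : Finset Γ} (hT : Symm T) {x y : Γ} : (cay T).Adj x y ↔ x ≠ y ∧ x⁻¹ * y ∈ T := by
  unfold cay
  rw [SimpleGraph.fromRel_adj]
  constructor
  · rintro ⟨h1, h2 | h2⟩
    · exact ⟨h1, h2⟩
    · refine ⟨h1, ?_⟩
      have := hT.inv _ h2
      simpa using this
  · rintro ⟨h1, h2⟩
    exact ⟨h1, Or.inl h2⟩

lemma pow_mono_T {T : Finset Γ} (hT : Symm T) {r s : ℕ} (h : r ≤ s) : T ^ r ⊆ T ^ s :=
  Finset.pow_subset_pow_right hT.one h

lemma inv_mem_pow {T : Finset Γ} (hT : Symm T) {r : ℕ} {x : Γ} (hx : x ∈ T ^ r) : x⁻¹ ∈ T ^ r := by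
  induction r generalizing x with
  | zero => simp at hx ⊢; exact hx
  | succ r ih =>
    rw [pow_succ, Finset.mem_mul] at hx
    obtain ⟨y, hy, t, ht, rfl⟩ := hx
    rw [pow_succ', Finset.mem_mul]
    exact ⟨t⁻¹, hT.inv _ ht, y⁻¹, ih hy, by simp⟩

variable [Fintype Γ]

/-- the ball of radius `r` about `x` -/
noncomputable def ball (T : Finset Γ) (x : Γ) (r : ℕ) : Finset Γ := Finset.univ.filter (fun y => x⁻¹ * y ∈ T ^ r)

lemma mem_ball {T : Finset Γ} {x y : Γ} {r : ℕ} : y ∈ ball T x r ↔ x⁻¹ * y ∈ T ^ r := by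
  simp [ball]

lemma card_ball (T : Finset Γ) (x : Γ) (r : ℕ) : (ball T x r).card = (T ^ r).card := by
  have : ball T x r = (T ^ r).image (fun g => x * g) := by
    ext y
    rw [mem_ball, Finset.mem_image]
    constructor
    · intro h; exact ⟨_, h, by simp⟩
    · rintro ⟨g, hg, rfl⟩; simpa using hg
  rw [this, Finset.card_image_of_injective _ (mul_right_injective x)]

lemma ball_mono {T : Finset Γ} (hT : Symm T) (x : Γ) {r s : ℕ} (h : r ≤ s) : ball T x r ⊆ ball T x s := by
  intro y hy
  rw [mem_ball] at hy ⊢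
  exact pow_mono_T hT h hy

lemma b_mono {T : Finset Γ} (hT : Symm T) {r s : ℕ} (h : r ≤ s) : (T ^ r).card ≤ (T ^ s).card :=
  Finset.card_le_card (pow_mono_T hT h)

lemma b_pos {T : Finset Γ} (hT : Symm T) (r : ℕ) : 1 ≤ (T ^ r).card := by
  have : (1 : Γ) ∈ T ^ r := by
    have := pow_mono_T hT (Nat.zero_le r)
    exact this (by simp)
  exact Finset.card_pos.2 ⟨_, this⟩

lemma self_mem_ball {T : Finset Γ} (hT : Symm T) (x : Γ) (r : ℕ) : x ∈ ball T x r := by
  rw [mem_ball]
  have := pow_mono_T hT (Nat.zero_le r)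
  exact this (by simp)

lemma ball_symm {T : Finset Γ} (hT : Symm T) {x y : Γ} {r : ℕ} (h : y ∈ ball T x r) : x ∈ ball T y r := by
  rw [mem_ball] at h ⊢
  have := inv_mem_pow hT h
  simpa using this

lemma ball_comm {T : Finset Γ} (hT : Symm T) {x y : Γ} {r : ℕ} : y ∈ ball T x r ↔ x ∈ ball T y r :=
  ⟨ball_symm hT, ball_symm hT⟩

lemma ball_trans {T : Finset Γ} {x y z : Γ} {r s : ℕ} (h1 : y ∈ ball T x r)
    (h2 : z ∈ ball T y s) : z ∈ ball T x (r + s) := by
  rw [mem_ball] at *
  rw [pow_add, Finset.mem_mul]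
  exact ⟨_, h1, _, h2, by group⟩

lemma ball_trans' {T : Finset Γ} (hT : Symm T) {x y z : Γ} {r s q : ℕ} (h1 : y ∈ ball T x r)
    (h2 : z ∈ ball T y s) (h : r + s ≤ q) : z ∈ ball T x q :=
  ball_mono hT x h (ball_trans h1 h2)

lemma ball_split {T : Finset Γ} {x z : Γ} {r s : ℕ} (h : z ∈ ball T x (r + s)) :
    ∃ y ∈ ball T x r, z ∈ ball T y s := by
  rw [mem_ball, pow_add, Finset.mem_mul] at h
  obtain ⟨g, hg, g', hg', h⟩ := h
  refine ⟨x * g, ?_, ?_⟩
  · rw [mem_ball]; simpa using hg
  · rw [mem_ball]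
    have : (x * g)⁻¹ * z = g' := by
      rw [mul_inv_rev, mul_assoc, ← h]; group
    rw [this]; exact hg'

lemma ball_one_iff {T : Finset Γ} (hT : Symm T) {x y : Γ} :
    y ∈ ball T x 1 ↔ x = y ∨ (cay T).Adj x y := by
  rw [mem_ball, pow_one, cay_adj hT]
  constructor
  · intro h
    by_cases hxy : x = y
    · exact Or.inl hxy
    · exact Or.inr ⟨hxy, h⟩
  · rintro (rfl | ⟨_, h⟩)
    · simpa using hT.one
    · exact h

lemma adj_mem_ball {T : Finset Γ} (hT : Symm T) {x y : Γ} (h : (cay T).Adj x y) : y ∈ ball T x 1 :=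
  (ball_one_iff hT).2 (Or.inr h)

lemma ball_adj {T : Finset Γ} (hT : Symm T) {x y z : Γ} {r : ℕ} (h : y ∈ ball T x r)
    (h' : (cay T).Adj y z) : z ∈ ball T x (r + 1) :=
  ball_trans h (adj_mem_ball hT h')

/-- outer vertex boundary -/
def nb (T : Finset Γ) (W : Set Γ) : Set Γ := {y | y ∉ W ∧ ∃ u ∈ W, (cay T).Adj u y}

/-- exit counting -/
lemma exit_count {T : Finset Γ} (hT : Symm T) (W : Set Γ) (z : Γ) (s k : ℕ) (g : Γ) (hg : g ∈ T ^ k) :
    ((ball T z s).filter (fun u => u ∈ W ∧ u * g ∉ W)).card ≤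
      k * ((ball T z (s + k)).filter (fun y => y ∈ nb T W)).card := by
  induction k generalizing g with
  | zero =>
    simp at hg
    subst hg
    simp
  | succ k ih =>
    rw [pow_succ, Finset.mem_mul] at hg
    obtain ⟨g', hg', t, ht, rfl⟩ := hg
    have h1 := ih g' hg'
    have hsub : (ball T z s).filter (fun u => u ∈ W ∧ u * (g' * t) ∉ W) ⊆
        (ball T z s).filter (fun u => u ∈ W ∧ u * g' ∉ W) ∪
        (ball T z s).filter (fun u => u * g' ∈ W ∧ u * (g' * t) ∉ W) := by
      intro u hu
      simp only [Finset.mem_filter, Finset.mem_union] at hu ⊢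
      by_cases h : u * g' ∈ W
      · right; exact ⟨hu.1, h, hu.2.2⟩
      · left; exact ⟨hu.1, hu.2.1, h⟩
    have h2 : ((ball T z s).filter (fun u => u * g' ∈ W ∧ u * (g' * t) ∉ W)).card ≤
        ((ball T z (s + (k + 1))).filter (fun y => y ∈ nb T W)).card := by
      apply Finset.card_le_card_of_injOn (fun u => u * (g' * t))
      · intro u hu
        simp only [Finset.coe_filter, Set.mem_ofPred_eq] at hu ⊢
        refine ⟨?_, hu.2.2, u * g', hu.2.1, ?_⟩
        · refine ball_trans hu.1 ?_
          rw [mem_ball, pow_succ, Finset.mem_mul]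
          exact ⟨g', hg', t, ht, by group⟩
        · rw [cay_adj hT]
          refine ⟨?_, ?_⟩
          · intro h
            apply hu.2.2
            rw [← h]; exact hu.2.1
          · have : (u * g')⁻¹ * (u * (g' * t)) = t := by group
            rw [this]; exact ht
      · intro a _ b _ h
        simpa using h
    have h3 : ((ball T z (s + k)).filter (fun y => y ∈ nb T W)).card ≤
        ((ball T z (s + (k + 1))).filter (fun y => y ∈ nb T W)).card := by
      apply Finset.card_le_card
      apply Finset.filter_subset_filter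
      exact ball_mono hT z (by omega)
    calc _ ≤ _ := Finset.card_le_card hsub
      _ ≤ _ := Finset.card_union_le _ _
      _ ≤ k * ((ball T z (s + k)).filter (fun y => y ∈ nb T W)).card +
          ((ball T z (s + (k + 1))).filter (fun y => y ∈ nb T W)).card := Nat.add_le_add h1 h2
      _ ≤ k * ((ball T z (s + (k + 1))).filter (fun y => y ∈ nb T W)).card +
          ((ball T z (s + (k + 1))).filter (fun y => y ∈ nb T W)).card :=
            Nat.add_le_add_right (Nat.mul_le_mul_left _ h3) _
      _ = _ := by ring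

/-- relative isoperimetric inequality (L2) -/
theorem rel_iso {T : Finset Γ} (hT : Symm T) (W : Set Γ) (z : Γ) (s : ℕ) :
    ((ball T z s).filter (fun u => u ∈ W)).card * ((ball T z s).filter (fun u => u ∉ W)).card ≤
      2 * s * (T ^ (2 * s)).card * ((ball T z (3 * s)).filter (fun y => y ∈ nb T W)).card := by
  have h1 : ((ball T z s).filter (fun u => u ∈ W)).card * ((ball T z s).filter (fun u => u ∉ W)).card ≤
      ∑ g ∈ T ^ (2 * s), ((ball T z s).filter (fun u => u ∈ W ∧ u * g ∉ W)).card := by
    rw [← Finset.card_product, ← Finset.card_sigma]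
    apply Finset.card_le_card_of_injOn (fun p => (⟨p.1⁻¹ * p.2, p.1⟩ : (_ : Γ) × Γ))
    · rintro ⟨u, v⟩ h
      simp only [Finset.coe_product, Finset.coe_filter, Set.mem_prod, Set.mem_ofPred_eq] at h
      simp only [Finset.coe_sigma, Set.mem_sigma_iff, Finset.mem_coe, Finset.mem_filter]
      refine ⟨?_, h.1.1, h.1.2, ?_⟩
      · have := ball_trans (ball_symm hT h.1.1) h.2.1
        rw [mem_ball] at this
        rw [two_mul]; exact this
      · simpa using h.2.2
    · rintro ⟨u, v⟩ _ ⟨u', v'⟩ _ h
      simp only [Sigma.mk.injEq, heq_eq_eq] at h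
      obtain ⟨h1, rfl⟩ := h
      simp at h1
      rw [h1]
  refine h1.trans ?_
  calc _ ≤ ∑ g ∈ T ^ (2 * s), (2 * s) * ((ball T z (3 * s)).filter (fun y => y ∈ nb T W)).card := by
        apply Finset.sum_le_sum
        intro g hg
        have := exit_count hT W z s (2 * s) g hg
        rwa [show s + 2 * s = 3 * s by ring] at this
    _ = _ := by rw [Finset.sum_const, smul_eq_mul]; ring

/-- isoperimetric inequality for small sets (L1) -/
theorem small_iso {T : Finset Γ} (hT : Symm T) (W : Finset Γ) (h : ℕ) (hW : 2 * W.card ≤ (T ^ h).card) :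
    W.card ≤ 2 * h * (Finset.univ.filter (fun y => y ∈ nb T (W : Set Γ))).card := by
  by_cases hne : W.card = 0
  · omega
  -- some g moves half of W out of W
  have hex : ∃ g ∈ T ^ h, W.card ≤ 2 * (W.filter (fun u => u * g ∉ W)).card := by
    by_contra hcon
    push Not at hcon
    have h1 : ∑ g ∈ T ^ h, (W.filter (fun u => u * g ∈ W)).card ≤ W.card * W.card := by
      rw [← Finset.card_product, ← Finset.card_sigma]
      apply Finset.card_le_card_of_injOn (fun p => (p.2, p.2 * p.1))
      · rintro ⟨g, u⟩ h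
        simp only [Finset.coe_sigma, Set.mem_sigma_iff, Finset.mem_coe, Finset.mem_filter] at h
        simp only [Finset.coe_product, Set.mem_prod, Finset.mem_coe]
        exact ⟨h.2.1, h.2.2⟩
      · rintro ⟨g, u⟩ _ ⟨g', u'⟩ _ h
        simp only [Prod.mk.injEq] at h
        obtain ⟨rfl, h2⟩ := h
        have : g = g' := by simpa using h2
        rw [this]
    have h2 : ∀ g ∈ T ^ h, W.card < 2 * (W.filter (fun u => u * g ∈ W)).card := by
      intro g hg
      have h3 := hcon g hg
      have h4 := Finset.card_filter_add_card_filter_not (s := W) (fun u => u * g ∈ W)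
      omega
    have h3 : (T ^ h).card * W.card < ∑ g ∈ T ^ h, 2 * (W.filter (fun u => u * g ∈ W)).card := by
      rw [← smul_eq_mul, ← Finset.sum_const]
      apply Finset.sum_lt_sum_of_nonempty
      · exact Finset.card_pos.1 (b_pos hT h)
      · exact h2
    rw [← Finset.mul_sum] at h3
    have h5 : 2 * (W.card * W.card) ≤ (T ^ h).card * W.card := by
      calc 2 * (W.card * W.card) = (2 * W.card) * W.card := by ring
        _ ≤ _ := Nat.mul_le_mul_right _ hW
    omega
  obtain ⟨g, hg, hgW⟩ := hex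
  have hkey : ∀ (k : ℕ) (g : Γ), g ∈ T ^ k → (W.filter (fun u => u * g ∉ W)).card ≤
      k * (Finset.univ.filter (fun y => y ∈ nb T (W : Set Γ))).card := by
    intro k
    induction k with
    | zero => intro g hg; simp at hg; subst hg; simp
    | succ k ih =>
      intro g hg
      rw [pow_succ, Finset.mem_mul] at hg
      obtain ⟨g', hg', t, ht, rfl⟩ := hg
      have h1 := ih g' hg'
      have hsub : W.filter (fun u => u * (g' * t) ∉ W) ⊆
          W.filter (fun u => u * g' ∉ W) ∪
          Finset.univ.filter (fun u => u * g' ∈ W ∧ u * (g' * t) ∉ W) := by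
        intro u hu
        simp only [Finset.mem_filter, Finset.mem_union, Finset.mem_univ, true_and] at hu ⊢
        by_cases h : u * g' ∈ W
        · right; exact ⟨h, hu.2⟩
        · left; exact ⟨hu.1, h⟩
      have h2 : (Finset.univ.filter (fun u => u * g' ∈ W ∧ u * (g' * t) ∉ W)).card ≤
          (Finset.univ.filter (fun y => y ∈ nb T (W : Set Γ))).card := by
        apply Finset.card_le_card_of_injOn (fun u => u * (g' * t))
        · intro u hu
          simp only [Finset.coe_filter, Finset.mem_univ, true_and, Set.mem_ofPred_eq] at hu ⊢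
          refine ⟨by simpa using hu.2, u * g', by simpa using hu.1, ?_⟩
          rw [cay_adj hT]
          refine ⟨?_, ?_⟩
          · intro h
            apply hu.2
            rw [← h]; exact hu.1
          · have : (u * g')⁻¹ * (u * (g' * t)) = t := by group
            rw [this]; exact ht
        · intro a _ b _ h
          simpa using h
      calc _ ≤ _ := Finset.card_le_card hsub
        _ ≤ _ := Finset.card_union_le _ _
        _ ≤ k * (Finset.univ.filter (fun y => y ∈ nb T (W : Set Γ))).card +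
            (Finset.univ.filter (fun y => y ∈ nb T (W : Set Γ))).card := Nat.add_le_add h1 h2
        _ = _ := by ring
  have := hkey h g hg
  calc W.card ≤ 2 * (W.filter (fun u => u * g ∉ W)).card := hgW
    _ ≤ 2 * (h * (Finset.univ.filter (fun y => y ∈ nb T (W : Set Γ))).card) := Nat.mul_le_mul_left _ this
    _ = _ := by ring

end Pool.Agent.Lib.MP_688fd0_co.LP
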