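import Mathlib

/-!
Long paths in Cayley graphs: basic definitions (abstract graph part).
See Blueprint.md in this folder.
-/

set_option autoImplicit false

namespace Pool.Agent.Lib.MP_688fd0_co.LP

open Classical

variable {V : Type*}

/-- `IsP G l`: the list `l` is the vertex list of a (nonempty) simple path of `G`. -/
def IsP (G : SimpleGraph V) (l : List V) : Prop := l ≠ [] ∧ l.IsChain G.Adj ∧ l.Nodup

/-- `IsPB G l a b`: simple path with first vertex `a` and last vertex `b`. -/
def IsPB (G : SimpleGraph V) (l : List V) (a b : V) : Prop :=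
  IsP G l ∧ l.head? = some a ∧ l.getLast? = some b

/-- `Conn G F u v`: there is a walk from `u` to `v` in `G` all of whose vertices lie in `F`. -/
def Conn (G : SimpleGraph V) (F : Set V) (u v : V) : Prop :=
  u ∈ F ∧ Relation.ReflTransGen (fun a b => G.Adj a b ∧ b ∈ F) u v

/-- component of `u` inside `F` (empty if `u ∉ F`). -/
def comp (G : SimpleGraph V) (F : Set V) (u : V) : Set V := {v | Conn G F u v}

/-- `A` misses less than a quarter of `θ` of the reference set `B0`. -/
def Big (B0 : Finset V) (θ : ℕ) (A : Set V) : Prop := 4 * (B0.filter (fun v => v ∉ A)).card < θ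

/-- `w` lies in the big component of `F`. -/
def BC (G : SimpleGraph V) (B0 : Finset V) (θ : ℕ) (F : Set V) (w : V) : Prop :=
  Big B0 θ (comp G F w)

/-- the block of `F` to which the big components point. -/
def Block (G : SimpleGraph V) (B0 : Finset V) (θ : ℕ) (F : Set V) : Set V :=
  {w | ∀ v, v ≠ w → BC G B0 θ (F \ {v}) w}

/-- a longest path -/
def IsLongest (G : SimpleGraph V) (P : List V) : Prop :=
  IsP G P ∧ ∀ l, IsP G l → l.length ≤ P.length

/-- `Cyc G c`: the list `c` is the vertex list of a cycle of `G` (at least three vertices, the last one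
adjacent to the first one). -/
def Cyc (G : SimpleGraph V) (c : List V) : Prop :=
  IsP G c ∧ 3 ≤ c.length ∧ ∃ a b, c.head? = some a ∧ c.getLast? = some b ∧ G.Adj b a

/-- `P` is a simple path, no longer path has the same ends, and no cycle is longer.
(True for a longest path and for a longest cycle.) -/
structure MaxP (G : SimpleGraph V) (P : List V) : Prop where
  isP : IsP G P
  ends : ∀ l, IsP G l → l.head? = P.head? → l.getLast? = P.getLast? → l.length ≤ P.length
  cyc : ∀ c, Cyc G c → c.length ≤ P.length

/-- `m` pairwise disjoint paths from `A` to `B` inside `F`, meeting `A` only in their first and `B` only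
in their last vertex. -/
def Linkage (G : SimpleGraph V) (F A B : Set V) (m : ℕ) (Q : Fin m → List V) : Prop :=
  (∀ i, IsP G (Q i) ∧ (∀ x ∈ Q i, x ∈ F) ∧ (∃ a ∈ A, (Q i).head? = some a) ∧
      (∃ b ∈ B, (Q i).getLast? = some b) ∧ (∀ x ∈ (Q i).tail, x ∉ A) ∧ (∀ x ∈ (Q i).dropLast, x ∉ B)) ∧
    ∀ i j, i ≠ j → List.Disjoint (Q i) (Q j)

end Pool.Agent.Lib.MP_688fd0_co.LP
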