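import Pool.Agent.Lib.MP_688fd0_co.LP.ConnBasic

/-!
Top lemma (section 6 of the Blueprint), graph part.
-/

set_option autoImplicit false

namespace Pool.Agent.Lib.MP_688fd0_co.LP

open Classical Finset

/-- statement of module M1 -/
def MengerStmt (V : Type*) : Prop :=
  ∀ (G : SimpleGraph V) (F A B : Set V) (k : ℕ),
    (∀ X : Finset V, X.card < k → ∃ a ∈ A, ∃ b ∈ B, Conn G (F \ ↑X) a b) →
    ∃ Q : Fin k → List V, Linkage G F A B k Q

/-- statement of `exists_big` -/
def ExistsBigStmt (V : Type*) : Prop :=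
  ∀ (G : SimpleGraph V) (B0 : Finset V) (θ : ℕ), θ ≤ B0.card → ∀ F : Set V,
    (∀ W : Set V, W ⊆ F → (∀ u ∈ W, ∀ v ∈ F, G.Adj u v → v ∈ W) →
      4 * (B0.filter (fun v => v ∈ W)).card < θ ∨ Big B0 θ W) →
    Big B0 θ F → ∃ u, BC G B0 θ F u

/-- statement of `block_hit` -/
def BlockHitStmt (V : Type*) : Prop :=
  ∀ (G : SimpleGraph V) (B0 : Finset V) (θ : ℕ), θ ≤ B0.card → ∀ F X : Set V,
    (∀ v, ∃ u, BC G B0 θ (F \ {v}) u) → (∃ u, BC G B0 θ (F \ X) u) →
    ∃ w ∈ Block G B0 θ F, BC G B0 θ (F \ X) w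

/-- statement of module M3 -/
def LongInBlockStmt (V : Type*) : Prop :=
  ∀ (G : SimpleGraph V) (B0 : Finset V) (θ : ℕ), θ ≤ B0.card → ∀ (F : Set V) (L : ℕ),
    (∀ l : List V, IsP G l → (∀ x ∈ l, x ∈ F) → l.length ≤ L + 1 → ∃ u, BC G B0 θ (F \ {x | x ∈ l}) u) →
    (∀ v, ∃ u, BC G B0 θ (F \ {v}) u) →
    ∀ {w1 w2 : V}, w1 ∈ Block G B0 θ F → w2 ∈ Block G B0 θ F → w1 ≠ w2 →
    ∃ l, IsPB G l w1 w2 ∧ (∀ x ∈ l, x ∈ Block G B0 θ F) ∧ L + 3 ≤ 2 * l.length

/-- statement of `cycle_in_block` -/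
def CycleInBlockStmt (V : Type*) : Prop :=
  ∀ (G : SimpleGraph V) (B0 : Finset V) (θ : ℕ), θ ≤ B0.card → ∀ (F : Set V) (L : ℕ),
    (∀ l : List V, IsP G l → (∀ x ∈ l, x ∈ F) → l.length ≤ L + 1 → ∃ u, BC G B0 θ (F \ {x | x ∈ l}) u) →
    (∀ v, ∃ u, BC G B0 θ (F \ {v}) u) →
    (Block G B0 θ F).Nonempty → ∃ c, Cyc G c ∧ (∀ x ∈ c, x ∈ Block G B0 θ F) ∧ L < c.length

/-- statement of module M4 -/
def RerouteStmt (V : Type*) : Prop :=
  ∀ (G : SimpleGraph V) (P : List V), MaxP G P → ∀ β : Set V, (∀ x ∈ P, x ∉ β) → ∀ t : ℕ,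
    (∀ w1 ∈ β, ∀ w2 ∈ β, w1 ≠ w2 → ∃ l, IsPB G l w1 w2 ∧ (∀ x ∈ l, x ∈ β) ∧ t + 1 ≤ l.length) →
    ∀ (F : Set V) (m : ℕ) (Q : Fin m → List V), Linkage G F {x | x ∈ P ∧ x ∈ F} β m Q →
    ∀ C : ℕ → Set V, (∀ i, C i ⊆ C (i+1)) → (∀ i, ∀ u ∈ C i, ∀ v, G.Adj u v → v ∈ C (i+1)) →
    (∀ x ∈ P, x ∈ F → x ∈ C 0) → ∀ R : ℕ,
    (m - 1) * min R t ≤ (P.toFinset.filter (fun v => v ∈ C R)).card

variable {V : Type*} [Fintype V]

/-- global isoperimetric inequality -/
def Iso (G : SimpleGraph V) (D : ℕ) : Prop :=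
  ∀ W : Finset V, W.card * (Fintype.card V - W.card) ≤
      Fintype.card V * D * (univ.filter (fun v => v ∉ W ∧ ∃ u ∈ W, G.Adj u v)).card

theorem closed_small (G : SimpleGraph V) (D : ℕ) (hiso : Iso G D) (S Y : Set V)
    (φ : V → ℕ) (hφ : ∀ u v, G.Adj u v → φ v ≤ φ u + 1) (hφY : ∀ y ∈ Y, φ y = 0) (r0 : ℕ)
    (hS : (univ.filter (fun v => v ∈ S)).card * (32 * D) < Fintype.card V)
    (h1 : (univ.filter (fun v => φ v ≤ r0)).card * (32 * D) < (r0 + 1) * Fintype.card V)
    (h2 : 8 * (univ.filter (fun v => φ v ≤ r0)).card ≤ Fintype.card V)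
    (W : Set V) (_hWF : W ⊆ Sᶜ \ Y) (hWc : ∀ u ∈ W, ∀ v ∈ Sᶜ \ Y, G.Adj u v → v ∈ W) :
    4 * (univ.filter (fun v => v ∈ W)).card < Fintype.card V ∨ Big univ (Fintype.card V) W := by
  set n := Fintype.card V with hn
  by_contra hcon
  push Not at hcon
  obtain ⟨hc1, hc2⟩ := hcon
  unfold Big at hc2
  push Not at hc2
  have hpos : 0 < n := lt_of_le_of_lt (Nat.zero_le _) hS
  have hsplit : (univ.filter (fun v => v ∈ W)).card + (univ.filter (fun v => v ∉ W)).card = n := by
    rw [Finset.card_filter_add_card_filter_not, Finset.card_univ]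
  have hi : ∀ i ∈ Finset.range (r0 + 1), n ≤ 16 * D *
      ((univ.filter (fun v => v ∈ S)).card + (univ.filter (fun v => φ v = i)).card) := by
    intro i hi
    rw [Finset.mem_range] at hi
    set Wi : Finset V := univ.filter (fun v => v ∈ W ∧ i < φ v) with hWi
    have ha : (univ.filter (fun v => v ∈ W)).card ≤ Wi.card + (univ.filter (fun v => φ v ≤ r0)).card := by
      rw [← Finset.card_union_add_card_inter]
      refine le_trans (Finset.card_le_card ?_) (Nat.le_add_right _ _)
      intro v hv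
      simp only [hWi, Finset.mem_filter, Finset.mem_union, Finset.mem_univ, true_and] at hv ⊢
      by_cases h : i < φ v
      · exact Or.inl ⟨hv, h⟩
      · right; omega
    have hb : Wi.card ≤ (univ.filter (fun v => v ∈ W)).card := by
      refine Finset.card_le_card ?_
      intro v hv
      simp only [hWi, Finset.mem_filter, Finset.mem_univ, true_and] at hv ⊢
      exact hv.1
    have hbd : (univ.filter (fun v => v ∉ Wi ∧ ∃ u ∈ Wi, G.Adj u v)).card ≤
        (univ.filter (fun v => v ∈ S)).card + (univ.filter (fun v => φ v = i)).card := by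
      refine le_trans (Finset.card_le_card ?_) (Finset.card_union_le _ _)
      intro v hv
      simp only [hWi, Finset.mem_filter, Finset.mem_union, Finset.mem_univ, true_and] at hv ⊢
      obtain ⟨hv1, u, ⟨huW, hui⟩, huv⟩ := hv
      by_cases hvS : v ∈ S
      · exact Or.inl hvS
      · right
        have h3 := hφ v u huv.symm
        by_cases hvY : v ∈ Y
        · have := hφY v hvY
          omega
        · have hvW : v ∈ W := hWc u huW v ⟨hvS, hvY⟩ huv
          have : ¬ i < φ v := fun h => hv1 ⟨hvW, h⟩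
          omega
    have hW := hiso Wi
    rw [← hn] at hW
    -- 8 |Wi| >= n, 4 (n - |Wi|) >= n
    have h8 : n ≤ 8 * Wi.card := by omega
    have h4 : n ≤ 4 * (n - Wi.card) := by omega
    have hab : n * n ≤ 16 * (Wi.card * (n - Wi.card)) := by
      have key : ∀ a b : ℕ, a + b = n → n ≤ 8 * a → n ≤ 4 * b → n * n ≤ 16 * (a * b) := by
        intro a b hsum h8 h4
        rcases le_total a b with hle | hle
        · have : n ≤ 2 * b := by omega
          calc n * n ≤ (8 * a) * (2 * b) := Nat.mul_le_mul h8 this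
            _ = 16 * (a * b) := by ring
        · have : n ≤ 2 * a := by omega
          calc n * n ≤ (2 * a) * (4 * b) := Nat.mul_le_mul this h4
            _ = 8 * (a * b) := by ring
            _ ≤ 16 * (a * b) := Nat.mul_le_mul_right _ (by norm_num)
      exact key _ _ (by omega) h8 h4
    have hfin : n * n ≤ n * (16 * D * (univ.filter (fun v => v ∉ Wi ∧ ∃ u ∈ Wi, G.Adj u v)).card) := by
      calc n * n ≤ 16 * (Wi.card * (n - Wi.card)) := hab
        _ ≤ 16 * (n * D * (univ.filter (fun v => v ∉ Wi ∧ ∃ u ∈ Wi, G.Adj u v)).card) :=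
          Nat.mul_le_mul_left _ hW
        _ = _ := by ring
    exact le_trans (Nat.le_of_mul_le_mul_left hfin hpos) (Nat.mul_le_mul_left _ hbd)
  have hsum := Finset.sum_le_sum hi
  rw [Finset.sum_const, Finset.card_range, smul_eq_mul, ← Finset.mul_sum, Finset.sum_add_distrib,
    Finset.sum_const, Finset.card_range, smul_eq_mul] at hsum
  have hfib : ∑ i ∈ Finset.range (r0 + 1), (univ.filter (fun v => φ v = i)).card =
      (univ.filter (fun v => φ v ≤ r0)).card := by
    rw [Finset.card_eq_sum_card_fiberwise (f := φ) (t := Finset.range (r0 + 1))]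
    · refine Finset.sum_congr rfl ?_
      intro i hi
      rw [Finset.mem_range] at hi
      congr 1
      ext v
      simp only [Finset.mem_filter, Finset.mem_univ, true_and]
      constructor
      · intro h; exact ⟨by omega, h⟩
      · intro h; exact h.2
    · intro v hv
      simp only [Finset.coe_filter, Finset.mem_univ, true_and, Set.mem_ofPred_eq, Finset.coe_range,
        Set.mem_Iio] at hv ⊢
      omega
  rw [hfib] at hsum
  have h3 : (r0 + 1) * ((univ.filter (fun v => v ∈ S)).card * (32 * D)) < (r0 + 1) * n :=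
    Nat.mul_lt_mul_of_pos_left hS (Nat.succ_pos r0)
  nlinarith [hsum, h1, h3]

theorem exists_bc (hEB : ExistsBigStmt V) (G : SimpleGraph V) (D : ℕ) (hD : 1 ≤ D) (hiso : Iso G D)
    (S Y : Set V)
    (φ : V → ℕ) (hφ : ∀ u v, G.Adj u v → φ v ≤ φ u + 1) (hφY : ∀ y ∈ Y, φ y = 0) (r0 : ℕ)
    (hS : (univ.filter (fun v => v ∈ S)).card * (32 * D) < Fintype.card V)
    (h1 : (univ.filter (fun v => φ v ≤ r0)).card * (32 * D) < (r0 + 1) * Fintype.card V)
    (h2 : 8 * (univ.filter (fun v => φ v ≤ r0)).card ≤ Fintype.card V) :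
    ∃ u, BC G univ (Fintype.card V) (Sᶜ \ Y) u := by
  refine hEB G univ (Fintype.card V) (by rw [Finset.card_univ]) (Sᶜ \ Y) ?_ ?_
  · intro W hWF hWc
    exact closed_small G D hiso S Y φ hφ hφY r0 hS h1 h2 W hWF hWc
  · unfold Big
    obtain ⟨Z, hZ⟩ : ∃ Z : Set V, Z = Sᶜ \ Y := ⟨_, rfl⟩
    rw [← hZ]
    have hsub : (univ.filter (fun v => v ∉ Z)).card ≤
        (univ.filter (fun v => v ∈ S)).card + (univ.filter (fun v => φ v ≤ r0)).card := by
      refine le_trans (Finset.card_le_card ?_) (Finset.card_union_le _ _)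
      intro v hv
      simp only [Finset.mem_filter, Finset.mem_union, Finset.mem_univ, true_and] at hv ⊢
      by_cases hvS : v ∈ S
      · exact Or.inl hvS
      · right
        have hvY : v ∈ Y := by
          by_contra h
          apply hv
          rw [hZ]
          exact ⟨hvS, h⟩
        rw [hφY v hvY]; exact Nat.zero_le _
    have hS' : (univ.filter (fun v => v ∈ S)).card * 32 < Fintype.card V := by
      refine lt_of_le_of_lt (Nat.mul_le_mul_left _ ?_) hS
      omega
    omega

theorem exists_bc_small (hEB : ExistsBigStmt V) (G : SimpleGraph V) (D : ℕ) (hD : 1 ≤ D)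
    (hiso : Iso G D) (S : Set V) (X : Finset V)
    (hS : (univ.filter (fun v => v ∈ S)).card * (32 * D) < Fintype.card V)
    (hX : X.card * (32 * D) < Fintype.card V) :
    ∃ u, BC G univ (Fintype.card V) (Sᶜ \ (X : Set V)) u := by
  have hX' : (univ.filter (fun v => (if v ∈ X then 0 else 1 : ℕ) ≤ 0)) = X := by
    ext v
    simp only [Finset.mem_filter, Finset.mem_univ, true_and]
    by_cases hv : v ∈ X
    · simp [hv]
    · simp [hv]
  refine exists_bc hEB G D hD hiso S X (fun v => if v ∈ X then 0 else 1) ?_ ?_ 0 hS ?_ ?_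
  · intro u v _
    split_ifs <;> omega
  · intro y hy
    rw [if_pos (by simpa using hy)]
  · rw [hX']; simpa using hX
  · rw [hX']
    have : X.card * 32 ≤ X.card * (32 * D) := Nat.mul_le_mul_left _ (by omega)
    omega

/-- The top lemma, graph part. -/
theorem top_abs (hMenger : MengerStmt V) (hEB : ExistsBigStmt V) (hBH : BlockHitStmt V)
    (hLB : LongInBlockStmt V) (hCB : CycleInBlockStmt V) (hRR : RerouteStmt V)
    (G : SimpleGraph V) (D : ℕ) (hD : 1 ≤ D) (hiso : Iso G D)
    (P : List V) (hP : MaxP G P)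
    (ψ : V → ℕ) (hψ : ∀ u v, G.Adj u v → ψ v ≤ ψ u + 1) (hψP : ∀ x ∈ P, ψ x = 0)
    (r : ℕ) (hr : r ≤ D) (r0 : ℕ)
    (hY : ∀ l : List V, IsP G l → l.length ≤ 8 * D + 8 → ∃ φ : V → ℕ,
      (∀ u v, G.Adj u v → φ v ≤ φ u + 1) ∧ (∀ y ∈ l, φ y = 0) ∧
      (univ.filter (fun v => φ v ≤ r0)).card * (32 * D) < (r0 + 1) * Fintype.card V ∧
      8 * (univ.filter (fun v => φ v ≤ r0)).card ≤ Fintype.card V) :
    Fintype.card V * (r + 1) ≤ 32 * D * (univ.filter (fun v => ψ v ≤ r)).card ∨
      Fintype.card V ≤ 16 * P.length := by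
  set n := Fintype.card V with hn
  by_contra hcon
  push Not at hcon
  obtain ⟨hc1, hc2⟩ := hcon
  have hpig : ∃ t ≤ r, (univ.filter (fun v => ψ v = t)).card * (32 * D) < n := by
    by_contra hh
    push Not at hh
    have hfib : ∑ t ∈ Finset.range (r + 1), (univ.filter (fun v => ψ v = t)).card =
        (univ.filter (fun v => ψ v ≤ r)).card := by
      rw [Finset.card_eq_sum_card_fiberwise (f := ψ) (t := Finset.range (r + 1))]
      · refine Finset.sum_congr rfl ?_
        intro i hi
        rw [Finset.mem_range] at hi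
        congr 1
        ext v
        simp only [Finset.mem_filter, Finset.mem_univ, true_and]
        constructor
        · intro h; exact ⟨by omega, h⟩
        · intro h; exact h.2
      · intro v hv
        simp only [Finset.coe_filter, Finset.mem_univ, true_and, Set.mem_ofPred_eq, Finset.coe_range,
          Set.mem_Iio] at hv ⊢
        omega
    have h2 : ∑ t ∈ Finset.range (r + 1), n ≤
        ∑ t ∈ Finset.range (r + 1), (univ.filter (fun v => ψ v = t)).card * (32 * D) := by
      refine Finset.sum_le_sum (fun t ht => hh t ?_)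
      rw [Finset.mem_range] at ht
      omega
    rw [Finset.sum_const, Finset.card_range, smul_eq_mul, ← Finset.sum_mul, hfib] at h2
    nlinarith [h2, hc1]
  obtain ⟨t, htr, ht⟩ := hpig
  obtain ⟨S, hS⟩ : ∃ S : Set V, ∀ v, v ∈ S ↔ ψ v = t := ⟨{v | ψ v = t}, fun v => Iff.rfl⟩
  have hScard : (univ.filter (fun v => v ∈ S)).card * (32 * D) < n := by
    have : univ.filter (fun v => v ∈ S) = univ.filter (fun v => ψ v = t) := by
      ext v; simp [hS]
    rw [this]; exact ht
  have hpos : 0 < n := lt_of_le_of_lt (Nat.zero_le _) hScard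
  have hPne : P ≠ [] := hP.isP.1
  have hPlen : 1 ≤ P.length := List.length_pos_iff.2 hPne
  have hn2 : 1 < Fintype.card V := by rw [← hn]; omega
  have hθ : n ≤ (univ : Finset V).card := by rw [Finset.card_univ]
  have hlong : ∀ l : List V, IsP G l → l.length ≤ 8 * D + 8 →
      ∃ u, BC G univ n (Sᶜ \ {x | x ∈ l}) u := by
    intro l hl hlen
    obtain ⟨φ, hφ, hφ0, h1, h2⟩ := hY l hl hlen
    exact exists_bc hEB G D hD hiso S {x | x ∈ l} φ hφ (fun y hy => hφ0 y hy) r0 hScard h1 h2
  have h1 : ∀ v, ∃ u, BC G univ n (Sᶜ \ {v}) u := by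
    intro v
    have h2 := hlong [v] ⟨by simp, by simp, by simp⟩ (by simp)
    have h3 : {x | x ∈ [v]} = ({v} : Set V) := by ext x; simp
    rw [h3] at h2
    exact h2
  have hbig : ∀ w ∈ Block G univ n Sᶜ, Big univ n (comp G Sᶜ w) := by
    intro w hw
    obtain ⟨v, hv⟩ := Fintype.exists_ne_of_one_lt_card hn2 w
    exact BC.mono Set.sdiff_subset (hw v hv)
  -- the block is disjoint from P
  have hβP : ∀ x ∈ P, x ∉ Block G univ n Sᶜ := by
    intro x hx hxb
    have hbx := hbig x hxb
    have hxF : x ∈ Sᶜ := BC.mem hθ hbx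
    have hx0 := hψP x hx
    have htpos : 0 < t := by
      rcases Nat.eq_zero_or_pos t with h | h
      · exfalso
        apply hxF
        rw [hS, hx0, h]
      · exact h
    have hsub : comp G Sᶜ x ⊆ {v | ψ v < t} := by
      refine comp_sub_of_closed ?_ ?_
      · intro a ha b hb hab
        have h3 := hψ a b hab
        have h4 : ψ b ≠ t := fun h => hb ((hS b).2 h)
        have h5 : ψ a < t := ha
        show ψ b < t
        omega
      · show ψ x < t
        omega
    obtain ⟨Z, hZ⟩ : ∃ Z : Set V, Z = {v | ψ v < t} := ⟨_, rfl⟩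
    have h5 : Big univ n Z := hbx.mono (by rw [hZ]; exact hsub)
    unfold Big at h5
    have h6 : (univ.filter (fun v => ψ v < t)).card + (univ.filter (fun v => ¬ ψ v < t)).card = n := by
      rw [Finset.card_filter_add_card_filter_not, Finset.card_univ]
    have h7 : (univ.filter (fun v => ψ v < t)).card ≤ (univ.filter (fun v => ψ v ≤ r)).card := by
      refine Finset.card_le_card ?_
      intro v hv
      simp only [Finset.mem_filter, Finset.mem_univ, true_and] at hv ⊢
      omega
    have h8 : 4 * (univ.filter (fun v => ¬ ψ v < t)).card < n := by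
      have : univ.filter (fun v => ¬ ψ v < t) = univ.filter (fun v => v ∉ Z) := by
        ext v; simp [hZ]
      rw [this]; exact h5
    have h9 : 16 * (univ.filter (fun v => ψ v ≤ r)).card < n := by
      have h10 : 32 * D * (univ.filter (fun v => ψ v ≤ r)).card < n * (2 * D) :=
        lt_of_lt_of_le hc1 (Nat.mul_le_mul_left _ (by omega))
      have h11 : (2 * D) * (16 * (univ.filter (fun v => ψ v ≤ r)).card) < (2 * D) * n := by
        calc (2 * D) * (16 * (univ.filter (fun v => ψ v ≤ r)).card)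
            = 32 * D * (univ.filter (fun v => ψ v ≤ r)).card := by ring
          _ < n * (2 * D) := h10
          _ = (2 * D) * n := by ring
      exact Nat.lt_of_mul_lt_mul_left h11
    omega
  -- a long cycle
  have hlong' : ∀ l : List V, IsP G l → (∀ x ∈ l, x ∈ Sᶜ) → l.length ≤ (8 * D + 7) + 1 →
      ∃ u, BC G univ n (Sᶜ \ {x | x ∈ l}) u := fun l hl _ hlen => hlong l hl (by omega)
  have hne : (Block G univ n Sᶜ).Nonempty := by
    obtain ⟨u, hu⟩ := exists_bc_small hEB G D hD hiso S ∅ hScard (by simpa using hpos)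
    obtain ⟨w, hw, _⟩ := hBH G univ n hθ Sᶜ _ h1 ⟨u, hu⟩
    exact ⟨w, hw⟩
  obtain ⟨c, hc, _, hclen⟩ := hCB G univ n hθ Sᶜ (8 * D + 7) hlong' h1 hne
  have hp8 : 8 * D + 8 ≤ P.length := le_trans (by omega) (hP.cyc c hc)
  have hβ : ∀ w1 ∈ Block G univ n Sᶜ, ∀ w2 ∈ Block G univ n Sᶜ, w1 ≠ w2 →
      ∃ l, IsPB G l w1 w2 ∧ (∀ x ∈ l, x ∈ Block G univ n Sᶜ) ∧ (4 * D + 4) + 1 ≤ l.length := by
    intro w1 hw1 w2 hw2 hne
    obtain ⟨l, hl1, hl2, hl3⟩ := hLB G univ n hθ Sᶜ (8 * D + 7) hlong' h1 hw1 hw2 hne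
    exact ⟨l, hl1, hl2, by omega⟩
  -- rerouting
  have hre : ∀ m : ℕ, (∃ Q : Fin m → List V,
      Linkage G Set.univ {x | x ∈ P ∧ x ∈ Set.univ} (Block G univ n Sᶜ) m Q) →
      (m - 1) * (4 * D + 4) ≤ P.length := by
    rintro m ⟨Q, hQ⟩
    obtain ⟨C, hC⟩ : ∃ C : ℕ → Set V, ∀ i x, x ∈ C i := ⟨fun _ => Set.univ, fun _ _ => Set.mem_univ _⟩
    have := hRR G P hP (Block G univ n Sᶜ) hβP (4 * D + 4) hβ Set.univ m Q hQ C
      (fun i x _ => hC _ _) (fun _ _ _ _ _ => hC _ _) (fun _ _ _ => hC _ _) (4 * D + 4)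
    rw [min_self] at this
    refine this.trans ?_
    refine (Finset.card_le_card (Finset.filter_subset _ _)).trans ?_
    exact List.toFinset_card_le P
  have hex : ∃ m : ℕ, ¬ (∃ Q : Fin m → List V,
      Linkage G Set.univ {x | x ∈ P ∧ x ∈ Set.univ} (Block G univ n Sᶜ) m Q) := by
    by_contra hall
    push Not at hall
    have h2 := hre (P.length + 2) (hall _)
    have h3 : (P.length + 2 - 1) * 1 ≤ (P.length + 2 - 1) * (4 * D + 4) :=
      Nat.mul_le_mul_left _ (by omega)
    omega
  have hm' := Nat.find_spec hex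
  have hm0 : Nat.find hex ≠ 0 := by
    intro h0
    rw [h0] at hm'
    apply hm'
    exact ⟨fun i => [], fun i => i.elim0, fun i => i.elim0⟩
  obtain ⟨m, hm⟩ := Nat.exists_eq_succ_of_ne_zero hm0
  have hQm : ∃ Q : Fin m → List V,
      Linkage G Set.univ {x | x ∈ P ∧ x ∈ Set.univ} (Block G univ n Sᶜ) m Q := by
    have := Nat.find_min hex (m := m) (by omega)
    exact not_not.1 this
  rw [hm] at hm'
  have hrem := hre m hQm
  have hXex : ∃ X : Finset V, X.card ≤ m ∧ ∀ a ∈ P, ∀ b ∈ Block G univ n Sᶜ,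
      ¬ Conn G (Set.univ \ (X : Set V)) a b := by
    by_contra hh
    push Not at hh
    apply hm'
    refine hMenger G Set.univ _ _ _ ?_
    intro X hX
    obtain ⟨a, ha, b, hb, hab⟩ := hh X (by omega)
    exact ⟨a, ⟨ha, Set.mem_univ _⟩, b, hb, hab⟩
  obtain ⟨X, hXc, hXsep⟩ := hXex
  rcases lt_or_ge (m * (32 * D)) n with hcase | hcase
  · -- few paths
    have hX32 : X.card * (32 * D) < n := lt_of_le_of_lt (Nat.mul_le_mul_right _ hXc) hcase
    have hbcX := exists_bc_small hEB G D hD hiso S X hScard hX32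
    obtain ⟨w, hw, hwX⟩ := hBH G univ n hθ Sᶜ _ h1 hbcX
    have hwX' : BC G univ n (Set.univ \ (X : Set V)) w :=
      BC.mono (Set.sdiff_subset_sdiff_left (Set.subset_univ _)) hwX
    set M : Set V := comp G (Set.univ \ (X : Set V)) w with hM
    have hPM : ∀ x ∈ P, x ∉ M := by
      intro x hx hxM
      exact hXsep x hx w hw (Conn.symm hxM)
    set U : Finset V := univ.filter (fun v => v ∉ X ∧ v ∉ M) with hU
    have hUM : 4 * U.card < n := by
      have hh : Big univ n M := hwX'
      unfold Big at hh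
      refine lt_of_le_of_lt (Nat.mul_le_mul_left _ (Finset.card_le_card ?_)) hh
      intro v hv
      simp only [hU, Finset.mem_filter, Finset.mem_univ, true_and] at hv ⊢
      exact hv.2
    have hUbd : (univ.filter (fun v => v ∉ U ∧ ∃ u ∈ U, G.Adj u v)).card ≤ X.card := by
      refine Finset.card_le_card ?_
      intro v hv
      simp only [hU, Finset.mem_filter, Finset.mem_univ, true_and] at hv ⊢
      obtain ⟨hv1, u, ⟨huX, huM⟩, huv⟩ := hv
      by_contra hvX
      have hvM : v ∈ M := by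
        by_contra h
        exact hv1 ⟨hvX, h⟩
      apply huM
      exact comp_closed hvM ⟨Set.mem_univ _, by simpa using huX⟩ huv.symm
    have hUiso := hiso U
    rw [← hn] at hUiso
    have hUX : U.card ≤ 2 * D * X.card := by
      have h3 : U.card * n ≤ 2 * (U.card * (n - U.card)) := by
        calc U.card * n ≤ U.card * (2 * (n - U.card)) := Nat.mul_le_mul_left _ (by omega)
          _ = _ := by ring
      have h4 : n * U.card ≤ n * (2 * D * X.card) := by
        calc n * U.card = U.card * n := by ring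
          _ ≤ 2 * (U.card * (n - U.card)) := h3
          _ ≤ 2 * (n * D * (univ.filter (fun v => v ∉ U ∧ ∃ u ∈ U, G.Adj u v)).card) :=
            Nat.mul_le_mul_left _ hUiso
          _ ≤ 2 * (n * D * X.card) := Nat.mul_le_mul_left _ (Nat.mul_le_mul_left _ hUbd)
          _ = n * (2 * D * X.card) := by ring
      exact Nat.le_of_mul_le_mul_left h4 hpos
    have hPle : P.length ≤ (2 * D + 1) * m := by
      have h3 : P.length = P.toFinset.card := (List.toFinset_card_of_nodup hP.isP.2.2).symm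
      have h4 : P.toFinset ⊆ X ∪ U := by
        intro x hx
        rw [List.mem_toFinset] at hx
        rw [Finset.mem_union]
        by_cases hxX : x ∈ X
        · exact Or.inl hxX
        · right
          simp only [hU, Finset.mem_filter, Finset.mem_univ, true_and]
          exact ⟨hxX, hPM x hx⟩
      calc P.length = P.toFinset.card := h3
        _ ≤ (X ∪ U).card := Finset.card_le_card h4
        _ ≤ X.card + U.card := Finset.card_union_le _ _
        _ ≤ X.card + 2 * D * X.card := Nat.add_le_add_left hUX _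
        _ = (2 * D + 1) * X.card := by ring
        _ ≤ (2 * D + 1) * m := Nat.mul_le_mul_left _ hXc
    rcases m with _ | _ | k
    · omega
    · omega
    · have h5 : (k + 1 + 1 - 1) * (4 * D + 4) ≤ (2 * D + 1) * (k + 1 + 1) := hrem.trans hPle
      have h6 : k + 1 + 1 - 1 = k + 1 := by omega
      rw [h6] at h5
      nlinarith
  · rcases m with _ | _ | k
    · omega
    · omega
    · have h6 : k + 1 + 1 - 1 = k + 1 := by omega
      rw [h6] at hrem
      nlinarith

end Pool.Agent.Lib.MP_688fd0_co.LP
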