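import Pool.Agent.Lib.MP_688fd0_co.LP.Top
import Pool.Agent.Lib.MP_688fd0_co.LP.TopGroup
import Pool.Agent.Lib.MP_688fd0_co.LP.Menger
import Pool.Agent.Lib.MP_688fd0_co.LP.Tangle
import Pool.Agent.Lib.MP_688fd0_co.LP.Cycle
import Pool.Agent.Lib.MP_688fd0_co.LP.Reroute

/-!
Top lemma (section 6 of the Blueprint), assembled: module M7 complete.
-/

set_option autoImplicit false

namespace Pool.Agent.Lib.MP_688fd0_co.LP

open Classical Pointwise Finset

section
variable (V : Type*) [Finite V]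

theorem mengerStmt : MengerStmt V := fun G F A B k h => menger G F A B k h

theorem existsBigStmt : ExistsBigStmt V := fun G B0 θ hθ F h1 h2 => exists_big G B0 θ hθ F h1 h2

theorem blockHitStmt : BlockHitStmt V := fun G B0 θ hθ F X h1 h2 => block_hit G B0 θ hθ F X h1 h2

theorem longInBlockStmt : LongInBlockStmt V :=
  fun G B0 θ hθ F L h h1 _ _ hw1 hw2 h12 => long_in_block G B0 θ hθ F L h h1 hw1 hw2 h12

theorem cycleInBlockStmt : CycleInBlockStmt V :=
  fun G B0 θ hθ F L h h1 hne => cycle_in_block G B0 θ hθ F L h h1 hne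

theorem rerouteStmt : RerouteStmt V :=
  fun G P hP β h1 t h2 F m Q hQ C h3 h4 h5 R => reroute G P hP β h1 t h2 F m Q hQ C h3 h4 h5 R

end

/-- the top lemma for graphs, with all modules -/
theorem top_graph {V : Type*} [Fintype V]
    (G : SimpleGraph V) (D : ℕ) (hD : 1 ≤ D) (hiso : Iso G D)
    (P : List V) (hP : MaxP G P)
    (ψ : V → ℕ) (hψ : ∀ u v, G.Adj u v → ψ v ≤ ψ u + 1) (hψP : ∀ x ∈ P, ψ x = 0)
    (r : ℕ) (hr : r ≤ D) (r0 : ℕ)
    (hY : ∀ l : List V, IsP G l → l.length ≤ 8 * D + 8 → ∃ φ : V → ℕ,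
      (∀ u v, G.Adj u v → φ v ≤ φ u + 1) ∧ (∀ y ∈ l, φ y = 0) ∧
      (univ.filter (fun v => φ v ≤ r0)).card * (32 * D) < (r0 + 1) * Fintype.card V ∧
      8 * (univ.filter (fun v => φ v ≤ r0)).card ≤ Fintype.card V) :
    Fintype.card V * (r + 1) ≤ 32 * D * (univ.filter (fun v => ψ v ≤ r)).card ∨
      Fintype.card V ≤ 16 * P.length :=
  top_abs (mengerStmt V) (existsBigStmt V) (blockHitStmt V) (longInBlockStmt V) (cycleInBlockStmt V)
    (rerouteStmt V) G D hD hiso P hP ψ hψ hψP r hr r0 hY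

/-- M7: the top lemma for Cayley graphs. -/
theorem top_cayley {Γ : Type*} [Group Γ] [Fintype Γ] {T : Finset Γ} (hT : Symm T) {D : ℕ}
    (hD : T ^ D = Finset.univ) (hD1 : 1 ≤ D)
    (P : List Γ) (hP : MaxP (cay T) P) (r r0 : ℕ) (hr : r ≤ D) (hr0 : r0 ≤ D)
    (h1 : 1 ≤ r0 → ((8 * D + 8) / r0 + 2) * (T ^ (2 * r0)).card * (32 * D) <
      (r0 + 1) * Fintype.card Γ)
    (h0 : r0 = 0 → (8 * D + 8) * (32 * D) < Fintype.card Γ) :
    Fintype.card Γ * (r + 1) ≤
      32 * D * (univ.filter (fun x => ∃ v ∈ P, v ∈ ball T x r)).card ∨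
      Fintype.card Γ ≤ 16 * P.length :=
  TopGroup.top_group hT hD hD1 P hP.isP.1
    (fun ψ hψ hψP r hr r0 hY => top_graph (cay T) D hD1 (fun W => TopGroup.hiso hT hD W) P hP ψ hψ
      hψP r hr r0 hY) r r0 hr hr0 h1 h0

end Pool.Agent.Lib.MP_688fd0_co.LP
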